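import Pool.Agent.H13.Pol.Deriv

/-!
# Approximation of homogeneous maps by polynomial maps, with the derivatives
-/

set_option autoImplicit false

open Set Filter Topology Metric Function MeasureTheory
open scoped ContDiff

noncomputable section

namespace Pool.Agent.H13.Pol

open Pool.Agent.Q196.NP (V)
open Pool.Agent.H13.Gap (hom_continuous hasF euler)

variable {n : ℕ}

/-- the skew adjoint operators -/
abbrev Sk (n : ℕ) : Submodule ℝ (Op n) := skewAdjoint.submodule ℝ (Op n)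

instance fdOp : FiniteDimensional ℝ (Op n) := FiniteDimensional.complexToReal (Op n)

instance fdSk : FiniteDimensional ℝ (Sk n) := inferInstance

instance frSk : Module.Free ℝ (Sk n) := Module.Free.of_divisionRing ℝ (Sk n)

lemma skew_exists {v h : V n} (hv : ‖v‖ = 1) (hvh : (inner ℂ v h : ℂ).re = 0) :
    ∃ X : Op n, X ∈ Sk n ∧ X v = h ∧ ‖X‖ ≤ 3 * ‖h‖ := by
  set X : Op n := (innerSL ℂ v).smulRight h - (innerSL ℂ h).smulRight v -
    (inner ℂ v h : ℂ) • (innerSL ℂ v).smulRight v with hX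
  have hXa : ∀ w, X w = (inner ℂ v w : ℂ) • h - (inner ℂ h w : ℂ) • v -
      (inner ℂ v h : ℂ) • ((inner ℂ v w : ℂ) • v) := fun w => rfl
  have hconj : (starRingEnd ℂ) (inner ℂ v h : ℂ) = -(inner ℂ v h : ℂ) := by
    apply Complex.ext
    · rw [Complex.conj_re, Complex.neg_re, hvh, neg_zero]
    · rw [Complex.conj_im, Complex.neg_im]
  have hhv : (inner ℂ h v : ℂ) = -(inner ℂ v h : ℂ) := by
    rw [← hconj, inner_conj_symm]
  refine ⟨X, ?_, ?_, ?_⟩
  · show star X = -X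
    rw [ContinuousLinearMap.star_eq_adjoint]
    symm
    rw [ContinuousLinearMap.eq_adjoint_iff]
    intro u w
    rw [_root_.neg_apply, hXa, hXa, inner_neg_left]
    simp only [inner_sub_left, inner_sub_right, inner_smul_left, inner_smul_right]
    have e1 : (starRingEnd ℂ) (inner ℂ v u : ℂ) = inner ℂ u v := inner_conj_symm u v
    have e2 : (starRingEnd ℂ) (inner ℂ h u : ℂ) = inner ℂ u h := inner_conj_symm u h
    rw [e1, e2, hconj]
    ring
  · rw [hXa, inner_self_eq_norm_sq_to_K, hv, hhv]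
    simp
  · refine ContinuousLinearMap.opNorm_le_bound _ (by positivity) fun w => ?_
    rw [hXa]
    have h1 : ‖(inner ℂ v w : ℂ)‖ ≤ ‖w‖ := by
      have := norm_inner_le_norm (𝕜 := ℂ) v w
      rwa [hv, one_mul] at this
    have h2 : ‖(inner ℂ h w : ℂ)‖ ≤ ‖h‖ * ‖w‖ := norm_inner_le_norm _ _
    have h3 : ‖(inner ℂ v h : ℂ)‖ ≤ ‖h‖ := by
      have := norm_inner_le_norm (𝕜 := ℂ) v h
      rwa [hv, one_mul] at this
    refine (norm_sub_le _ _).trans ?_
    have h4 := norm_sub_le ((inner ℂ v w : ℂ) • h) ((inner ℂ h w : ℂ) • v)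
    rw [norm_smul, norm_smul, hv, mul_one] at h4
    rw [norm_smul, norm_smul, hv, mul_one]
    have h5 : ‖(inner ℂ v w : ℂ)‖ * ‖h‖ ≤ ‖w‖ * ‖h‖ := mul_le_mul_of_nonneg_right h1 (norm_nonneg _)
    have h6 : ‖(inner ℂ v h : ℂ)‖ * ‖(inner ℂ v w : ℂ)‖ ≤ ‖h‖ * ‖w‖ :=
      mul_le_mul h3 h1 (norm_nonneg _) (norm_nonneg _)
    linarith

/-- a basis of the skew adjoint operators -/
def bs (n : ℕ) : Module.Basis (Fin (Module.finrank ℝ (Sk n))) ℝ (Sk n) := Module.finBasis ℝ (Sk n)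

lemma coord_bound (n : ℕ) : ∃ C : ℝ, 0 ≤ C ∧ ∀ (X : Sk n) j, |(bs n).repr X j| ≤ C * ‖(X : Op n)‖ := by
  let g : (Fin (Module.finrank ℝ (Sk n)) → ℝ) →ₗ[ℝ] Op n :=
    (Sk n).subtype.comp (bs n).equivFun.symm.toLinearMap
  have hg : LinearMap.ker g = ⊥ := by
    rw [LinearMap.ker_eq_bot]
    exact Subtype.val_injective.comp (bs n).equivFun.symm.injective
  obtain ⟨K, hK0, hK⟩ := g.exists_antilipschitzWith hg
  refine ⟨K, K.2, fun X j => ?_⟩
  have h1 := hK.le_mul_dist ((bs n).equivFun X) 0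
  rw [map_zero, dist_zero_right, dist_zero_right] at h1
  have h2 : g ((bs n).equivFun X) = (X : Op n) := by
    show (((bs n).equivFun.symm ((bs n).equivFun X) : Sk n) : Op n) = X
    rw [LinearEquiv.symm_apply_apply]
  rw [h2] at h1
  have h3 := norm_le_pi_norm ((bs n).equivFun X) j
  exact h3.trans h1

lemma GX_lin {F : V n → V n} {ι : Type*} (S : Finset ι) (x : ι → ℝ) (Y : ι → Op n) (w : V n) :
    GX F (∑ j ∈ S, x j • Y j) w = ∑ j ∈ S, x j • GX F (Y j) w := by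
  unfold GX
  have h1 : (∑ j ∈ S, x j • Y j) w = ∑ j ∈ S, x j • (Y j w) := by
    rw [_root_.sum_apply]
    rfl
  rw [h1, map_sum]
  refine Finset.sum_congr rfl fun j _ => ?_
  rw [map_smul]

lemma TT_lin (p : ℕ) {ι : Type*} (S : Finset ι) (x : ι → ℝ) (G : ι → V n → V n)
    (hG : ∀ j, Continuous (G j)) (v : V n) :
    TT p (fun w => ∑ j ∈ S, x j • G j w) v = ∑ j ∈ S, x j • TT p (G j) v := by
  unfold TT
  have h1 : ∀ w : V n, ker p w v • ∑ j ∈ S, x j • G j w = ∑ j ∈ S, x j • (ker p w v • G j w) := by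
    intro w
    rw [Finset.smul_sum]
    refine Finset.sum_congr rfl fun j _ => ?_
    rw [smul_comm]
  simp_rw [h1]
  rw [integral_finsetSum]
  · refine Finset.sum_congr rfl fun j _ => ?_
    rw [integral_smul]
  · intro j _
    have h2 : Continuous fun w : V n => ker p w v • G j w := (ker_cont p v).smul (hG j)
    exact ContinuousOn.integrableOn_compact (isCompact_closedBall _ _)
      (h2.const_smul (x j)).continuousOn

/-- the derivative of the normalized map in a tangential direction -/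
lemma nrm_tangent {D : ℕ} {G : V n → V n} (hG : ContDiff ℝ ∞ G) {v h : V n} (hv : ‖v‖ = 1)
    (hvh : (inner ℝ v h : ℝ) = 0) : fderiv ℝ (nrm D G) v h = fderiv ℝ G v h := by
  have hv0 : v ≠ 0 := by
    intro h0
    rw [h0, norm_zero] at hv
    exact zero_ne_one hv
  obtain ⟨L, hL, hLh⟩ := normpow_deriv D hv0
  have h1 : HasFDerivAt G (fderiv ℝ G v) v := (hG.differentiable (by simp) v).hasFDerivAt
  have h2 : HasFDerivAt (fun v : V n => (‖v‖ ^ (2 * D))⁻¹) (-((‖v‖ ^ (2 * D)) ^ 2)⁻¹ • L) v :=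
    (hasDerivAt_inv (pow_ne_zero _ (norm_ne_zero_iff.2 hv0))).comp_hasFDerivAt v hL
  have h3 : HasFDerivAt (nrm D G) ((‖v‖ ^ (2 * D))⁻¹ • fderiv ℝ G v +
      (-((‖v‖ ^ (2 * D)) ^ 2)⁻¹ • L).smulRight (G v)) v := h2.smul h1
  rw [h3.fderiv]
  show (‖v‖ ^ (2 * D))⁻¹ • fderiv ℝ G v h + (-((‖v‖ ^ (2 * D)) ^ 2)⁻¹ • L h) • G v = _
  rw [hLh, hvh, hv]
  simp

lemma real_inner_re (v h : V n) : (inner ℝ v h : ℝ) = (inner ℂ v h : ℂ).re := by
  rw [PiLp.inner_apply, PiLp.inner_apply, Complex.re_sum]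
  refine Finset.sum_congr rfl fun i _ => ?_
  rfl

/-- **approximation in the `C¹` topology** -/
theorem C1_close {F : V n → V n} (hF : Hm F) {ε : ℝ} (hε : 0 < ε) : ∃ p₀ : ℕ, ∀ p, p₀ ≤ p →
    ∀ v, ‖v‖ = 1 → ∀ h, ‖fderiv ℝ (nrm p (pm ((mu n p)⁻¹ • ct p F))) v h - fderiv ℝ F v h‖ ≤
      ε * ‖h‖ := by
  obtain ⟨C, hC0, hC⟩ := coord_bound n
  set N : ℕ := Module.finrank ℝ (Sk n) with hN
  set ε' : ℝ := ε / (1 + 6 * C * N) with hε'
  have hden : 0 < 1 + 6 * C * N := by positivity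
  have hε'0 : 0 < ε' := div_pos hε hden
  have hB : ∀ j : Fin N, ∃ p₀ : ℕ, ∀ p, p₀ ≤ p → ∀ v, ‖v‖ = 1 →
      ‖(mu n p)⁻¹ • TT p (GX F (bs n j : Op n)) v - GX F (bs n j : Op n) v‖ ≤ ε' := fun j =>
    TT_close (GX_cont hF _) (GX_hom hF _) hε'0
  choose P hP using hB
  obtain ⟨p₁, hp₁⟩ := TT_close hF.cont hF.hom hε'0
  refine ⟨max p₁ (Finset.univ.sup P), fun p hp v hv h => ?_⟩
  have hpj : ∀ j, P j ≤ p := fun j =>
    (Finset.le_sup (f := P) (Finset.mem_univ j)).trans ((le_max_right _ _).trans hp)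
  have hp1 : p₁ ≤ p := (le_max_left _ _).trans hp
  have hv0 : v ≠ 0 := by
    intro h0
    rw [h0, norm_zero] at hv
    exact zero_ne_one hv
  set G : V n → V n := pm ((mu n p)⁻¹ • ct p F) with hG
  have hGT : ∀ v, G v = (mu n p)⁻¹ • TT p F v := by
    intro v
    rw [hG, TT_eq_pm p hF.cont, pm_smul]
  have hGs : ContDiff ℝ ∞ G := pm_smooth _
  have hTs : ContDiff ℝ ∞ (TT p F) := by
    rw [TT_eq_pm p hF.cont]
    exact pm_smooth _
  set a : ℝ := (inner ℂ v h : ℂ).re with ha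
  have ha1 : |a| ≤ ‖h‖ := by
    have h1 := Complex.abs_re_le_norm (inner ℂ v h : ℂ)
    have h2 := norm_inner_le_norm (𝕜 := ℂ) v h
    rw [hv, one_mul] at h2
    exact h1.trans h2
  set h' : V n := h - a • v with hh'
  have hh'n : ‖h'‖ ≤ 2 * ‖h‖ := by
    refine (norm_sub_le _ _).trans ?_
    rw [norm_smul, hv, mul_one, Real.norm_eq_abs]
    linarith
  have hvh' : (inner ℂ v h' : ℂ).re = 0 := by
    rw [hh', inner_sub_right]
    have h1 : (inner ℂ v (a • v) : ℂ) = (a : ℂ) := by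
      rw [← Complex.coe_smul, inner_smul_right, inner_self_eq_norm_sq_to_K, hv]
      simp
    rw [h1, Complex.sub_re, Complex.ofReal_re, ← ha, sub_self]
  obtain ⟨X, hXs, hXv, hXn⟩ := skew_exists hv hvh'
  have hr : ‖X‖ ≤ 6 * ‖h‖ := by linarith
  -- the expansion
  have hXe : X = ∑ j, (bs n).repr ⟨X, hXs⟩ j • (bs n j : Op n) := by
    have h1 := (bs n).sum_repr ⟨X, hXs⟩
    have h2 : ((∑ j, (bs n).repr ⟨X, hXs⟩ j • bs n j : Sk n) : Op n) = X := congrArg (Subtype.val) h1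
    rw [Submodule.coe_sum] at h2
    exact h2.symm
  -- the tangential part
  have htan : ‖fderiv ℝ (nrm p G) v h' - fderiv ℝ F v h'‖ ≤ 6 * C * N * ε' * ‖h‖ := by
    rw [nrm_tangent hGs hv (by rw [real_inner_re]; exact hvh')]
    have e1 : fderiv ℝ G v h' = (mu n p)⁻¹ • TT p (GX F X) v := by
      rw [← deriv_TT p hF hXs v, hXv]
      have h3 : HasFDerivAt G ((mu n p)⁻¹ • fderiv ℝ (TT p F) v) v := by
        have h4 := ((hTs.differentiable (by simp) v).hasFDerivAt).const_smul (mu n p)⁻¹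
        exact h4.congr_of_eventuallyEq (Eventually.of_forall fun x => hGT x)
      rw [h3.fderiv]
      rfl
    have e2 : fderiv ℝ F v h' = GX F X v := by
      unfold GX
      rw [hXv]
    have e3 : GX F X = fun w => ∑ j, (bs n).repr ⟨X, hXs⟩ j • GX F (bs n j : Op n) w := by
      funext w
      rw [← GX_lin, ← hXe]
    rw [e1, e2, e3, TT_lin p _ _ _ fun j => GX_cont hF _, Finset.smul_sum, ← Finset.sum_sub_distrib]
    refine (norm_sum_le _ _).trans ?_
    have h5 : ∀ j ∈ (Finset.univ : Finset (Fin N)),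
        ‖(mu n p)⁻¹ • ((bs n).repr ⟨X, hXs⟩ j • TT p (GX F (bs n j : Op n)) v) -
          (bs n).repr ⟨X, hXs⟩ j • GX F (bs n j : Op n) v‖ ≤ C * (6 * ‖h‖) * ε' := by
      intro j _
      rw [smul_comm, ← smul_sub, norm_smul]
      refine mul_le_mul ?_ (hP j p (hpj j) v hv) (norm_nonneg _) (by positivity)
      exact (hC _ j).trans (mul_le_mul_of_nonneg_left hr hC0)
    refine (Finset.sum_le_sum h5).trans (le_of_eq ?_)
    rw [Finset.sum_const, Finset.card_univ, Fintype.card_fin, nsmul_eq_mul]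
    ring
  -- the radial part
  have hrad : ‖fderiv ℝ (nrm p G) v (a • v) - fderiv ℝ F v (a • v)‖ ≤ ε' * ‖h‖ := by
    have hH := nrm_pm_hm ((mu n p)⁻¹ • ct p F)
    rw [map_smul, map_smul, euler hH.smooth hH.homR hv0, euler hF.smooth hF.homR hv0, ← smul_sub,
      norm_smul, Real.norm_eq_abs]
    have e4 : nrm p G v = (mu n p)⁻¹ • TT p F v := by
      unfold nrm
      rw [hv, one_pow, inv_one, one_smul, hGT]
    rw [e4, mul_comm]
    exact mul_le_mul (hp₁ p hp1 v hv) ha1 (abs_nonneg _) hε'0.le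
  have e5 : fderiv ℝ (nrm p G) v h - fderiv ℝ F v h = (fderiv ℝ (nrm p G) v h' - fderiv ℝ F v h') +
      (fderiv ℝ (nrm p G) v (a • v) - fderiv ℝ F v (a • v)) := by
    have e6 : h = h' + a • v := by rw [hh']; abel
    have e7 : fderiv ℝ (nrm p G) v h = fderiv ℝ (nrm p G) v h' + fderiv ℝ (nrm p G) v (a • v) := by
      rw [← map_add, ← e6]
    have e8 : fderiv ℝ F v h = fderiv ℝ F v h' + fderiv ℝ F v (a • v) := by
      rw [← map_add, ← e6]
    rw [e7, e8]
    abel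
  rw [e5]
  refine (norm_add_le _ _).trans ((add_le_add htan hrad).trans (le_of_eq ?_))
  rw [hε']
  field_simp
  ring

end Pool.Agent.H13.Pol
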