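import Pool.Agent.H13.Pol.Homot

/-!
# Homogeneous local diffeomorphisms are bijective
-/

set_option autoImplicit false

open Set Filter Topology Metric Function MeasureTheory
open scoped ContDiff

noncomputable section

namespace Pool.Agent.H13.Pol

open Pool.Agent.Q196.NP (V Mat CP line col line_mem line_smul col_line col_smooth exists_line
  line_smooth lift_der HD U1)
open Pool.Agent.H13.Gap (hom_continuous hasF euler)

variable {n : ℕ}

lemma Nd.ne {F : V n → V n} (hN : Nd F) (hF : Hm F) {v : V n} (hv : v ≠ 0) : F v ≠ 0 := by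
  have h1 : fderiv ℝ F v v = F v := euler hF.smooth hF.homR hv
  rw [← h1]
  intro h2
  exact hv (hN v hv (by rw [h2, map_zero]))

lemma nd_lower {F : V n → V n} (hN : Nd F) (hF : Hm F) : ∃ m : ℝ, 0 < m ∧ ∀ v, m * ‖v‖ ≤ ‖F v‖ := by
  obtain ⟨v₀, hv₀⟩ := exists_unit n
  obtain ⟨x₀, hx₀, hmin⟩ := (isCompact_sphere (0 : V n) 1).exists_isMinOn
    ⟨v₀, by rwa [mem_sphere_zero_iff_norm]⟩ hF.cont.norm.continuousOn
  rw [mem_sphere_zero_iff_norm] at hx₀
  refine ⟨‖F x₀‖, norm_pos_iff.2 (hN.ne hF (unit_ne hx₀)), fun v => ?_⟩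
  by_cases hv : v = 0
  · rw [hv, norm_zero, mul_zero]
    exact norm_nonneg _
  have hvp : 0 < ‖v‖ := norm_pos_iff.2 hv
  have h1 : ‖‖v‖⁻¹ • v‖ = 1 := by
    rw [norm_smul, norm_inv, norm_norm, inv_mul_cancel₀ hvp.ne']
  have h2 : ‖F x₀‖ ≤ ‖F (‖v‖⁻¹ • v)‖ := isMinOn_iff.1 hmin _ (by rwa [mem_sphere_zero_iff_norm])
  rw [hF.homR _ (inv_nonneg.2 (norm_nonneg _)), norm_smul, norm_inv, norm_norm,
    ← div_eq_inv_mul, le_div_iff₀ hvp] at h2
  exact h2

lemma nd_local {F : V n → V n} (hN : Nd F) (hF : Hm F) {v : V n} (hv : v ≠ 0) :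
    ∃ e : OpenPartialHomeomorph (V n) (V n), v ∈ e.source ∧ e = F := by
  have hinj := hN v hv
  have hsurj : Surjective (fderiv ℝ F v) :=
    (LinearMap.injective_iff_surjective (f := (fderiv ℝ F v : V n →ₗ[ℝ] V n))).1 hinj
  let A : V n ≃L[ℝ] V n := ContinuousLinearEquiv.ofBijective (fderiv ℝ F v)
    (LinearMap.ker_eq_bot.2 hinj) (LinearMap.range_eq_top.2 hsurj)
  have hA : (A : V n →L[ℝ] V n) = fderiv ℝ F v := ContinuousLinearMap.ext fun x => rfl
  have h1 : ContDiffAt ℝ ∞ F v := hF.smooth.contDiffAt (isOpen_compl_singleton.mem_nhds hv)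
  have hst : HasStrictFDerivAt F (A : V n →L[ℝ] V n) v := by
    rw [hA]
    exact h1.hasStrictFDerivAt (by simp)
  exact ⟨hst.toOpenPartialHomeomorph _, hst.mem_toOpenPartialHomeomorph_source, rfl⟩

lemma nd_proper {F : V n → V n} (hN : Nd F) (hF : Hm F) : IsProperMap F := by
  obtain ⟨m, hm, hl⟩ := nd_lower hN hF
  rw [isProperMap_iff_tendsto_cocompact]
  refine ⟨hF.cont, ?_⟩
  rw [← cobounded_eq_cocompact, ← tendsto_norm_atTop_iff_cobounded]
  have h1 : Tendsto (fun v : V n => m * ‖v‖) (Bornology.cobounded (V n)) atTop :=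
    tendsto_norm_cobounded_atTop.const_mul_atTop hm
  exact tendsto_atTop_mono hl h1

lemma nd_cov {F : V n → V n} (hN : Nd F) (hF : Hm F) :
    IsCoveringMap (({0}ᶜ : Set (V n)).restrictPreimage F) := by
  apply IsCoveringMapOn.isCoveringMap_restrictPreimage
  have hloc : ∀ x ∈ ({0}ᶜ : Set (V n)), ∀ e ∈ F ⁻¹' {x},
      ∃ φ : OpenPartialHomeomorph (V n) (V n), e ∈ φ.source ∧ φ = F := by
    intro x hx e he
    apply nd_local hN hF
    rintro rfl
    apply hx
    rw [← (he : F 0 = x), hF.zero]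
    rfl
  refine (nd_proper hN hF).isClosedMap.isCoveringMapOn_of_isLocalHomeomorphOn ?_ ?_
  · intro x hx
    exact ((nd_proper hN hF).isCompact_preimage isCompact_singleton).finite
      (.of_openPartialHomeomorph F subset_rfl (hloc x hx))
  · refine IsLocalHomeomorphOn.mk F _ fun x hx => ?_
    obtain ⟨φ, h1, h2⟩ := hloc (F x) hx x rfl
    exact ⟨φ, h1, fun y _ => by rw [h2]⟩

lemma rank_V (n : ℕ) : Module.rank ℝ (V n) = ((2 * (n + 1) : ℕ) : Cardinal) := by
  rw [← Module.finrank_eq_rank, finrank_V]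

lemma conn_compl_zero (n : ℕ) : IsConnected ({0}ᶜ : Set (V n)) := by
  apply isConnected_compl_singleton_of_one_lt_rank
  rw [rank_V]
  exact_mod_cast (by omega : 1 < 2 * (n + 1))

lemma nd_surj {F : V n → V n} (hN : Nd F) (hF : Hm F) : Surjective F := by
  set p := ({0}ᶜ : Set (V n)).restrictPreimage F with hp
  have hcov := nd_cov hN hF
  have hopen : IsOpen (range p) := hcov.isOpenMap.isOpen_range
  have hclosed : IsClosed (range p) := by
    have h1 : IsClosedMap p := (nd_proper hN hF).isClosedMap.restrictPreimage _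
    exact h1.isClosed_range
  have : PreconnectedSpace ({0}ᶜ : Set (V n)) :=
    isPreconnected_iff_preconnectedSpace.1 (conn_compl_zero n).isPreconnected
  obtain ⟨v₀, hv₀⟩ := exists_unit n
  have hne : (range p).Nonempty := ⟨p ⟨v₀, hN.ne hF (unit_ne hv₀)⟩, mem_range_self _⟩
  have huniv := IsClopen.eq_univ ⟨hclosed, hopen⟩ hne
  intro y
  by_cases hy : y = 0
  · exact ⟨0, by rw [hF.zero, hy]⟩
  · have h1 : (⟨y, hy⟩ : ({0}ᶜ : Set (V n))) ∈ range p := by rw [huniv]; trivial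
    obtain ⟨x, hx⟩ := h1
    exact ⟨x, congrArg Subtype.val hx⟩

lemma conn_line_compl (hn : 1 ≤ n) :
    IsConnected ((Submodule.span ℝ {e0 n} : Submodule ℝ (V n)) : Set (V n))ᶜ := by
  apply isConnected_compl_of_one_lt_codim
  have h1 : Module.finrank ℝ (V n ⧸ (Submodule.span ℝ {e0 n} : Submodule ℝ (V n))) =
      2 * (n + 1) - 1 := by
    have h2 := Submodule.finrank_quotient_add_finrank (Submodule.span ℝ {e0 n} : Submodule ℝ (V n))
    rw [finrank_V, finrank_span_singleton (SS_ne e0_mem)] at h2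
    omega
  rw [← Module.finrank_eq_rank, h1]
  exact_mod_cast (by omega : 1 < 2 * (n + 1) - 1)

lemma mem_SS_inter {v : V n} (h : v ∈ SS n ∧ -v ∈ SS n) :
    v ∉ (Submodule.span ℝ {e0 n} : Submodule ℝ (V n)) := by
  intro h1
  obtain ⟨a, rfl⟩ := Submodule.mem_span_singleton.1 h1
  have hz : (a • e0 n) 0 = (a : ℂ) := by
    show a • (e0 n) 0 = (a : ℂ)
    rw [e0_zero]
    simp
  have hr : rm (a • e0 n) = 0 := by
    unfold rm
    rw [hz, Complex.coe_smul, sub_self]
  have hr' : rm (-(a • e0 n)) = 0 := by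
    have := rm_smul (-1) (a • e0 n)
    rw [neg_one_smul, hr, smul_zero] at this
    exact this
  rcases h.1 with h2 | h2
  · exact h2 hr
  rcases h.2 with h3 | h3
  · exact h3 hr'
  have h2' : ((a : ℝ) : ℂ) ∈ Complex.slitPlane := by rw [← hz]; exact h2
  have h3' : ((-a : ℝ) : ℂ) ∈ Complex.slitPlane := by
    have : (-(a • e0 n)) 0 = ((-a : ℝ) : ℂ) := by
      show -((a • e0 n) 0) = _
      rw [hz]
      push_cast
      rfl
    rw [← this]
    exact h3
  rw [Complex.ofReal_mem_slitPlane] at h2' h3'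
  linarith

lemma SS_cov {v : V n} (hv : v ≠ 0) : v ∈ SS n ∨ -v ∈ SS n := by
  by_cases h1 : rm v = 0
  · have h2 : v = v 0 • e0 n := sub_eq_zero.1 h1
    have h3 : v 0 ≠ 0 := by
      intro h
      apply hv
      rw [h2, h, zero_smul]
    by_cases h4 : v 0 ∈ Complex.slitPlane
    · exact Or.inl (Or.inr h4)
    · right
      right
      show -(v 0) ∈ Complex.slitPlane
      rw [Complex.mem_slitPlane_iff] at h4 ⊢
      push Not at h4
      left
      rcases h4.1.lt_or_eq with h5 | h5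
      · simpa using h5
      · exact absurd (Complex.ext h5 h4.2) h3
  · exact Or.inl (Or.inl h1)

lemma mem_SS_of_not {v : V n} (h : v ∉ (Submodule.span ℝ {e0 n} : Submodule ℝ (V n))) :
    v ∈ SS n ∧ -v ∈ SS n := by
  have key : ∀ v : V n, v ∉ (Submodule.span ℝ {e0 n} : Submodule ℝ (V n)) → v ∈ SS n := by
    intro v h
    by_cases h1 : rm v = 0
    · right
      show v 0 ∈ Complex.slitPlane
      have h2 : v = v 0 • e0 n := sub_eq_zero.1 h1
      rw [Complex.mem_slitPlane_iff]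
      right
      intro h3
      apply h
      rw [Submodule.mem_span_singleton]
      refine ⟨(v 0).re, ?_⟩
      have h4 : ((v 0).re : ℂ) = v 0 := Complex.ext rfl h3.symm
      conv_rhs => rw [h2, ← h4]
      rw [Complex.coe_smul]
    · exact Or.inl h1
  refine ⟨key v h, key (-v) fun h1 => h ?_⟩
  have := Submodule.neg_mem _ h1
  rwa [neg_neg] at this

/-- **homogeneous local diffeomorphisms are bijective** (`n ≥ 1`) -/
theorem nd_bij (hn : 1 ≤ n) {F : V n → V n} (hN : Nd F) (hF : Hm F) : Bijective F := by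
  refine ⟨?_, nd_surj hN hF⟩
  set X : Set (V n) := {0}ᶜ with hX
  set p : F ⁻¹' X → X := X.restrictPreimage F with hp
  have hcov : IsCoveringMap p := nd_cov hN hF
  have : ContractibleSpace (SS n) := SS_star.contractibleSpace ⟨_, e0_mem⟩
  have : LocallyPathConnectedSpace (SS n) := SS_open.locallyPathConnectedSpace
  have hpre : F ⁻¹' X = X := by
    ext v
    constructor
    · rintro hv rfl
      exact hv hF.zero
    · intro hv
      exact hN.ne hF hv
  -- the base point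
  obtain ⟨y, hy⟩ := (conn_line_compl hn).nonempty
  have hyS := mem_SS_of_not hy
  have hy0 : y ≠ 0 := SS_ne hyS.1
  obtain ⟨x, hx⟩ := nd_surj hN hF y
  have hxm : x ∈ F ⁻¹' X := by
    show F x ≠ 0
    rw [hx]
    exact hy0
  -- the two sections
  let f₁ : C(SS n, X) := ⟨fun v => ⟨v, SS_ne v.2⟩, by fun_prop⟩
  let f₂ : C(SS n, X) := ⟨fun v => ⟨-v, neg_ne_zero.2 (SS_ne v.2)⟩, by fun_prop⟩
  obtain ⟨s₁, ⟨hs₁, hs₁p⟩, -⟩ := hcov.existsUnique_continuousMap_lifts f₁ ⟨y, hyS.1⟩ ⟨x, hxm⟩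
    (Subtype.ext hx)
  obtain ⟨s₂, ⟨hs₂, hs₂p⟩, -⟩ := hcov.existsUnique_continuousMap_lifts f₂ ⟨-y, hyS.2⟩ ⟨x, hxm⟩
    (Subtype.ext (by
      show F x = - -y
      rw [hx, neg_neg]))
  classical
  set g₁ : V n → F ⁻¹' X := fun v => if hv : v ∈ SS n then s₁ ⟨v, hv⟩ else ⟨x, hxm⟩ with hg₁
  set g₂ : V n → F ⁻¹' X := fun v => if hv : -v ∈ SS n then s₂ ⟨-v, hv⟩ else ⟨x, hxm⟩ with hg₂
  have hg₁c : ContinuousOn g₁ (SS n) := by
    rw [continuousOn_iff_continuous_domRestrict]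
    have h1 : (SS n).domRestrict g₁ = s₁ := by
      funext v
      show (if hv : (v : V n) ∈ SS n then s₁ ⟨v, hv⟩ else ⟨x, hxm⟩) = s₁ v
      rw [dif_pos v.2]
    rw [h1]
    exact s₁.continuous
  have hg₂c : ContinuousOn g₂ (-(SS n)) := by
    rw [continuousOn_iff_continuous_domRestrict]
    have h1 : (-(SS n)).domRestrict g₂ = fun v : (-(SS n) : Set (V n)) => s₂ ⟨-v, v.2⟩ := by
      funext v
      have h2 : -(v : V n) ∈ SS n := v.2
      show (if hv : -(v : V n) ∈ SS n then s₂ ⟨-v, hv⟩ else ⟨x, hxm⟩) = s₂ ⟨-v, v.2⟩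
      rw [dif_pos h2]
    rw [h1]
    have h2 : Continuous fun v : (-(SS n) : Set (V n)) => (⟨-v, v.2⟩ : SS n) :=
      Continuous.subtype_mk (continuous_subtype_val.neg) _
    exact s₂.continuous.comp h2
  have hg₁p : ∀ v ∈ SS n, F (g₁ v) = v := by
    intro v hv
    have h1 := congrArg Subtype.val (congrFun hs₁p ⟨v, hv⟩)
    show F ((if hv : v ∈ SS n then s₁ ⟨v, hv⟩ else ⟨x, hxm⟩ : F ⁻¹' X) : V n) = v
    rw [dif_pos hv]
    exact h1
  have hg₂p : ∀ v, -v ∈ SS n → F (g₂ v) = v := by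
    intro v hv
    have h1 : F (s₂ ⟨-v, hv⟩) = - -v := congrArg Subtype.val (congrFun hs₂p ⟨-v, hv⟩)
    show F ((if hv : -v ∈ SS n then s₂ ⟨-v, hv⟩ else ⟨x, hxm⟩ : F ⁻¹' X) : V n) = v
    rw [dif_pos hv, h1, neg_neg]
  have hg₁y : g₁ y = ⟨x, hxm⟩ := by
    show (if hv : y ∈ SS n then s₁ ⟨y, hv⟩ else ⟨x, hxm⟩ : F ⁻¹' X) = _
    rw [dif_pos hyS.1]
    exact hs₁
  have hg₂y : g₂ y = ⟨x, hxm⟩ := by
    show (if hv : -y ∈ SS n then s₂ ⟨-y, hv⟩ else ⟨x, hxm⟩ : F ⁻¹' X) = _
    rw [dif_pos hyS.2]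
    exact hs₂
  -- they agree
  have hagree : EqOn g₁ g₂ ((Submodule.span ℝ {e0 n} : Submodule ℝ (V n)) : Set (V n))ᶜ := by
    refine hcov.eqOn_of_comp_eqOn (conn_line_compl hn).isPreconnected
      (hg₁c.mono fun v hv => (mem_SS_of_not hv).1)
      (hg₂c.mono fun v hv => (mem_SS_of_not hv).2) ?_ hy (hg₁y.trans hg₂y.symm)
    intro v hv
    apply Subtype.ext
    show F (g₁ v) = F (g₂ v)
    rw [hg₁p v (mem_SS_of_not hv).1, hg₂p v (mem_SS_of_not hv).2]
  set s : V n → F ⁻¹' X := fun v => if v ∈ SS n then g₁ v else g₂ v with hs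
  have hs1 : ∀ v ∈ SS n, s v = g₁ v := fun v hv => if_pos hv
  have hs2 : ∀ v, -v ∈ SS n → s v = g₂ v := by
    intro v hv
    by_cases h : v ∈ SS n
    · rw [hs1 v h]
      exact hagree (mem_SS_inter ⟨h, hv⟩)
    · exact if_neg h
  have hnegopen : IsOpen (-(SS n) : Set (V n)) := SS_open.preimage continuous_neg
  have hsc : ContinuousOn s X := by
    intro v hv
    apply ContinuousAt.continuousWithinAt
    rcases SS_cov hv with h | h
    · refine (hg₁c.continuousAt (SS_open.mem_nhds h)).congr ?_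
      filter_upwards [SS_open.mem_nhds h] with w hw
      exact (hs1 w hw).symm
    · have h' : v ∈ (-(SS n) : Set (V n)) := h
      refine (hg₂c.continuousAt (hnegopen.mem_nhds h')).congr ?_
      filter_upwards [hnegopen.mem_nhds h'] with w hw
      exact (hs2 w hw).symm
  have hsp : ∀ v ∈ X, F (s v) = v := by
    intro v hv
    rcases SS_cov hv with h | h
    · rw [hs1 v h, hg₁p v h]
    · rw [hs2 v h, hg₂p v h]
  -- the section is a left inverse
  have : PreconnectedSpace (F ⁻¹' X) := by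
    rw [hpre]
    exact isPreconnected_iff_preconnectedSpace.1 (conn_compl_zero n).isPreconnected
  have hleft : (fun e : F ⁻¹' X => s (F e)) = fun e => e := by
    refine hcov.eq_of_comp_eq ?_ continuous_id ?_ ⟨x, hxm⟩ ?_
    · exact hsc.comp_continuous (hF.cont.comp continuous_subtype_val) fun e => e.2
    · funext e
      apply Subtype.ext
      show F (s (F e)) = F e
      exact hsp _ e.2
    · show s (F x) = ⟨x, hxm⟩
      rw [hx, hs1 y hyS.1, hg₁y]
  intro a b hab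
  by_cases ha : a = 0
  · by_contra hne
    have hb : b ≠ 0 := fun h => hne (by rw [ha, h])
    rw [ha, hF.zero] at hab
    exact hN.ne hF hb hab.symm
  by_cases hb : b = 0
  · exfalso
    rw [hb, hF.zero] at hab
    exact hN.ne hF ha hab
  have h1 := congrFun hleft ⟨a, hN.ne hF ha⟩
  have h2 := congrFun hleft ⟨b, hN.ne hF hb⟩
  have h3 : s (F a) = ⟨a, hN.ne hF ha⟩ := h1
  have h4 : s (F b) = ⟨b, hN.ne hF hb⟩ := h2
  rw [hab, h4] at h3
  exact (congrArg Subtype.val h3).symm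

end Pool.Agent.H13.Pol
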