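import Pool.Agent.H13.Pol.Kernel

/-!
# Convergence of the derivatives
-/

set_option autoImplicit false

open Set Filter Topology Metric Function MeasureTheory
open scoped ContDiff

noncomputable section

namespace Pool.Agent.H13.Pol

open Pool.Agent.Q196.NP (V)
open Pool.Agent.H13.Gap (hom_continuous hasF)

variable {n : ℕ}

lemma Hm.homR {F : V n → V n} (hF : Hm F) : ∀ r : ℝ, 0 ≤ r → ∀ v, F (r • v) = r • F v := by
  intro r _ v
  have hr : ∀ (r : ℝ) (v : V n), r • v = ((r : ℂ)) • v := fun r v => (Complex.coe_smul r v).symm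
  rw [hr, hr, hF.hom]

lemma Hm.cont {F : V n → V n} (hF : Hm F) : Continuous F :=
  hom_continuous hF.smooth.continuousOn hF.homR

lemma Hm.zero {F : V n → V n} (hF : Hm F) : F 0 = 0 := by
  have := hF.hom 0 0
  rwa [zero_smul, zero_smul] at this

/-- the derivative is equivariant -/
lemma Hm.fderiv_smul {F : V n → V n} (hF : Hm F) {c : ℂ} (hc : c ≠ 0) {v : V n} (hv : v ≠ 0)
    (h : V n) : fderiv ℝ F (c • v) (c • h) = c • fderiv ℝ F v h := by
  have hcv : c • v ≠ 0 := smul_ne_zero hc hv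
  have h1 : HasFDerivAt F (fderiv ℝ F (c • v)) (c • v) := hasF hF.smooth hcv
  let m : V n →L[ℝ] V n := (c • ContinuousLinearMap.id ℂ (V n)).restrictScalars ℝ
  have hm : ∀ x, m x = c • x := fun x => rfl
  have h2 : HasFDerivAt (fun x => F (m x)) ((fderiv ℝ F (c • v)).comp m) v := by
    have h3 : HasFDerivAt F (fderiv ℝ F (c • v)) (m v) := h1
    exact h3.comp v m.hasFDerivAt
  have h4 : HasFDerivAt (fun x => F (m x)) (m.comp (fderiv ℝ F v)) v := by
    have h5 : HasFDerivAt (fun x => m (F x)) (m.comp (fderiv ℝ F v)) v :=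
      m.hasFDerivAt.comp v (hasF hF.smooth hv)
    refine h5.congr_of_eventuallyEq (Eventually.of_forall fun x => ?_)
    exact hF.hom c x
  have h6 := DFunLike.congr_fun (h2.unique h4) h
  exact h6

lemma Hm.fderiv_bound {F : V n → V n} (hF : Hm F) : ∃ M : ℝ, 0 ≤ M ∧ ∀ v h, v ≠ 0 →
    ‖fderiv ℝ F v h‖ ≤ M * ‖h‖ := by
  have hc : ContinuousOn (fderiv ℝ F) {0}ᶜ :=
    hF.smooth.continuousOn_fderiv_of_isOpen isOpen_compl_singleton (by simp)
  obtain ⟨M, hM⟩ := (isCompact_sphere (0 : V n) 1).exists_bound_of_continuousOn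
    (hc.mono fun v hv h0 => by
      rw [mem_singleton_iff.1 h0, mem_sphere, dist_self] at hv
      exact zero_ne_one hv)
  refine ⟨max M 0, le_max_right _ _, fun v h hv => ?_⟩
  have hvp : 0 < ‖v‖ := norm_pos_iff.2 hv
  set c : ℂ := ((‖v‖⁻¹ : ℝ) : ℂ) with hcdef
  have hc0 : c ≠ 0 := by
    rw [hcdef]
    exact_mod_cast inv_ne_zero hvp.ne'
  have hcn : ‖c‖ = ‖v‖⁻¹ := by
    rw [hcdef, Complex.norm_real, Real.norm_of_nonneg (inv_pos.2 hvp).le]
  have h1 := hF.fderiv_smul hc0 hv h
  have h2 : ‖c‖ * ‖fderiv ℝ F v h‖ = ‖fderiv ℝ F (c • v) (c • h)‖ := by rw [h1, norm_smul]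
  have h3 : ‖fderiv ℝ F (c • v)‖ ≤ M := by
    apply hM
    rw [mem_sphere_zero_iff_norm, norm_smul, hcn, inv_mul_cancel₀ hvp.ne']
  have h4 : ‖fderiv ℝ F (c • v) (c • h)‖ ≤ max M 0 * (‖c‖ * ‖h‖) := by
    refine ((fderiv ℝ F (c • v)).le_opNorm _).trans ?_
    rw [norm_smul]
    exact mul_le_mul_of_nonneg_right (h3.trans (le_max_left _ _)) (by positivity)
  rw [← h2] at h4
  have hcp : 0 < ‖c‖ := norm_pos_iff.2 hc0
  have h5 : ‖c‖ * ‖fderiv ℝ F v h‖ ≤ ‖c‖ * (max M 0 * ‖h‖) := by linarith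
  exact le_of_mul_le_mul_left h5 hcp

/-- the linear operators -/
abbrev Op (n : ℕ) : Type := V n →L[ℂ] V n

/-- the derivative along a linear vector field -/
def GX (F : V n → V n) (X : Op n) (w : V n) : V n := fderiv ℝ F w (X w)

lemma GX_hom {F : V n → V n} (hF : Hm F) (X : Op n) (c : ℂ) (w : V n) :
    GX F X (c • w) = c • GX F X w := by
  unfold GX
  by_cases hc : c = 0
  · rw [hc, zero_smul, map_zero, map_zero, zero_smul]
  by_cases hw : w = 0
  · rw [hw, smul_zero, map_zero, map_zero, smul_zero]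
  rw [map_smul, hF.fderiv_smul hc hw]

lemma GX_cont {F : V n → V n} (hF : Hm F) (X : Op n) : Continuous (GX F X) := by
  refine hom_continuous ?_ ?_
  · have hc : ContinuousOn (fderiv ℝ F) {0}ᶜ :=
      hF.smooth.continuousOn_fderiv_of_isOpen isOpen_compl_singleton (by simp)
    exact hc.clm_apply X.continuous.continuousOn
  · intro r _ v
    have hr : ∀ (r : ℝ) (v : V n), r • v = ((r : ℂ)) • v := fun r v => (Complex.coe_smul r v).symm
    rw [hr, hr, GX_hom hF]

/-- the one parameter group -/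
def Ex (X : Op n) (t : ℝ) : Op n := NormedSpace.exp (t • X)

lemma Ex_zero (X : Op n) : Ex X 0 = 1 := by
  unfold Ex
  have h : (0 : ℝ) • X = 0 := zero_smul ℝ X
  rw [h, NormedSpace.exp_zero]

lemma Ex_deriv (X : Op n) (t : ℝ) (w : V n) : HasDerivAt (fun t => Ex X t w) (Ex X t (X w)) t := by
  have h1 : HasDerivAt (fun t : ℝ => Ex X t) (Ex X t * X) t := hasDerivAt_exp_smul_const X t
  exact ((ContinuousLinearMap.apply ℂ (V n) w).restrictScalars ℝ).hasFDerivAt.comp_hasDerivAt t h1

lemma Ex_unitary {X : Op n} (hX : X ∈ skewAdjoint.submodule ℝ (Op n)) (t : ℝ) :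
    Ex X t ∈ unitary (Op n) := by
  let _ : NormedAlgebra ℚ (Op n) := NormedAlgebra.restrictScalars ℚ ℂ (Op n)
  exact NormedSpace.exp_mem_unitary_of_mem_skewAdjoint
    ((skewAdjoint.submodule ℝ (Op n)).smul_mem t hX)

/-- the one parameter group of unitary maps -/
def Ux {X : Op n} (hX : X ∈ skewAdjoint.submodule ℝ (Op n)) (t : ℝ) : V n ≃ₗᵢ[ℂ] V n :=
  Unitary.linearIsometryEquiv ⟨Ex X t, Ex_unitary hX t⟩

lemma Ux_apply {X : Op n} (hX : X ∈ skewAdjoint.submodule ℝ (Op n)) (t : ℝ) (w : V n) :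
    Ux hX t w = Ex X t w := rfl

lemma ker_norm (p : ℕ) {w v : V n} (hw : ‖w‖ ≤ 1) : ‖ker p w v‖ ≤ ‖v‖ ^ (2 * p + 1) := by
  have h1 : ‖(inner ℂ w v : ℂ)‖ ≤ ‖v‖ :=
    (norm_inner_le_norm _ _).trans (mul_le_of_le_one_left (norm_nonneg _) hw)
  rw [ker_split, norm_mul, Complex.norm_real, Real.norm_of_nonneg (pow_nonneg (norm_nonneg _) _),
    ← pow_succ]
  exact pow_le_pow_left₀ (norm_nonneg _) h1 _

lemma ker_cont (p : ℕ) (v : V n) : Continuous fun w : V n => ker p w v := by
  unfold ker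
  have a1 : Continuous fun w : V n => (inner ℂ w v : ℂ) := continuous_id.inner continuous_const
  have a2 : Continuous fun w : V n => (inner ℂ v w : ℂ) := continuous_const.inner continuous_id
  exact (a1.pow _).mul (a2.pow _)

/-- **the derivative of the integral operator along a unitary direction** -/
theorem deriv_TT (p : ℕ) {F : V n → V n} (hF : Hm F) {X : Op n}
    (hX : X ∈ skewAdjoint.submodule ℝ (Op n)) (v : V n) :
    fderiv ℝ (TT p F) v (X v) = TT p (GX F X) v := by
  have hTs : ContDiff ℝ ∞ (TT p F) := by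
    rw [TT_eq_pm p hF.cont]
    exact pm_smooth _
  have h1 : HasDerivAt (fun t => TT p F (Ex X t v)) (fderiv ℝ (TT p F) v (X v)) 0 := by
    have h2 : HasFDerivAt (TT p F) (fderiv ℝ (TT p F) v) (Ex X 0 v) := by
      rw [Ex_zero]
      exact (hTs.differentiable (by simp) v).hasFDerivAt
    have h3 := Ex_deriv X 0 v
    rw [Ex_zero] at h3
    exact h2.comp_hasDerivAt (0:ℝ) h3
  obtain ⟨M, hM0, hM⟩ := hF.fderiv_bound
  have hfin : volume (Bl n) ≠ ⊤ := (isCompact_closedBall (0 : V n) 1).measure_lt_top.ne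
  have hcE : ∀ t, Continuous fun w : V n => F (Ex X t w) := fun t =>
    hF.cont.comp (Ex X t).continuous
  have h4 := hasDerivAt_integral_of_dominated_loc_of_deriv_le (μ := volume.restrict (Bl n))
    (𝕜 := ℝ) (F := fun t w => ker p w v • F (Ex X t w))
    (F' := fun t w => ker p w v • fderiv ℝ F (Ex X t w) (Ex X t (X w)))
    (bound := fun _ => ‖v‖ ^ (2 * p + 1) * (M * ‖X‖)) (x₀ := 0) (s := univ) Filter.univ_mem
    (Eventually.of_forall fun t => ((ker_cont p v).smul (hcE t)).aestronglyMeasurable)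
    (ContinuousOn.integrableOn_compact (isCompact_closedBall _ _)
      ((ker_cont p v).smul (hcE 0)).continuousOn)
    (by
      have e : (fun w => ker p w v • fderiv ℝ F (Ex X 0 w) (Ex X 0 (X w))) =
          fun w => ker p w v • GX F X w := by
        funext w
        rw [Ex_zero]
        rfl
      rw [e]
      exact ((ker_cont p v).smul (GX_cont hF X)).aestronglyMeasurable)
    (by
      rw [ae_restrict_iff' measurableSet_closedBall]
      refine Eventually.of_forall fun w hw t _ => ?_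
      rw [mem_closedBall_zero_iff] at hw
      rw [norm_smul]
      refine mul_le_mul (ker_norm p hw) ?_ (norm_nonneg _) (by positivity)
      have hn : ∀ u : V n, ‖Ex X t u‖ = ‖u‖ := fun u => (Ux hX t).norm_map u
      by_cases hw0 : w = 0
      · rw [hw0, map_zero, map_zero, map_zero, map_zero, norm_zero]
        positivity
      · have hne : Ex X t w ≠ 0 := by
          rw [← norm_ne_zero_iff, hn]
          exact norm_ne_zero_iff.2 hw0
        refine (hM _ _ hne).trans (mul_le_mul_of_nonneg_left ?_ hM0)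
        rw [hn]
        exact (X.le_opNorm w).trans (mul_le_of_le_one_right (norm_nonneg _) hw))
    (integrableOn_const hfin)
    (by
      refine Eventually.of_forall fun w t _ => ?_
      by_cases hw0 : w = 0
      · have e1 : (fun t => ker p w v • F (Ex X t w)) = fun _ => ker p w v • F 0 := by
          funext t
          rw [hw0, map_zero]
        rw [e1, hw0, map_zero, map_zero, map_zero, map_zero, smul_zero]
        exact hasDerivAt_const _ _
      · have hne : Ex X t w ≠ 0 := by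
          have hn : ‖Ex X t w‖ = ‖w‖ := (Ux hX t).norm_map w
          rw [← norm_ne_zero_iff, hn]
          exact norm_ne_zero_iff.2 hw0
        have h3 : HasDerivAt (fun t => F (Ex X t w)) (fderiv ℝ F (Ex X t w) (Ex X t (X w))) t :=
          (hasF hF.smooth hne).comp_hasDerivAt t (Ex_deriv X t w)
        exact h3.const_smul (ker p w v))
  have h5 := h4.2
  have e2 : (fun t => ∫ w in Bl n, ker p w v • F (Ex X t w)) = fun t => TT p F (Ex X t v) := by
    funext t
    exact TT_unitary p F (Ux hX t) v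
  rw [e2] at h5
  have h6 := h1.unique h5
  rw [h6]
  unfold TT
  congr 1
  funext w
  rw [Ex_zero]
  rfl

end Pool.Agent.H13.Pol
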