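import Pool.Agent.H13.Pol.Seg

/-!
# Polynomial maps with Gaussian rational coefficients
-/

set_option autoImplicit false

open Set Filter Topology Metric Function MeasureTheory
open scoped ContDiff

noncomputable section

namespace Pool.Agent.H13.Pol

open Pool.Agent.Q196.NP (V)
open Pool.Agent.H13.Gap (hom_continuous hasF euler)

variable {n : ℕ}

/-- Gaussian rational numbers -/
def Gr (z : ℂ) : Prop := ∃ a b : ℚ, z = (a : ℂ) + (b : ℂ) * Complex.I

/-- Gaussian rational coefficients -/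
def GRat {D : ℕ} (c : Coef n D) : Prop := ∀ s t i, Gr (c s t i)

lemma Gr_zero : Gr 0 := ⟨0, 0, by simp⟩

lemma Gr_one : Gr 1 := ⟨1, 0, by simp⟩

lemma mon_cons {D : ℕ} (i j : Fin (n + 1)) (s : Fin (D + 1) → Fin (n + 1))
    (t : Fin D → Fin (n + 1)) (v : V n) :
    mon (Fin.cons i s : Fin (D + 1 + 1) → Fin (n + 1)) (Fin.cons j t : Fin (D + 1) → Fin (n + 1)) v =
      (v i * star (v j)) * mon s t v := by
  unfold mon
  have e1 : ∏ k, v ((Fin.cons i s : Fin (D + 1 + 1) → Fin (n + 1)) k) = v i * ∏ k, v (s k) := by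
    rw [Fin.prod_univ_succ]
    simp only [Fin.cons_zero, Fin.cons_succ]
  have e2 : ∏ k, star (v ((Fin.cons j t : Fin (D + 1) → Fin (n + 1)) k)) =
      star (v j) * ∏ k, star (v (t k)) := by
    rw [Fin.prod_univ_succ]
    simp only [Fin.cons_zero, Fin.cons_succ]
  rw [e1, e2]
  ring

lemma sum_mul_star (v : V n) : ∑ i, v i * star (v i) = ((‖v‖ ^ 2 : ℝ) : ℂ) := by
  rw [← Pool.Agent.Q196.NP.sum_normSq]
  exact Finset.sum_congr rfl fun i _ => mul_comm _ _

lemma up_step {D : ℕ} (c : Coef n D) (hc : GRat c) : ∃ c' : Coef n (D + 1), GRat c' ∧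
    ∀ v, pm c' v = (‖v‖ ^ 2) • pm c v := by
  refine ⟨fun s' t' => if s' 0 = t' 0 then c (fun k => s' k.succ) (fun k => t' k.succ) else 0,
    ?_, fun v => ?_⟩
  · intro s t i
    show Gr ((if s 0 = t 0 then c (fun k => s k.succ) (fun k => t k.succ) else 0 : V n) i)
    split_ifs
    · exact hc _ _ _
    · exact Gr_zero
  · have e1 : ∀ F : (Fin (D + 1 + 1) → Fin (n + 1)) → V n, ∑ s', F s' =
        ∑ i, ∑ s : Fin (D + 1) → Fin (n + 1), F (Fin.cons i s) := by
      intro F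
      rw [← (Fin.consEquiv fun _ : Fin (D + 1 + 1) => Fin (n + 1)).sum_comp, Fintype.sum_prod_type]
      rfl
    have e2 : ∀ F : (Fin (D + 1) → Fin (n + 1)) → V n, ∑ s', F s' =
        ∑ i, ∑ s : Fin D → Fin (n + 1), F (Fin.cons i s) := by
      intro F
      rw [← (Fin.consEquiv fun _ : Fin (D + 1) => Fin (n + 1)).sum_comp, Fintype.sum_prod_type]
      rfl
    have e3 : ∀ (i : Fin (n + 1)) (s : Fin (D + 1) → Fin (n + 1)),
        ∑ t' : Fin (D + 1) → Fin (n + 1), mon (Fin.cons i s : Fin (D + 1 + 1) → Fin (n + 1)) t' v •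
          (if (Fin.cons i s : Fin (D + 1 + 1) → Fin (n + 1)) 0 = t' 0 then
            c (fun k => (Fin.cons i s : Fin (D + 1 + 1) → Fin (n + 1)) k.succ)
              (fun k => t' k.succ) else 0) = ∑ t : Fin D → Fin (n + 1),
            ((v i * star (v i)) * mon s t v) • c s t := by
      intro i s
      rw [e2, Finset.sum_comm]
      refine Finset.sum_congr rfl fun t _ => ?_
      rw [Finset.sum_eq_single i]
      · rw [mon_cons]
        simp only [Fin.cons_zero, Fin.cons_succ, if_true]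
      · intro j _ hj
        simp only [Fin.cons_zero]
        rw [if_neg (Ne.symm hj), smul_zero]
      · intro h
        exact absurd (Finset.mem_univ i) h
    have e4 : pm (fun s' t' => if s' 0 = t' 0 then c (fun k => s' k.succ) (fun k => t' k.succ) else 0 :
        Coef n (D + 1)) v = ∑ i, ∑ s, ∑ t, ((v i * star (v i)) * mon s t v) • c s t := by
      unfold pm
      rw [e1]
      exact Finset.sum_congr rfl fun i _ => Finset.sum_congr rfl fun s _ => e3 i s
    rw [e4]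
    unfold pm
    rw [Finset.sum_comm, Finset.smul_sum]
    refine Finset.sum_congr rfl fun s _ => ?_
    rw [Finset.sum_comm, Finset.smul_sum]
    refine Finset.sum_congr rfl fun t _ => ?_
    rw [← Finset.sum_smul, ← Finset.sum_mul, sum_mul_star, mul_smul]
    exact Complex.coe_smul _ _

lemma up_many {D : ℕ} (c : Coef n D) (hc : GRat c) (E : ℕ) : ∃ c' : Coef n (D + E), GRat c' ∧
    ∀ v, pm c' v = (‖v‖ ^ (2 * E)) • pm c v := by
  induction E with
  | zero => exact ⟨c, hc, fun v => by simp⟩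
  | succ E ih =>
    obtain ⟨c', hc', h⟩ := ih
    obtain ⟨c'', hc'', h'⟩ := up_step c' hc'
    refine ⟨c'', hc'', fun v => ?_⟩
    rw [h', h, smul_smul, ← pow_add]
    congr 2
    ring

lemma base_id (n : ℕ) : ∃ c : Coef n 0, GRat c ∧ ∀ v, pm c v = v := by
  refine ⟨fun s _ => EuclideanSpace.single (s 0) 1, ?_, fun v => ?_⟩
  · intro s t i
    show Gr ((EuclideanSpace.single (s 0) (1:ℂ) : V n) i)
    rw [PiLp.single_apply]
    split_ifs
    · exact Gr_one
    · exact Gr_zero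
  · unfold pm mon
    have e1 : ∀ F : (Fin (0 + 1) → Fin (n + 1)) → V n, ∑ s', F s' = ∑ i, F (fun _ => i) := by
      intro F
      exact ((Equiv.funUnique (Fin 1) (Fin (n + 1))).symm.sum_comp F).symm
    rw [e1]
    simp only [Finset.univ_unique, Fin.prod_univ_zero, mul_one, Finset.sum_const, Finset.card_singleton,
      one_smul]
    ext j
    simp [Finset.sum_apply, Pi.single_apply]

/-- the normalized monomials -/
def nm1 {D : ℕ} (s : Fin (D + 1) → Fin (n + 1)) (t : Fin D → Fin (n + 1)) (v : V n) : ℂ :=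
  (‖v‖ ^ (2 * D))⁻¹ • mon s t v

lemma nm1_smooth {D : ℕ} (s : Fin (D + 1) → Fin (n + 1)) (t : Fin D → Fin (n + 1)) :
    ContDiffOn ℝ ∞ (nm1 s t : V n → ℂ) {0}ᶜ := by
  have h1 : ContDiffOn ℝ ∞ (fun v : V n => (‖v‖ ^ (2 * D))⁻¹) {0}ᶜ :=
    (normpow_smooth (2 * D)).inv fun v hv => pow_ne_zero _ (norm_ne_zero_iff.2 hv)
  exact h1.smul (mon_smooth s t).contDiffOn

lemma nrm_pm_eq {D : ℕ} (c : Coef n D) (v : V n) :
    nrm D (pm c) v = ∑ s, ∑ t, nm1 s t v • c s t := by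
  unfold nrm pm nm1
  rw [Finset.smul_sum]
  refine Finset.sum_congr rfl fun s _ => ?_
  rw [Finset.smul_sum]
  refine Finset.sum_congr rfl fun t _ => ?_
  rw [smul_assoc]

lemma fderiv_nrm_pm {D : ℕ} (c : Coef n D) {v : V n} (hv : v ≠ 0) (h : V n) :
    fderiv ℝ (nrm D (pm c)) v h = ∑ s, ∑ t, (fderiv ℝ (nm1 s t) v h) • c s t := by
  have h1 : ∀ (s : Fin (D + 1) → Fin (n + 1)) (t : Fin D → Fin (n + 1)),
      HasFDerivAt (fun v => nm1 s t v • c s t) ((fderiv ℝ (nm1 s t) v).smulRight (c s t)) v := by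
    intro s t
    have h2 : HasFDerivAt (nm1 s t) (fderiv ℝ (nm1 s t) v) v :=
      (((nm1_smooth s t).contDiffAt (isOpen_compl_singleton.mem_nhds hv)).differentiableAt
        (by simp)).hasFDerivAt
    exact h2.smul_const (c s t)
  have h3 : HasFDerivAt (nrm D (pm c)) (∑ s, ∑ t, (fderiv ℝ (nm1 s t) v).smulRight (c s t)) v := by
    have h4 : HasFDerivAt (fun v => ∑ s, ∑ t, nm1 s t v • c s t)
        (∑ s, ∑ t, (fderiv ℝ (nm1 s t) v).smulRight (c s t)) v :=
      HasFDerivAt.fun_sum fun s _ => HasFDerivAt.fun_sum fun t _ => h1 s t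
    exact h4.congr_of_eventuallyEq (Eventually.of_forall fun x => nrm_pm_eq c x)
  rw [h3.fderiv, _root_.sum_apply]
  refine Finset.sum_congr rfl fun s _ => ?_
  rw [_root_.sum_apply]
  rfl

lemma exists_gr (z : ℂ) {ε : ℝ} (hε : 0 < ε) : ∃ w : ℂ, Gr w ∧ ‖w - z‖ ≤ ε := by
  obtain ⟨a, ha⟩ := Rat.denseRange_cast.exists_dist_lt z.re (half_pos hε)
  obtain ⟨b, hb⟩ := Rat.denseRange_cast.exists_dist_lt z.im (half_pos hε)
  refine ⟨(a : ℂ) + (b : ℂ) * Complex.I, ⟨a, b, rfl⟩, ?_⟩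
  rw [dist_comm, Real.dist_eq] at ha hb
  have h1 := Complex.norm_le_abs_re_add_abs_im ((a : ℂ) + (b : ℂ) * Complex.I - z)
  have h2 : ((a : ℂ) + (b : ℂ) * Complex.I - z).re = (a : ℝ) - z.re := by simp
  have h3 : ((a : ℂ) + (b : ℂ) * Complex.I - z).im = (b : ℝ) - z.im := by simp
  rw [h2, h3] at h1
  linarith

lemma norm_le_sum (v : V n) : ‖v‖ ≤ ∑ i, ‖v i‖ := by
  have h1 : v = ∑ i, (v i) • (EuclideanSpace.single i 1 : V n) := by
    ext j
    simp [Finset.sum_apply, Pi.single_apply]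
  have h2 : ‖∑ i, (v i) • (EuclideanSpace.single i 1 : V n)‖ ≤ ∑ i, ‖v i‖ := by
    refine (norm_sum_le _ _).trans (Finset.sum_le_sum fun i _ => ?_)
    rw [norm_smul]
    simp
  rwa [← h1] at h2

lemma exists_vec (v : V n) {ε : ℝ} (hε : 0 < ε) : ∃ w : V n, (∀ i, Gr (w i)) ∧ ‖w - v‖ ≤ ε := by
  choose w hw1 hw2 using fun i => exists_gr (v i) (ε := ε / (n + 1)) (by positivity)
  refine ⟨WithLp.toLp 2 w, hw1, (norm_le_sum _).trans ?_⟩
  calc ∑ i, ‖(WithLp.toLp 2 w - v : V n) i‖ ≤ ∑ _i : Fin (n + 1), ε / (n + 1) :=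
        Finset.sum_le_sum fun i _ => hw2 i
    _ = ε := by
        rw [Finset.sum_const, Finset.card_univ, Fintype.card_fin, nsmul_eq_mul]
        push_cast
        field_simp

/-- approximation by Gaussian rational coefficients -/
theorem approx_rat {D : ℕ} (c : Coef n D) {ε : ℝ} (hε : 0 < ε) : ∃ c' : Coef n D, GRat c' ∧
    ∀ v, ‖v‖ = 1 → ∀ h, ‖fderiv ℝ (nrm D (pm c')) v h - fderiv ℝ (nrm D (pm c)) v h‖ ≤ ε * ‖h‖ := by
  have hK : ∀ (s : Fin (D + 1) → Fin (n + 1)) (t : Fin D → Fin (n + 1)), ∃ K : ℝ, ∀ v, ‖v‖ = 1 →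
      ‖fderiv ℝ (nm1 s t : V n → ℂ) v‖ ≤ K := by
    intro s t
    have hc : ContinuousOn (fderiv ℝ (nm1 s t : V n → ℂ)) {0}ᶜ :=
      (nm1_smooth s t).continuousOn_fderiv_of_isOpen isOpen_compl_singleton (by simp)
    obtain ⟨K, hK⟩ := (isCompact_sphere (0 : V n) 1).exists_bound_of_continuousOn
      (hc.mono fun v hv h0 => by
        rw [mem_singleton_iff.1 h0, mem_sphere, dist_self] at hv
        exact zero_ne_one hv)
    exact ⟨K, fun v hv => hK v (by rwa [mem_sphere_zero_iff_norm])⟩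
  choose K hK using hK
  set K0 : ℝ := ∑ s, ∑ t, |K s t| with hK0
  have hK00 : 0 ≤ K0 := Finset.sum_nonneg fun s _ => Finset.sum_nonneg fun t _ => abs_nonneg _
  choose c' hc1 hc2 using fun s t => exists_vec (c s t) (ε := ε / (K0 + 1)) (by positivity)
  refine ⟨c', hc1, fun v hv h => ?_⟩
  rw [fderiv_nrm_pm c' (unit_ne hv), fderiv_nrm_pm c (unit_ne hv), ← Finset.sum_sub_distrib]
  have h1 : ∀ s, ‖∑ t, (fderiv ℝ (nm1 s t) v h) • c' s t - ∑ t, (fderiv ℝ (nm1 s t) v h) • c s t‖ ≤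
      ∑ t, |K s t| * (ε / (K0 + 1) * ‖h‖) := by
    intro s
    rw [← Finset.sum_sub_distrib]
    refine (norm_sum_le _ _).trans (Finset.sum_le_sum fun t _ => ?_)
    rw [← smul_sub, norm_smul]
    have h2 : ‖fderiv ℝ (nm1 s t) v h‖ ≤ |K s t| * ‖h‖ :=
      ((fderiv ℝ (nm1 s t) v).le_opNorm h).trans
        (mul_le_mul_of_nonneg_right ((hK s t v hv).trans (le_abs_self _)) (norm_nonneg _))
    calc ‖fderiv ℝ (nm1 s t) v h‖ * ‖c' s t - c s t‖ ≤ (|K s t| * ‖h‖) * (ε / (K0 + 1)) :=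
          mul_le_mul h2 (hc2 s t) (norm_nonneg _) (by positivity)
      _ = _ := by ring
  refine (norm_sum_le _ _).trans ((Finset.sum_le_sum fun s _ => h1 s).trans ?_)
  have h3 : ∑ s, ∑ t, |K s t| * (ε / (K0 + 1) * ‖h‖) = K0 * (ε / (K0 + 1) * ‖h‖) := by
    rw [hK0, Finset.sum_mul]
    exact Finset.sum_congr rfl fun s _ => (Finset.sum_mul _ _ _).symm
  rw [h3]
  calc K0 * (ε / (K0 + 1) * ‖h‖) ≤ (K0 + 1) * (ε / (K0 + 1) * ‖h‖) :=
        mul_le_mul_of_nonneg_right (by linarith) (by positivity)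
    _ = ε * ‖h‖ := by field_simp

lemma nrm_up {D E : ℕ} {c' : Coef n (D + E)} {c : Coef n D}
    (h : ∀ v, pm c' v = (‖v‖ ^ (2 * E)) • pm c v) {v : V n} (hv : v ≠ 0) :
    nrm (D + E) (pm c') v = nrm D (pm c) v := by
  unfold nrm
  rw [h, smul_smul]
  congr 1
  have : ‖v‖ ≠ 0 := norm_ne_zero_iff.2 hv
  rw [mul_add, pow_add]
  field_simp

lemma fderiv_congr_ne {F G : V n → V n} (h : ∀ v, v ≠ 0 → F v = G v) {v : V n} (hv : v ≠ 0) :
    fderiv ℝ F v = fderiv ℝ G v := by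
  refine Filter.EventuallyEq.fderiv_eq ?_
  filter_upwards [isOpen_compl_singleton.mem_nhds hv] with x hx
  exact h x hx

/-- **a polygon between polynomial maps can be replaced by one with Gaussian rational vertices** -/
theorem rat_polygon {D : ℕ} {c₀ c₁ : Coef n D} (h₀ : GRat c₀) (h₁ : GRat c₁)
    (h : Relation.ReflTransGen Sg (nrm D (pm c₀)) (nrm D (pm c₁))) (hne : pm c₀ ≠ pm c₁) :
    ∃ (E m : ℕ) (p : ℕ → Coef n (D + E)), (∀ j, GRat (p j)) ∧
      (∀ v, pm (p 0) v = (‖v‖ ^ (2 * E)) • pm c₀ v) ∧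
      (∀ v, pm (p m) v = (‖v‖ ^ (2 * E)) • pm c₁ v) ∧
      ∀ j < m, Seg (nrm (D + E) (pm (p j))) (nrm (D + E) (pm (p (j + 1)))) := by
  obtain ⟨m, f, hf0, hfm, hf⟩ := exists_seq h
  have hm : m ≠ 0 := by
    rintro rfl
    apply hne
    rw [hf0] at hfm
    funext v
    by_cases hv : v = 0
    · have hz : ∀ c : Coef n D, pm c 0 = 0 := by
        intro c
        have := pm_hom c 0 0
        rwa [zero_smul, mul_zero, zero_smul] at this
      rw [hv, hz, hz]
    · have h2 := congrFun hfm v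
      unfold nrm at h2
      have h3 : (‖v‖ ^ (2 * D))⁻¹ ≠ 0 := inv_ne_zero (pow_ne_zero _ (norm_ne_zero_iff.2 hv))
      exact smul_right_injective _ h3 h2
  -- the lower bounds
  have hlow : ∀ j, ∃ μ : ℝ, 0 < μ ∧ (j < m → SegLow μ (f j) (f (j + 1))) := by
    intro j
    by_cases hj : j < m
    · obtain ⟨h1, h2, h3⟩ := hf j hj
      obtain ⟨μ, hμ, h4⟩ := low_of_seg h1 h2 h3
      exact ⟨μ, hμ, fun _ => h4⟩
    · exact ⟨1, one_pos, fun h => absurd h hj⟩
  choose μ hμ0 hμ using hlow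
  obtain ⟨δ, hδ0, hδ⟩ : ∃ δ : ℝ, 0 < δ ∧ ∀ j ≤ m, δ ≤ μ j := by
    obtain ⟨j₀, -, hj₀⟩ := Finset.exists_min_image (Finset.range (m + 1)) μ
      ⟨0, Finset.mem_range.2 (Nat.succ_pos m)⟩
    exact ⟨μ j₀, hμ0 j₀, fun j hj => hj₀ j (Finset.mem_range.2 (by omega))⟩
  have hHm : ∀ j ≤ m, Hm (f j) := by
    intro j hj
    by_cases hjm : j < m
    · exact (hf j hjm).1
    · have hjm' : j = m := by omega
      obtain ⟨k, rfl⟩ : ∃ k, m = k + 1 := ⟨m - 1, by omega⟩
      rw [hjm']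
      exact (hf k (by omega)).2.1
  have hP : ∀ j, ∃ p₀ : ℕ, j ≤ m → ∀ p, p₀ ≤ p → ∀ v, ‖v‖ = 1 → ∀ h,
      ‖fderiv ℝ (nrm p (pm ((mu n p)⁻¹ • ct p (f j)))) v h - fderiv ℝ (f j) v h‖ ≤
        δ / 4 * ‖h‖ := by
    intro j
    by_cases hj : j ≤ m
    · obtain ⟨p₀, h1⟩ := C1_close (hHm j hj) (ε := δ / 4) (by linarith)
      exact ⟨p₀, fun _ => h1⟩
    · exact ⟨0, fun h => absurd h hj⟩
  choose P hP using hP
  set E : ℕ := (Finset.range (m + 1)).sup P with hE
  have hPE : ∀ j ≤ m, P j ≤ D + E := fun j hj =>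
    (Finset.le_sup (f := P) (Finset.mem_range.2 (by omega))).trans (Nat.le_add_left _ _)
  -- the vertices
  obtain ⟨b₀, hb₀, hb₀'⟩ := up_many c₀ h₀ E
  obtain ⟨b₁, hb₁, hb₁'⟩ := up_many c₁ h₁ E
  choose q hq1 hq2 using fun j => approx_rat ((mu n (D + E))⁻¹ • ct (D + E) (f j)) (ε := δ / 4)
    (by linarith)
  set p : ℕ → Coef n (D + E) := fun j => if j = 0 then b₀ else if j = m then b₁ else q j with hp
  have hp0 : p 0 = b₀ := by rw [hp]; simp
  have hpm : p m = b₁ := by rw [hp]; simp [hm]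
  have hclose : ∀ j ≤ m, ∀ v, ‖v‖ = 1 → ∀ h,
      ‖fderiv ℝ (nrm (D + E) (pm (p j))) v h - fderiv ℝ (f j) v h‖ ≤ δ / 2 * ‖h‖ := by
    intro j hj v hv h
    by_cases hj0 : j = 0
    · rw [hj0, hp0, hf0, fderiv_congr_ne (fun x hx => nrm_up hb₀' hx) (unit_ne hv), sub_self,
        norm_zero]
      positivity
    by_cases hjm : j = m
    · rw [hjm, hpm, hfm, fderiv_congr_ne (fun x hx => nrm_up hb₁' hx) (unit_ne hv), sub_self,
        norm_zero]
      positivity
    · have hpj : p j = q j := by rw [hp]; simp [hj0, hjm]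
      rw [hpj]
      have e1 := hq2 j v hv h
      have e2 := hP j hj (D + E) (hPE j hj) v hv h
      have e3 : fderiv ℝ (nrm (D + E) (pm (q j))) v h - fderiv ℝ (f j) v h =
          (fderiv ℝ (nrm (D + E) (pm (q j))) v h -
            fderiv ℝ (nrm (D + E) (pm ((mu n (D + E))⁻¹ • ct (D + E) (f j)))) v h) +
          (fderiv ℝ (nrm (D + E) (pm ((mu n (D + E))⁻¹ • ct (D + E) (f j)))) v h -
            fderiv ℝ (f j) v h) := by abel
      rw [e3]
      refine (norm_add_le _ _).trans ?_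
      linarith
  refine ⟨E, m, p, ?_, ?_, ?_, ?_⟩
  · intro j
    rw [hp]
    dsimp only
    split_ifs
    · exact hb₀
    · exact hb₁
    · exact hq1 j
  · rw [hp0]; exact hb₀'
  · rw [hpm]; exact hb₁'
  · intro j hj
    have hδj : δ / 2 ≤ μ j / 2 := by
      have := hδ j hj.le
      linarith
    have hlow2 := low_stable (hμ j hj)
      (fun v hv h => (hclose j hj.le v hv h).trans (mul_le_mul_of_nonneg_right hδj (norm_nonneg _)))
      (fun v hv h => (hclose (j + 1) (by omega) v hv h).trans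
        (mul_le_mul_of_nonneg_right hδj (norm_nonneg _)))
    exact seg_of_low (nrm_pm_hm _) (nrm_pm_hm _) (half_pos (hμ0 j)) hlow2

end Pool.Agent.H13.Pol
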