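import Pool.Agent.H13.Pol.Bij
import Pool.Agent.H13.Pol.Rat

/-!
# The polynomial model of the isotopy classes
-/

set_option autoImplicit false

open Set Filter Topology Metric Function MeasureTheory
open scoped ContDiff

noncomputable section

namespace Pool.Agent.H13.Pol

open Pool.Agent.Q196.NP (V Mat CP line col line_mem line_smul col_line col_smooth exists_line
  line_smooth lift_der HD U1 Iso ext ext_line ext_smooth exists_inverse hom_of_HD proj_isotopy)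
open Pool.Agent.H13.Gap (hom_continuous hasF euler isotopy_of_iso HD_comp lift_bij)

variable {n : ℕ}

lemma nd_equiv {F : V n → V n} (hF : Hm F) (hN : Nd F) {v : V n} (hv : v ≠ 0) :
    ∃ A : V n ≃L[ℝ] V n, HasFDerivAt F (A : V n →L[ℝ] V n) v := by
  have hinj := hN v hv
  have hsurj : Surjective (fderiv ℝ F v) :=
    (LinearMap.injective_iff_surjective (f := (fderiv ℝ F v : V n →ₗ[ℝ] V n))).1 hinj
  refine ⟨ContinuousLinearEquiv.ofBijective (fderiv ℝ F v)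
    (LinearMap.ker_eq_bot.2 hinj) (LinearMap.range_eq_top.2 hsurj), ?_⟩
  have h3 : ((ContinuousLinearEquiv.ofBijective (fderiv ℝ F v) (LinearMap.ker_eq_bot.2 hinj)
    (LinearMap.range_eq_top.2 hsurj) : V n ≃L[ℝ] V n) : V n →L[ℝ] V n) = fderiv ℝ F v :=
    ContinuousLinearMap.ext fun x => rfl
  rw [h3]
  exact hasF hF.smooth hv

lemma hd_of_nd {F : V n → V n} (hF : Hm F) (hN : Nd F) : HD (U1 n) F := by
  refine ⟨hF.homR, ?_, fun v hv => nd_equiv hF hN hv⟩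
  rintro _ ⟨μ, hμ, rfl⟩ v
  exact hF.hom μ v

lemma Seg.left {F G : V n → V n} (h : Seg F G) : Nd F := by
  have h1 := h 0 ⟨le_rfl, zero_le_one⟩
  have e : sg F G 0 = F := by
    funext v
    show (1 - (0:ℝ)) • F v + (0:ℝ) • G v = F v
    rw [sub_zero, one_smul, zero_smul, add_zero]
  rwa [e] at h1

lemma Seg.right {F G : V n → V n} (h : Seg F G) : Nd G := by
  have h1 := h 1 ⟨zero_le_one, le_rfl⟩
  have e : sg F G 1 = G := by
    funext v
    show (1 - (1:ℝ)) • F v + (1:ℝ) • G v = G v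
    rw [sub_self, one_smul, zero_smul, zero_add]
  rwa [e] at h1

/-- a nondegenerate segment is an isotopy of homogeneous maps -/
lemma iso_of_sg {F G : V n → V n} (h : Sg F G) : Iso (U1 n) F G := by
  obtain ⟨hF, hG, hS⟩ := h
  refine Iso.straight hF.smooth hG.smooth (hd_of_nd hF hS.left) (hd_of_nd hG hS.right) ?_
  intro τ h0 h1 x hx
  exact nd_equiv (sg_hm hF hG τ) (hS τ ⟨h0, h1⟩) (unit_ne hx)

lemma iso_refl {F : V n → V n} (hF : Hm F) (hN : Nd F) : Iso (U1 n) F F := by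
  apply iso_of_sg
  refine ⟨hF, hF, fun τ _ => ?_⟩
  have e : sg F F τ = F := by
    funext v
    show (1 - τ) • F v + τ • F v = F v
    rw [← add_smul, sub_add_cancel, one_smul]
  rwa [e]

lemma seg_self {F : V n → V n} (hN : Nd F) : Seg F F := by
  intro τ _
  have e : sg F F τ = F := by
    funext v
    show (1 - τ) • F v + τ • F v = F v
    rw [← add_smul, sub_add_cancel, one_smul]
  rwa [e]

/-- composition from the right -/
lemma sg_comp {F G G' : V n → V n} (hF : Hm F) (hN : Nd F) (h : Sg G G') :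
    Sg (fun v => G (F v)) (fun v => G' (F v)) := by
  obtain ⟨hG, hG', hS⟩ := h
  have hne : ∀ v, v ≠ 0 → F v ≠ 0 := fun v hv => hN.ne hF hv
  have hc : ∀ {H : V n → V n}, Hm H → Hm (fun v => H (F v)) := by
    intro H hH
    exact ⟨hH.smooth.comp hF.smooth fun v hv => hne v hv, fun c v => by rw [hF.hom, hH.hom]⟩
  refine ⟨hc hG, hc hG', fun τ hτ v hv => ?_⟩
  have h1 : HasFDerivAt (sg G G' τ) (fderiv ℝ (sg G G' τ) (F v)) (F v) :=
    hasF (sg_hm hG hG' τ).smooth (hne v hv)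
  have h2 : HasFDerivAt F (fderiv ℝ F v) v := hasF hF.smooth hv
  have h3 : HasFDerivAt (sg (fun v => G (F v)) (fun v => G' (F v)) τ)
      ((fderiv ℝ (sg G G' τ) (F v)).comp (fderiv ℝ F v)) v := h1.comp v h2
  rw [h3.fderiv]
  exact (hS τ hτ (F v) (hne v hv)).comp (hN v hv)

lemma rtg_comp {F G G' : V n → V n} (hF : Hm F) (hN : Nd F) (h : Relation.ReflTransGen Sg G G') :
    Relation.ReflTransGen Sg (fun v => G (F v)) (fun v => G' (F v)) := by
  induction h with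
  | refl => exact Relation.ReflTransGen.refl
  | tail _ h2 ih => exact ih.tail (sg_comp hF hN h2)

/-- **the lifts of isotopic diffeomorphisms** are joined by a polygon -/
theorem rtg_of_isotopy {φ φ' ψ ψ' : Mat n → Mat n} (hφs : ContDiff ℝ ∞ φ)
    (hψs : ContDiff ℝ ∞ ψ)
    (hψ : ∀ P ∈ CP n, ψ P ∈ CP n ∧ ψ (φ P) = P ∧ φ (ψ P) = P)
    (hφ : ∀ P ∈ CP n, φ P ∈ CP n)
    (hψ's : ContDiff ℝ ∞ ψ') (hψ' : ∀ P ∈ CP n, ψ' (φ' P) = P)
    {F F' : V n → V n} (hF : Hm F) (hF' : Hm F') (hF0 : ∀ v, v ≠ 0 → F v ≠ 0)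
    (hF'0 : ∀ v, v ≠ 0 → F' v ≠ 0)
    (hlift : ∀ v, v ≠ 0 → φ (line v) = line (F v)) (hlift' : ∀ v, v ≠ 0 → φ' (line v) = line (F' v))
    {K : ℝ × Mat n → Mat n} (hK : ContDiff ℝ ∞ K)
    (hKm : ∀ t : ℝ, ∀ P ∈ CP n, K (t, P) ∈ CP n) (h0 : ∀ P ∈ CP n, K (0, P) = φ P)
    (h1 : ∀ P ∈ CP n, K (1, P) = φ' P)
    (hKi : ∀ t : ℝ, ∃ L : Mat n → Mat n, ContDiff ℝ ∞ L ∧
      ∀ P ∈ CP n, L P ∈ CP n ∧ L (K (t, P)) = P ∧ K (t, L P) = P) :
    Relation.ReflTransGen Sg F F' := by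
  have hNd : Nd F := nd_of_lift hψs (fun P hP => (hψ P hP).2.1) hF hF0 hlift
  obtain ⟨G, hG, hG0, hGl, hGr⟩ := iso_lift (n := n) (K := fun p => K (p.1, ψ p.2))
    (hK.comp (contDiff_fst.prodMk (hψs.comp contDiff_snd)))
    (fun t P hP => hKm t _ (hψ P hP).1)
    (fun P hP => by
      show K (0, ψ P) = P
      rw [h0 _ (hψ P hP).1, (hψ P hP).2.2])
    (fun t => by
      obtain ⟨L, hL, hLi⟩ := hKi t
      refine ⟨fun P => φ (L P), hφs.comp hL, fun P hP => ?_⟩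
      obtain ⟨k1, k2, k3⟩ := hLi P hP
      refine ⟨hφ _ k1, ?_, ?_⟩
      · show φ (L (K (t, ψ P))) = P
        rw [(hLi _ (hψ P hP).1).2.1, (hψ P hP).2.2]
      · show K (t, ψ (φ (L P))) = P
        rw [(hψ _ k1).2.1, k3])
  have hGl' : ∀ v, v ≠ 0 → K (1, ψ (line v)) = line (G v) := hGl
  have hr := rtg_comp hF hNd hGr
  have hGF : Hm (fun v => G (F v)) :=
    ⟨hG.smooth.comp hF.smooth fun v hv => hF0 v hv, fun c v => by rw [hF.hom, hG.hom]⟩
  have hj := lifts_join (φ := φ') hψ's hψ' hGF hF' (fun v hv => hG0 _ (hF0 v hv)) hF'0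
    (fun v hv => by
      have h2 := hGl' (F v) (hF0 v hv)
      rw [← hlift v hv, (hψ _ (line_mem hv)).2.1, h1 _ (line_mem hv)] at h2
      exact h2) hlift'
  exact hr.trans hj

/-- **rational approximation** of a nondegenerate map -/
theorem exists_rat {F : V n → V n} (hF : Hm F) (hN : Nd F) :
    ∃ (D : ℕ) (c : Coef n D), GRat c ∧ Sg F (nrm D (pm c)) := by
  obtain ⟨m, hm, hL⟩ := low_of_seg hF hF (seg_self hN)
  obtain ⟨p, hp⟩ := C1_close hF (ε := m / 4) (by linarith)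
  obtain ⟨c, hc, hcc⟩ := approx_rat ((mu n p)⁻¹ • ct p F) (ε := m / 4) (by linarith)
  have hP : Hm (nrm p (pm c)) := nrm_pm_hm c
  refine ⟨p, c, hc, hF, hP, ?_⟩
  refine seg_of_low hF hP (m := m / 2) (by linarith) (low_stable hL ?_ ?_)
  · intro v hv h
    rw [sub_self, norm_zero]
    positivity
  · intro v hv h
    have e1 := hp p le_rfl v hv h
    have e2 := hcc v hv h
    have e3 : fderiv ℝ (nrm p (pm c)) v h - fderiv ℝ F v h =
        (fderiv ℝ (nrm p (pm c)) v h - fderiv ℝ (nrm p (pm ((mu n p)⁻¹ • ct p F))) v h) +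
        (fderiv ℝ (nrm p (pm ((mu n p)⁻¹ • ct p F))) v h - fderiv ℝ F v h) := by abel
    rw [e3]
    refine (norm_add_le _ _).trans ?_
    have e4 : m / 2 * ‖h‖ = m / 4 * ‖h‖ + m / 4 * ‖h‖ := by ring
    rw [e4]
    exact add_le_add e2 e1

lemma nrm_pm_zero {D : ℕ} (c : Coef n D) : nrm D (pm c) 0 = 0 := (nrm_pm_hm c).zero

lemma nrm_raise {D E : ℕ} (h : D ≤ E) (c : Coef n D) (hc : GRat c) :
    ∃ c' : Coef n E, GRat c' ∧ nrm E (pm c') = nrm D (pm c) := by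
  obtain ⟨k, rfl⟩ := Nat.exists_eq_add_of_le h
  obtain ⟨c', hc', h'⟩ := up_many c hc k
  refine ⟨c', hc', ?_⟩
  funext v
  by_cases hv : v = 0
  · rw [hv, nrm_pm_zero, nrm_pm_zero]
  · exact nrm_up h' hv

lemma nrm_smul_coef {D : ℕ} (c c' : Coef n D) (τ : ℝ) :
    nrm D (pm ((1 - τ) • c + τ • c')) = sg (nrm D (pm c)) (nrm D (pm c')) τ := by
  funext v
  unfold nrm sg
  rw [pm_add, pm_smul, pm_smul, smul_add, smul_comm (1 - τ), smul_comm τ]

/-- **polygons with rational vertices** -/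
theorem link {D D' : ℕ} {c : Coef n D} {c' : Coef n D'} (hc : GRat c) (hc' : GRat c')
    (h : Relation.ReflTransGen Sg (nrm D (pm c)) (nrm D' (pm c'))) :
    ∃ (E m : ℕ) (p : ℕ → Coef n E), (∀ j, GRat (p j)) ∧ nrm E (pm (p 0)) = nrm D (pm c) ∧
      nrm E (pm (p m)) = nrm D' (pm c') ∧
      ∀ j < m, Seg (nrm E (pm (p j))) (nrm E (pm (p (j + 1)))) := by
  obtain ⟨c₀, h₀, e₀⟩ := nrm_raise (le_max_left D D') c hc
  obtain ⟨c₁, h₁, e₁⟩ := nrm_raise (le_max_right D D') c' hc'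
  by_cases hne : pm c₀ = pm c₁
  · refine ⟨max D D', 0, fun _ => c₀, fun _ => h₀, e₀, ?_, fun j hj => absurd hj (by omega)⟩
    show nrm (max D D') (pm c₀) = nrm D' (pm c')
    rw [hne, e₁]
  · rw [← e₀, ← e₁] at h
    obtain ⟨E, m, p, hp, hp0, hpm, hseg⟩ := rat_polygon h₀ h₁ h hne
    refine ⟨max D D' + E, m, p, hp, ?_, ?_, hseg⟩
    · rw [← e₀]
      funext v
      by_cases hv : v = 0
      · rw [hv, nrm_pm_zero, nrm_pm_zero]
      · exact nrm_up hp0 hv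
    · rw [← e₁]
      funext v
      by_cases hv : v = 0
      · rw [hv, nrm_pm_zero, nrm_pm_zero]
      · exact nrm_up hpm hv

/-- the converse: a polygon is an isotopy of homogeneous maps -/
theorem iso_of_polygon {E m : ℕ} {p : ℕ → Coef n E}
    (h : ∀ j < m, Seg (nrm E (pm (p j))) (nrm E (pm (p (j + 1))))) (h0 : Nd (nrm E (pm (p 0)))) :
    Iso (U1 n) (nrm E (pm (p 0))) (nrm E (pm (p m))) := by
  have key : ∀ j ≤ m, Iso (U1 n) (nrm E (pm (p 0))) (nrm E (pm (p j))) := by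
    intro j
    induction j with
    | zero => intro _; exact iso_refl (nrm_pm_hm _) h0
    | succ j ih =>
      intro hj
      exact (ih (by omega)).trans (iso_of_sg ⟨nrm_pm_hm _, nrm_pm_hm _, h j (by omega)⟩)
  exact key m le_rfl

/-- **the diffeomorphism of a nondegenerate map** -/
theorem diffeo_of_nd (hn : 1 ≤ n) {F : V n → V n} (hF : Hm F) (hN : Nd F) :
    ∃ φ ψ : Mat n → Mat n, ContDiff ℝ ∞ φ ∧ ContDiff ℝ ∞ ψ ∧ (∀ P ∈ CP n, φ P ∈ CP n) ∧
      (∀ P ∈ CP n, ψ P ∈ CP n ∧ ψ (φ P) = P ∧ φ (ψ P) = P) ∧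
      ∀ v, v ≠ 0 → φ (line v) = line (F v) := by
  have hne : ∀ v, v ≠ 0 → F v ≠ 0 := fun v hv => hN.ne hF hv
  obtain ⟨g, hgF, hFg, hgs, hgH⟩ := exists_inverse (hd_of_nd hF hN) hF.smooth (nd_bij hn hN hF)
  have hgne : ∀ v, v ≠ 0 → g v ≠ 0 := fun v hv => hgH.ne_zero hv
  have hsm : ∀ {f : V n → V n}, ContDiffOn ℝ ∞ f {0}ᶜ → (∀ v, v ≠ 0 → f v ≠ 0) →
      ContDiff ℝ ∞ (ext f) := by
    intro f hf hf0
    have h1 : ContDiffOn ℝ ∞ (uncurry fun (_ : ℝ) => f) (univ ×ˢ {0}ᶜ) :=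
      hf.comp contDiff_snd.contDiffOn fun p hp => hp.2
    have h2 := ext_smooth h1 fun _ v hv => hf0 v hv
    have h9 : ContDiff ℝ ∞ fun M : Mat n => ((0:ℝ), M) := contDiff_const.prodMk contDiff_id
    exact ContDiff.comp (g := fun p : ℝ × Mat n => ext f p.2) (f := fun M : Mat n => ((0:ℝ), M))
        h2 h9
  refine ⟨ext F, ext g, hsm hF.smooth hne, hsm hgs hgne, ?_, ?_, fun v hv => ext_line hF.hom hv⟩
  · intro P hP
    obtain ⟨v, hv, rfl⟩ := exists_line hP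
    rw [ext_line hF.hom hv]
    exact line_mem (hne v hv)
  · intro P hP
    obtain ⟨v, hv, rfl⟩ := exists_line hP
    refine ⟨?_, ?_, ?_⟩
    · rw [ext_line (hom_of_HD hgH) hv]
      exact line_mem (hgne v hv)
    · rw [ext_line hF.hom hv, ext_line (hom_of_HD hgH) (hne v hv), hgF]
    · rw [ext_line (hom_of_HD hgH) hv, ext_line hF.hom (hgne v hv), hFg]

end Pool.Agent.H13.Pol
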