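import Pool.Agent.H13.Pol.Join

/-!
# Homogeneous maps are homotopic to the identity
-/

set_option autoImplicit false

open Set Filter Topology Metric Function MeasureTheory
open scoped ContDiff

noncomputable section

namespace Pool.Agent.H13.Pol

open Pool.Agent.Q196.NP (V Mat CP line col line_mem line_smul col_line col_smooth exists_line
  line_smooth lift_der HD U1 ext ext_line ext_smooth)
open Pool.Agent.H13.Gap (hom_continuous hasF euler line_eq_imp)

variable {n : ℕ}

/-- the vector with the entry `1` at the place `j` -/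
def iv (j : Fin (n + 1)) (z : Fin n → ℂ) : V n := WithLp.toLp 2 (Fin.insertNth j 1 z)

lemma iv_same (j : Fin (n + 1)) (z : Fin n → ℂ) : iv j z j = 1 := by
  show (Fin.insertNth j (1 : ℂ) z : Fin (n + 1) → ℂ) j = 1
  rw [Fin.insertNth_apply_same]

lemma iv_succ (j : Fin (n + 1)) (z : Fin n → ℂ) (k : Fin n) : iv j z (j.succAbove k) = z k := by
  show (Fin.insertNth j (1 : ℂ) z : Fin (n + 1) → ℂ) (j.succAbove k) = z k
  rw [Fin.insertNth_apply_succAbove]

lemma iv_ne (j : Fin (n + 1)) (z : Fin n → ℂ) : iv j z ≠ 0 := by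
  intro h
  have h1 := iv_same j z
  rw [h] at h1
  exact zero_ne_one h1

lemma iv_smooth (j : Fin (n + 1)) : ContDiff ℝ ∞ (iv j : (Fin n → ℂ) → V n) := by
  have h1 : ContDiff ℝ ∞ (fun z : Fin n → ℂ => (Fin.insertNth j (1 : ℂ) z : Fin (n + 1) → ℂ)) := by
    rw [contDiff_pi]
    intro i
    refine Fin.succAboveCases j ?_ (fun k => ?_) i
    · have : (fun z : Fin n → ℂ => (Fin.insertNth j (1 : ℂ) z : Fin (n + 1) → ℂ) j) = fun _ => 1 := by
        funext z
        rw [Fin.insertNth_apply_same]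
      rw [this]
      exact contDiff_const
    · have : (fun z : Fin n → ℂ => (Fin.insertNth j (1 : ℂ) z : Fin (n + 1) → ℂ) (j.succAbove k)) =
          fun z => z k := by
        funext z
        rw [Fin.insertNth_apply_succAbove]
      rw [this]
      exact contDiff_apply ℝ ℂ k
  exact (PiLp.contDiff_toLp (𝕜 := ℝ) (p := 2)).comp h1

/-- the linear map with columns `A` -/
def cl (A : Fin (n + 1) → V n) (v : V n) : V n := ∑ i, v i • A i

/-- the parameters of the bad matrices -/
abbrev Par (n : ℕ) : Type := (Fin n → ℂ × V n) × ℝ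

/-- the bad matrices -/
def bad (F : V n → V n) (j : Fin (n + 1)) (q : Par n) : Fin (n + 1) → V n :=
  Fin.insertNth j (-(q.2 • F (iv j fun k => (q.1 k).1) + ∑ k, (q.1 k).1 • (q.1 k).2))
    (fun k => (q.1 k).2)

lemma bad_smooth {F : V n → V n} (hF : Hm F) (j : Fin (n + 1)) : ContDiff ℝ ∞ (bad F j) := by
  have b1 : ∀ k : Fin n, ContDiff ℝ ∞ fun q : Par n => (q.1 k).1 := fun k =>
    contDiff_fst.comp ((contDiff_apply ℝ (ℂ × V n) k).comp contDiff_fst)
  have b2 : ∀ k : Fin n, ContDiff ℝ ∞ fun q : Par n => (q.1 k).2 := fun k =>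
    contDiff_snd.comp ((contDiff_apply ℝ (ℂ × V n) k).comp contDiff_fst)
  have b3 : ContDiff ℝ ∞ fun q : Par n => iv j fun k => (q.1 k).1 :=
    (iv_smooth j).comp (contDiff_pi.2 b1)
  have b4 : ContDiff ℝ ∞ fun q : Par n => F (iv j fun k => (q.1 k).1) := by
    rw [← contDiffOn_univ]
    exact hF.smooth.comp b3.contDiffOn fun q _ => iv_ne j _
  rw [contDiff_pi]
  intro i
  refine Fin.succAboveCases j ?_ (fun k => ?_) i
  · have : (fun q : Par n => bad F j q j) = fun q =>
        -(q.2 • F (iv j fun k => (q.1 k).1) + ∑ k, (q.1 k).1 • (q.1 k).2) := by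
      funext q
      unfold bad
      rw [Fin.insertNth_apply_same]
    rw [this]
    have b5 : ContDiff ℝ ∞ fun q : Par n => q.2 • F (iv j fun k => (q.1 k).1) :=
      contDiff_snd.smul b4
    have b6 : ContDiff ℝ ∞ fun q : Par n => ∑ k, (q.1 k).1 • (q.1 k).2 :=
      ContDiff.sum fun k _ => (b1 k).smul (b2 k)
    exact (b5.add b6).neg
  · have : (fun q : Par n => bad F j q (j.succAbove k)) = fun q => (q.1 k).2 := by
      funext q
      unfold bad
      rw [Fin.insertNth_apply_succAbove]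
    rw [this]
    exact b2 k

lemma finrank_V (n : ℕ) : Module.finrank ℝ (V n) = 2 * (n + 1) := by
  rw [finrank_real_of_complex, finrank_euclideanSpace_fin]

lemma cl_smul (A : Fin (n + 1) → V n) (c : ℂ) (v : V n) : cl A (c • v) = c • cl A v := by
  unfold cl
  rw [Finset.smul_sum]
  refine Finset.sum_congr rfl fun i _ => ?_
  show (c * v i) • A i = _
  rw [mul_smul]

/-- **general position** -/
theorem exists_good {F : V n → V n} (hF : Hm F) {ε : ℝ} (hε : 0 < ε) :
    ∃ A : Fin (n + 1) → V n, (∀ i, ‖A i - EuclideanSpace.single i 1‖ < ε) ∧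
      ∀ v, v ≠ 0 → ∀ s : ℝ, cl A v + s • F v ≠ 0 := by
  have hd : Dense (⋃ j : Fin (n + 1), range (bad F j))ᶜ := by
    apply dense_compl_of_dimH_lt_finrank
    rw [dimH_iUnion]
    have h1 : ∀ j : Fin (n + 1), dimH (range (bad F j)) ≤ (2 * (n + 1) ^ 2 - 1 : ℕ) := by
      intro j
      have h2 := ((bad_smooth hF j).of_le (m := 1) (by norm_cast)).dimH_range_le
      have h3 : Module.finrank ℝ (Par n) = 2 * (n + 1) ^ 2 - 1 := by
        rw [Module.finrank_prod, Module.finrank_pi_fintype, Finset.sum_const, Module.finrank_prod,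
          finrank_V, Complex.finrank_real_complex, Module.finrank_self, Finset.card_univ,
          Fintype.card_fin, smul_eq_mul]
        have : 2 * (n + 1) ^ 2 = n * (2 + 2 * (n + 1)) + 1 + 1 := by ring
        omega
      rwa [h3] at h2
    refine (iSup_le h1).trans_lt ?_
    have h4 : Module.finrank ℝ (Fin (n + 1) → V n) = 2 * (n + 1) ^ 2 := by
      rw [Module.finrank_pi_fintype, Finset.sum_const, finrank_V, Finset.card_univ,
          Fintype.card_fin, smul_eq_mul]
      ring
    rw [h4]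
    have h5 : 2 * (n + 1) ^ 2 - 1 < 2 * (n + 1) ^ 2 := by
      have : 0 < 2 * (n + 1) ^ 2 := by positivity
      omega
    exact_mod_cast h5
  obtain ⟨A, hA, hAb⟩ := hd.exists_mem_open
    (isOpen_ball (x := (fun i => EuclideanSpace.single i 1 : Fin (n + 1) → V n)) (ε := ε))
    ⟨_, mem_ball_self hε⟩
  refine ⟨A, fun i => ?_, fun v hv s h0 => ?_⟩
  · rw [mem_ball, dist_eq_norm] at hAb
    exact (norm_le_pi_norm (A - fun i => EuclideanSpace.single i 1) i).trans_lt hAb
  · apply hA
    obtain ⟨j, hj⟩ : ∃ j, v j ≠ 0 := by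
      by_contra h1
      push Not at h1
      exact hv (by ext i; exact h1 i)
    rw [mem_iUnion]
    refine ⟨j, ?_⟩
    set z : Fin n → ℂ := fun k => (v j)⁻¹ * v (j.succAbove k) with hz
    have hv' : (v j)⁻¹ • v = iv j z := by
      ext i
      show (v j)⁻¹ * v i = iv j z i
      refine Fin.succAboveCases j ?_ (fun k => ?_) i
      · rw [iv_same, inv_mul_cancel₀ hj]
      · rw [iv_succ]
    have h1 : cl A (iv j z) + s • F (iv j z) = 0 := by
      rw [← hv', cl_smul, hF.hom, smul_comm s, ← smul_add, h0, smul_zero]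
    have h2 : cl A (iv j z) = A j + ∑ k, z k • A (j.succAbove k) := by
      unfold cl
      rw [Fin.sum_univ_succAbove _ j, iv_same, one_smul]
      simp only [iv_succ]
    refine ⟨(fun k => (z k, A (j.succAbove k)), s), ?_⟩
    funext i
    refine Fin.succAboveCases j ?_ (fun k => ?_) i
    · unfold bad
      rw [Fin.insertNth_apply_same]
      show -(s • F (iv j z) + ∑ k, z k • A (j.succAbove k)) = A j
      rw [h2] at h1
      rw [neg_eq_iff_add_eq_zero, ← h1]
      abel
    · unfold bad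
      rw [Fin.insertNth_apply_succAbove]

lemma cl_near {A : Fin (n + 1) → V n} {ε : ℝ} (hA : ∀ i, ‖A i - EuclideanSpace.single i 1‖ < ε)
    (hε : ((n : ℝ) + 1) * ε ≤ 1 / 2) (v : V n) : ‖cl A v - v‖ ≤ 1 / 2 * ‖v‖ := by
  have h1 : cl A v - v = ∑ i, v i • (A i - EuclideanSpace.single i 1) := by
    unfold cl
    simp only [smul_sub, Finset.sum_sub_distrib]
    congr 1
    ext i
    simp [Pi.single_apply]
  rw [h1]
  calc ‖∑ i, v i • (A i - EuclideanSpace.single i 1)‖
      ≤ ∑ i, ‖v i • (A i - EuclideanSpace.single i 1)‖ := norm_sum_le _ _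
    _ ≤ ∑ _i : Fin (n + 1), ‖v‖ * ε := by
        refine Finset.sum_le_sum fun i _ => ?_
        rw [norm_smul]
        exact mul_le_mul (PiLp.norm_apply_le v i) (hA i).le (norm_nonneg _) (norm_nonneg _)
    _ = ((n : ℝ) + 1) * ε * ‖v‖ := by
        rw [Finset.sum_const, Finset.card_univ, Fintype.card_fin, nsmul_eq_mul]
        push_cast
        ring
    _ ≤ 1 / 2 * ‖v‖ := mul_le_mul_of_nonneg_right hε (norm_nonneg _)

/-- **homotopy to the identity** of the map of the projective space of a homogeneous map -/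
theorem exists_homotopy {F : V n → V n} (hF : Hm F) (hF0 : ∀ v, v ≠ 0 → F v ≠ 0) :
    ∃ H : ℝ × Mat n → Mat n, ContDiff ℝ ∞ H ∧ (∀ t : ℝ, ∀ P ∈ CP n, H (t, P) ∈ CP n) ∧
      (∀ P ∈ CP n, H (0, P) = P) ∧ ∀ v, v ≠ 0 → H (1, line v) = line (F v) := by
  have hn1 : (0 : ℝ) < (n : ℝ) + 1 := by positivity
  obtain ⟨A, hA, hAF⟩ := exists_good hF (ε := 1 / (2 * ((n : ℝ) + 1))) (by positivity)
  have hnear := cl_near hA (by
    apply le_of_eq
    field_simp)
  set a : ℝ → ℝ := fun t => Real.smoothTransition (3 * t) with ha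
  set b : ℝ → ℝ := fun t => Real.smoothTransition (3 * t - 2) with hb
  have has : ContDiff ℝ ∞ a := Real.smoothTransition.contDiff.comp (contDiff_const.mul contDiff_id)
  have hbs : ContDiff ℝ ∞ b :=
    Real.smoothTransition.contDiff.comp ((contDiff_const.mul contDiff_id).sub contDiff_const)
  have hcls : ContDiff ℝ ∞ (cl A) :=
    ContDiff.sum fun i _ => (coord_smooth i).smul contDiff_const
  have hclz : cl A 0 = 0 := by
    have := cl_smul A 0 (0 : V n)
    rwa [zero_smul, zero_smul] at this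
  set Φ : ℝ → V n → V n := fun t v => (1 - b t) • ((1 - a t) • v + a t • cl A v) + b t • F v with hΦ
  have hr : ∀ (r : ℝ) (v : V n), r • v = ((r : ℂ)) • v := fun r v => (Complex.coe_smul r v).symm
  have hΦhom : ∀ t (c : ℂ) v, Φ t (c • v) = c • Φ t v := by
    intro t c v
    show (1 - b t) • ((1 - a t) • (c • v) + a t • cl A (c • v)) + b t • F (c • v) =
      c • ((1 - b t) • ((1 - a t) • v + a t • cl A v) + b t • F v)
    rw [cl_smul, hF.hom, smul_comm (1 - a t) c, smul_comm (a t) c, ← smul_add,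
      smul_comm (1 - b t) c, smul_comm (b t) c, ← smul_add]
  have hΦs : ContDiffOn ℝ ∞ (uncurry Φ) (univ ×ˢ {0}ᶜ) := by
    have c1 : ContDiffOn ℝ ∞ (fun p : ℝ × V n => a p.1) (univ ×ˢ {0}ᶜ) :=
      has.comp_contDiffOn contDiff_fst.contDiffOn
    have c2 : ContDiffOn ℝ ∞ (fun p : ℝ × V n => b p.1) (univ ×ˢ {0}ᶜ) :=
      hbs.comp_contDiffOn contDiff_fst.contDiffOn
    have c3 : ContDiffOn ℝ ∞ (fun p : ℝ × V n => F p.2) (univ ×ˢ {0}ᶜ) :=
      hF.smooth.comp contDiff_snd.contDiffOn fun p hp => hp.2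
    have c4 : ContDiffOn ℝ ∞ (fun p : ℝ × V n => cl A p.2) (univ ×ˢ {0}ᶜ) :=
      hcls.comp_contDiffOn contDiff_snd.contDiffOn
    have c5 : ContDiffOn ℝ ∞ (fun p : ℝ × V n => (1 - a p.1) • p.2 + a p.1 • cl A p.2)
        (univ ×ˢ {0}ᶜ) :=
      ((contDiffOn_const.sub c1).smul contDiff_snd.contDiffOn).add (c1.smul c4)
    have c6 : ContDiffOn ℝ ∞ (fun p : ℝ × V n =>
        (1 - b p.1) • ((1 - a p.1) • p.2 + a p.1 • cl A p.2) + b p.1 • F p.2) (univ ×ˢ {0}ᶜ) :=
      ((contDiffOn_const.sub c2).smul c5).add (c2.smul c3)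
    exact c6
  have hΦne : ∀ t v, v ≠ 0 → Φ t v ≠ 0 := by
    intro t v hv
    have ha0 : 0 ≤ a t := Real.smoothTransition.nonneg _
    have ha1 : a t ≤ 1 := Real.smoothTransition.le_one _
    rcases le_total t (2 / 3) with ht | ht
    · have hb0 : b t = 0 := Real.smoothTransition.zero_of_nonpos (by linarith)
      show (1 - b t) • ((1 - a t) • v + a t • cl A v) + b t • F v ≠ 0
      rw [hb0, sub_zero, one_smul, zero_smul, add_zero]
      intro h0
      have h1 : v = -(a t • (cl A v - v)) := by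
        have h2 : v + a t • (cl A v - v) = 0 := by
          rw [← h0, sub_smul, one_smul, smul_sub]
          abel
        exact eq_neg_of_add_eq_zero_left h2
      have h3 : ‖v‖ ≤ 1 / 2 * ‖v‖ := by
        conv_lhs => rw [h1]
        rw [norm_neg, norm_smul, Real.norm_of_nonneg ha0]
        have := hnear v
        nlinarith [norm_nonneg (cl A v - v)]
      have h4 : 0 < ‖v‖ := norm_pos_iff.2 hv
      linarith
    · have ha1' : a t = 1 := Real.smoothTransition.one_of_one_le (by linarith)
      show (1 - b t) • ((1 - a t) • v + a t • cl A v) + b t • F v ≠ 0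
      rw [ha1', sub_self, zero_smul, zero_add, one_smul]
      by_cases hb1 : b t = 1
      · rw [hb1, sub_self, zero_smul, zero_add, one_smul]
        exact hF0 v hv
      · intro h0
        have hb1' : 1 - b t ≠ 0 := fun h => hb1 (by linarith)
        apply hAF v hv ((1 - b t)⁻¹ * b t)
        have h1 : cl A v + ((1 - b t)⁻¹ * b t) • F v =
            (1 - b t)⁻¹ • ((1 - b t) • cl A v + b t • F v) := by
          rw [smul_add, smul_smul, smul_smul, inv_mul_cancel₀ hb1', one_smul]
        rw [h1, h0, smul_zero]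
  refine ⟨fun p => ext (Φ p.1) p.2, ext_smooth hΦs hΦne, ?_, ?_, ?_⟩
  · intro t P hP
    obtain ⟨v, hv, rfl⟩ := exists_line hP
    show ext (Φ t) (line v) ∈ CP n
    rw [ext_line (hΦhom t) hv]
    exact line_mem (hΦne t v hv)
  · intro P hP
    obtain ⟨v, hv, rfl⟩ := exists_line hP
    show ext (Φ 0) (line v) = line v
    have hb0 : b 0 = 0 := Real.smoothTransition.zero_of_nonpos (by norm_num)
    have ha0 : a 0 = 0 := Real.smoothTransition.zero_of_nonpos (by norm_num)
    rw [ext_line (hΦhom 0) hv]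
    show line ((1 - b 0) • ((1 - a 0) • v + a 0 • cl A v) + b 0 • F v) = line v
    rw [hb0, ha0, sub_zero, one_smul, one_smul, zero_smul, add_zero, zero_smul, add_zero]
  · intro v hv
    show ext (Φ 1) (line v) = line (F v)
    have hb1 : b 1 = 1 := Real.smoothTransition.one_of_one_le (by norm_num)
    rw [ext_line (hΦhom 1) hv]
    show line ((1 - b 1) • ((1 - a 1) • v + a 1 • cl A v) + b 1 • F v) = line (F v)
    rw [hb1, sub_self, zero_smul, zero_add, one_smul]

end Pool.Agent.H13.Pol
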