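import Pool.Agent.H13.Pol.Log

/-!
# Two lifts of a diffeomorphism
-/

set_option autoImplicit false

open Set Filter Topology Metric Function MeasureTheory
open scoped ContDiff

noncomputable section

namespace Pool.Agent.H13.Pol

open Pool.Agent.Q196.NP (V Mat CP line col line_mem line_smul col_line col_smooth exists_line
  line_smooth lift_der HD U1)
open Pool.Agent.H13.Gap (hom_continuous hasF euler line_eq_imp)
open Pool.Agent.H13.Wig (ap ap_zero ap_smul ap_line nz nz_unit line_nz pr norm_pr inner_pr)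

variable {n : ℕ}

/-- **two lifts of the same diffeomorphism** are joined by a polygon -/
theorem lifts_join {φ ψ : Mat n → Mat n} (hψs : ContDiff ℝ ∞ ψ) (hψφ : ∀ P ∈ CP n, ψ (φ P) = P)
    {F G : V n → V n} (hF : Hm F) (hG : Hm G) (hF0 : ∀ v, v ≠ 0 → F v ≠ 0)
    (hG0 : ∀ v, v ≠ 0 → G v ≠ 0) (hφF : ∀ v, v ≠ 0 → φ (line v) = line (F v))
    (hφG : ∀ v, v ≠ 0 → φ (line v) = line (G v)) : Relation.ReflTransGen Sg F G := by
  set h : V n → ℂ := fun v => (inner ℂ (F v) (G v) : ℂ) / ((‖F v‖ ^ 2 : ℝ) : ℂ) with hh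
  have hnn : ∀ v, v ≠ 0 → ((‖F v‖ ^ 2 : ℝ) : ℂ) ≠ 0 := by
    intro v hv
    have : ‖F v‖ ^ 2 ≠ 0 := pow_ne_zero 2 (norm_ne_zero_iff.2 (hF0 v hv))
    exact_mod_cast this
  have hhG : ∀ v, v ≠ 0 → h v ≠ 0 ∧ G v = h v • F v := by
    intro v hv
    obtain ⟨c, hc, hcG⟩ := line_eq_imp (hG0 v hv) ((hφF v hv).symm.trans (hφG v hv))
    have h1 : h v = c := by
      show (inner ℂ (F v) (G v) : ℂ) / ((‖F v‖ ^ 2 : ℝ) : ℂ) = c
      rw [hcG, inner_smul_right, inner_self_eq_norm_sq_to_K]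
      have h2 := hnn v hv
      push_cast at h2 ⊢
      rw [mul_div_assoc]
      have h3 : ((‖F v‖ : ℝ) : ℂ) ^ 2 / ((‖F v‖ : ℝ) : ℂ) ^ 2 = 1 := div_self h2
      exact (congrArg (fun z => c * z) h3).trans (mul_one c)
    rw [h1]
    exact ⟨hc, hcG⟩
  have hhs : ContDiffOn ℝ ∞ h {0}ᶜ := by
    have h1 : ContDiffOn ℝ ∞ (fun v => (inner ℂ (F v) (G v) : ℂ)) {0}ᶜ :=
      hF.smooth.inner ℂ hG.smooth
    have h2 : ContDiffOn ℝ ∞ (fun v => ((‖F v‖ ^ 2 : ℝ) : ℂ)) {0}ᶜ :=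
      Complex.ofRealCLM.contDiff.comp_contDiffOn ((contDiff_norm_sq ℝ).comp_contDiffOn hF.smooth)
    have h3 : ContDiffOn ℝ ∞ (fun v => (((‖F v‖ ^ 2 : ℝ) : ℂ))⁻¹) {0}ᶜ := h2.inv hnn
    have h4 : h = fun v => (inner ℂ (F v) (G v) : ℂ) * (((‖F v‖ ^ 2 : ℝ) : ℂ))⁻¹ := by
      funext v
      rw [hh]
      simp only [div_eq_mul_inv]
    rw [h4]
    exact h1.mul h3
  have hinv : ∀ (c : ℂ) v, c ≠ 0 → v ≠ 0 → h (c • v) = h v := by
    intro c v hc hv
    have hcv : c • v ≠ 0 := smul_ne_zero hc hv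
    have h1 := (hhG _ hcv).2
    rw [hG.hom, hF.hom, (hhG v hv).2, smul_comm c (h v)] at h1
    have h2 : (h v - h (c • v)) • (c • F v) = 0 := by rw [sub_smul, h1, sub_self]
    rcases smul_eq_zero.1 h2 with h3 | h3
    · exact (sub_eq_zero.1 h3).symm
    · exact absurd h3 (smul_ne_zero hc (hF0 v hv))
  obtain ⟨ℓ, hℓs, hℓe, hℓi⟩ := exists_log hhs (fun v hv => (hhG v hv).1) hinv
  set L : ℝ → V n → V n := fun t v => Complex.exp (t * ℓ v) • F v with hL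
  have hLs : ContDiffOn ℝ ∞ (uncurry L) (univ ×ˢ {0}ᶜ) := by
    have a0 : ContDiffOn ℝ ∞ (fun p : ℝ × V n => ((p.1 : ℝ) : ℂ)) (univ ×ˢ {0}ᶜ) :=
      Complex.ofRealCLM.contDiff.comp_contDiffOn contDiff_fst.contDiffOn
    have a1 : ContDiffOn ℝ ∞ (fun p : ℝ × V n => ℓ p.2) (univ ×ˢ {0}ᶜ) :=
      hℓs.comp contDiff_snd.contDiffOn fun p hp => hp.2
    have a2 : ContDiffOn ℝ ∞ (fun p : ℝ × V n => Complex.exp (p.1 * ℓ p.2)) (univ ×ˢ {0}ᶜ) :=
      (Complex.contDiff_exp (𝕜 := ℝ)).comp_contDiffOn (a0.mul a1)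
    have a3 : ContDiffOn ℝ ∞ (fun p : ℝ × V n => F p.2) (univ ×ˢ {0}ᶜ) :=
      hF.smooth.comp contDiff_snd.contDiffOn fun p hp => hp.2
    exact a2.smul a3
  have hLhom : ∀ t (c : ℂ) v, L t (c • v) = c • L t v := by
    intro t c v
    show Complex.exp (t * ℓ (c • v)) • F (c • v) = c • Complex.exp (t * ℓ v) • F v
    by_cases hc : c = 0
    · rw [hc, zero_smul, zero_smul, hF.zero, smul_zero]
    by_cases hv : v = 0
    · rw [hv, smul_zero, hF.zero, smul_zero, smul_zero]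
    · rw [hℓi c v hc hv, hF.hom, smul_comm]
  have hLH : ∀ t, Hm (L t) := by
    intro t
    refine ⟨?_, hLhom t⟩
    have h2 : ContDiffOn ℝ ∞ (fun x : V n => uncurry L (t, x)) {0}ᶜ :=
      hLs.comp (contDiff_const.prodMk contDiff_id).contDiffOn fun x hx => ⟨mem_univ _, hx⟩
    exact h2
  have hN : ∀ t ∈ Icc (0 : ℝ) 1, Nd (L t) := by
    intro t _
    have hLne : ∀ v, v ≠ 0 → L t v ≠ 0 := fun v hv =>
      smul_ne_zero (Complex.exp_ne_zero _) (hF0 v hv)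
    refine nd_of_lift hψs hψφ (hLH t) hLne fun v hv => ?_
    show φ (line v) = line (Complex.exp (t * ℓ v) • F v)
    rw [line_smul _ (Complex.exp_ne_zero _), hφF v hv]
  have hp := polygon_of_path hLs hLhom zero_le_one hN
  have e1 : L 0 = F := by
    funext v
    show Complex.exp (((0 : ℝ) : ℂ) * ℓ v) • F v = F v
    rw [Complex.ofReal_zero, zero_mul, Complex.exp_zero, one_smul]
  have e2 : L 1 = G := by
    funext v
    by_cases hv : v = 0
    · rw [hv]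
      show Complex.exp (((1 : ℝ) : ℂ) * ℓ 0) • F 0 = G 0
      rw [hF.zero, hG.zero, smul_zero]
    · show Complex.exp (((1 : ℝ) : ℂ) * ℓ v) • F v = G v
      rw [Complex.ofReal_one, one_mul, hℓe v hv, ← (hhG v hv).2]
  rwa [e1, e2] at hp

end Pool.Agent.H13.Pol
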