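import Pool.Agent.H13.Pol.Poly
import Pool.Agent.H13.Wig.Two

/-!
# Polynomial kernels
-/

set_option autoImplicit false

open Set Filter Topology Metric Function MeasureTheory
open scoped ContDiff

noncomputable section

namespace Pool.Agent.H13.Pol

open Pool.Agent.Q196.NP (V)
open Pool.Agent.H13.Wig (inner_def)

variable {n : ℕ}

/-- the unit ball -/
abbrev Bl (n : ℕ) : Set (V n) := closedBall (0 : V n) 1

/-- the kernel -/
def ker (p : ℕ) (w v : V n) : ℂ := (inner ℂ w v : ℂ) ^ (p + 1) * (inner ℂ v w : ℂ) ^ p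

/-- the integral operator -/
def TT (p : ℕ) (F : V n → V n) (v : V n) : V n := ∫ w in Bl n, ker p w v • F w

/-- the coefficients of the integral operator -/
def ct (p : ℕ) (F : V n → V n) : Coef n p := fun s t =>
  ∫ w in Bl n, ((∏ k, star (w (s k))) * ∏ k, w (t k)) • F w

lemma coord_cont (i : Fin (n + 1)) : Continuous fun v : V n => v i := (coord_smooth i).continuous

lemma ker_eq (p : ℕ) (w v : V n) : ker p w v = ∑ s : Fin (p + 1) → Fin (n + 1),
    ∑ t : Fin p → Fin (n + 1), mon s t v * ((∏ k, star (w (s k))) * ∏ k, w (t k)) := by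
  unfold ker mon
  rw [inner_def, inner_def, Fintype.sum_pow, Fintype.sum_pow, Finset.sum_mul_sum]
  refine Finset.sum_congr rfl fun s _ => Finset.sum_congr rfl fun t _ => ?_
  rw [Finset.prod_mul_distrib, Finset.prod_mul_distrib]
  have h : ∀ z : ℂ, star z = (starRingEnd ℂ) z := fun z => rfl
  simp only [h]
  ring

theorem TT_eq_pm (p : ℕ) {F : V n → V n} (hF : Continuous F) : TT p F = pm (ct p F) := by
  funext v
  unfold TT pm ct
  have h1 : ∀ w : V n, ker p w v • F w = ∑ s : Fin (p + 1) → Fin (n + 1),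
      ∑ t : Fin p → Fin (n + 1), mon s t v • (((∏ k, star (w (s k))) * ∏ k, w (t k)) • F w) := by
    intro w
    rw [ker_eq, Finset.sum_smul]
    refine Finset.sum_congr rfl fun s _ => ?_
    rw [Finset.sum_smul]
    refine Finset.sum_congr rfl fun t _ => ?_
    rw [mul_smul]
  have hi : ∀ (s : Fin (p + 1) → Fin (n + 1)) (t : Fin p → Fin (n + 1)),
      IntegrableOn (fun w : V n => mon s t v • (((∏ k, star (w (s k))) * ∏ k, w (t k)) • F w))
        (Bl n) := by
    intro s t
    refine ContinuousOn.integrableOn_compact (isCompact_closedBall _ _) (Continuous.continuousOn ?_)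
    have a1 : Continuous fun w : V n => ∏ k, star (w (s k)) :=
      continuous_finsetProd _ fun k _ => continuous_star.comp (coord_cont _)
    have a2 : Continuous fun w : V n => ∏ k, w (t k) :=
      continuous_finsetProd _ fun k _ => coord_cont _
    have a3 : Continuous fun w : V n => ((∏ k, star (w (s k))) * ∏ k, w (t k)) • F w :=
      (a1.mul a2).smul hF
    exact a3.const_smul (mon s t v)
  simp_rw [h1]
  rw [integral_finsetSum _ fun s _ => integrable_finsetSum _ fun t _ => hi s t]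
  refine Finset.sum_congr rfl fun s _ => ?_
  rw [integral_finsetSum _ fun t _ => hi s t]
  refine Finset.sum_congr rfl fun t _ => ?_
  rw [integral_smul]

/-- a unitary map as a real isometry -/
def rl (U : V n ≃ₗᵢ[ℂ] V n) : V n ≃ₗᵢ[ℝ] V n where
  toLinearEquiv := U.toLinearEquiv.restrictScalars ℝ
  norm_map' := U.norm_map

lemma setIntegral_unitary {E : Type*} [NormedAddCommGroup E] [NormedSpace ℝ E] (U : V n ≃ₗᵢ[ℂ] V n)
    (f : V n → E) : ∫ w in Bl n, f (U w) = ∫ w in Bl n, f w := by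
  have h1 : MeasurePreserving (rl U) := (rl U).measurePreserving
  have h2 := h1.setIntegral_preimage_emb (rl U).toHomeomorph.measurableEmbedding f (Bl n)
  have h3 : (rl U) ⁻¹' (Bl n) = Bl n := by
    ext w
    rw [mem_preimage, mem_closedBall_zero_iff, mem_closedBall_zero_iff]
    have : ‖(rl U) w‖ = ‖w‖ := U.norm_map w
    rw [this]
  rw [h3] at h2
  exact h2

lemma TT_unitary (p : ℕ) (F : V n → V n) (U : V n ≃ₗᵢ[ℂ] V n) (v : V n) :
    TT p (fun w => F (U w)) v = TT p F (U v) := by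
  unfold TT
  rw [← setIntegral_unitary U (fun w => ker p w (U v) • F w)]
  congr 1
  funext w
  unfold ker
  rw [U.inner_map_map, U.inner_map_map]

/-- the normalizing constant -/
def mu (n p : ℕ) : ℝ := ∫ w in Bl n, ‖(inner ℂ w (EuclideanSpace.single 0 1 : V n) : ℂ)‖ ^ (2 * p + 2)

lemma exists_unitary {v : V n} (hv : ‖v‖ = 1) : ∃ U : V n ≃ₗᵢ[ℂ] V n,
    U (EuclideanSpace.single 0 1) = v := by
  have horth : Orthonormal ℂ (({0} : Set (Fin (n + 1))).domRestrict fun _ => v) := by
    constructor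
    · intro i
      exact hv
    · intro i j hij
      exact absurd (Subtype.ext (i.2.trans j.2.symm)) hij
  obtain ⟨b, hb⟩ := horth.exists_orthonormalBasis_extension_of_card_eq
    (by rw [finrank_euclideanSpace_fin, Fintype.card_fin])
  refine ⟨b.repr.symm, ?_⟩
  have := b.repr_symm_single 0
  rw [this, hb 0 rfl]

lemma mu_eq (p : ℕ) {v : V n} (hv : ‖v‖ = 1) :
    ∫ w in Bl n, ‖(inner ℂ w v : ℂ)‖ ^ (2 * p + 2) = mu n p := by
  obtain ⟨U, hU⟩ := exists_unitary hv
  unfold mu
  rw [← setIntegral_unitary U (fun w => ‖(inner ℂ w v : ℂ)‖ ^ (2 * p + 2))]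
  congr 1
  funext w
  rw [← hU, U.inner_map_map]

lemma int_pow (k : ℕ) (v : V n) : IntegrableOn (fun w : V n => ‖(inner ℂ w v : ℂ)‖ ^ k) (Bl n) := by
  refine ContinuousOn.integrableOn_compact (isCompact_closedBall _ _) (Continuous.continuousOn ?_)
  exact ((continuous_id.inner continuous_const).norm).pow k

/-- a lower bound for the normalizing constant -/
lemma mu_lower (p : ℕ) {δ : ℝ} (hδ : 0 < δ) (hδ1 : δ ≤ 1) :
    (1 - δ ^ 2 / 2) ^ (p + 1) * volume.real (closedBall (0 : V n) (δ ^ 2 / 8)) ≤ mu n p := by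
  set η : ℝ := δ ^ 2 / 8 with hη
  have hη0 : 0 < η := by positivity
  have hη1 : η ≤ 1 / 8 := by nlinarith
  set v : V n := EuclideanSpace.single 0 1 with hv
  have hv1 : ‖v‖ = 1 := by simp [hv]
  have hsub : closedBall ((1 - η) • v) η ⊆ Bl n := by
    intro w hw
    rw [mem_closedBall, dist_eq_norm] at hw
    rw [mem_closedBall_zero_iff]
    have h1 : ‖w‖ ≤ ‖w - (1 - η) • v‖ + ‖(1 - η) • v‖ := by
      have := norm_add_le (w - (1 - η) • v) ((1 - η) • v)
      rwa [sub_add_cancel] at this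
    rw [norm_smul, hv1, mul_one, Real.norm_of_nonneg (by linarith)] at h1
    linarith
  have hlow : ∀ w ∈ closedBall ((1 - η) • v) η, (1 - δ ^ 2 / 2) ^ (p + 1) ≤
      ‖(inner ℂ w v : ℂ)‖ ^ (2 * p + 2) := by
    intro w hw
    rw [mem_closedBall, dist_eq_norm] at hw
    have h1 : (inner ℂ w v : ℂ) = inner ℂ (w - (1 - η) • v) v + ((1 - η : ℝ) : ℂ) := by
      rw [inner_sub_left]
      have h2 : (inner ℂ ((1 - η) • v) v : ℂ) = ((1 - η : ℝ) : ℂ) := by
        rw [← Complex.coe_smul, inner_smul_left, inner_self_eq_norm_sq_to_K, hv1,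
          Complex.conj_ofReal]
        simp
      rw [h2]
      ring
    have h3 : 1 - 2 * η ≤ ‖(inner ℂ w v : ℂ)‖ := by
      have h4 : ‖(inner ℂ (w - (1 - η) • v) v : ℂ)‖ ≤ η := by
        have := norm_inner_le_norm (𝕜 := ℂ) (w - (1 - η) • v) v
        rw [hv1, mul_one] at this
        exact this.trans hw
      have h5 : ‖((1 - η : ℝ) : ℂ)‖ = 1 - η := by
        rw [Complex.norm_real, Real.norm_of_nonneg (by linarith)]
      have h6 : ‖((1 - η : ℝ) : ℂ)‖ ≤ ‖(inner ℂ w v : ℂ)‖ + ‖(inner ℂ (w - (1 - η) • v) v : ℂ)‖ := by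
        have h7 : ((1 - η : ℝ) : ℂ) = inner ℂ w v - inner ℂ (w - (1 - η) • v) v := by
          rw [h1]; ring
        rw [h7]
        exact norm_sub_le _ _
      rw [h5] at h6
      linarith
    have h8 : 2 * p + 2 = 2 * (p + 1) := by ring
    rw [h8, pow_mul]
    refine pow_le_pow_left₀ (by nlinarith) ?_ _
    have h9 : (1 - 2 * η) ^ 2 ≤ ‖(inner ℂ w v : ℂ)‖ ^ 2 := pow_le_pow_left₀ (by linarith) h3 2
    have h10 : 1 - δ ^ 2 / 2 ≤ (1 - 2 * η) ^ 2 := by
      rw [hη]; nlinarith [sq_nonneg (δ ^ 2)]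
    linarith
  have hfin : volume (closedBall ((1 - η) • v) η) ≠ ⊤ :=
    (isCompact_closedBall _ _).measure_lt_top.ne
  calc (1 - δ ^ 2 / 2) ^ (p + 1) * volume.real (closedBall (0 : V n) η)
      = ∫ w in closedBall ((1 - η) • v) η, (1 - δ ^ 2 / 2) ^ (p + 1) := by
        rw [setIntegral_const, smul_eq_mul, mul_comm]
        congr 1
        unfold Measure.real
        rw [Measure.addHaar_closedBall_center volume ((1 - η) • v) η]
    _ ≤ ∫ w in closedBall ((1 - η) • v) η, ‖(inner ℂ w v : ℂ)‖ ^ (2 * p + 2) := by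
        refine setIntegral_mono_on ?_ ((int_pow _ v).mono_set hsub) measurableSet_closedBall hlow
        exact integrableOn_const hfin
    _ ≤ ∫ w in Bl n, ‖(inner ℂ w v : ℂ)‖ ^ (2 * p + 2) := by
        refine setIntegral_mono_set (int_pow _ v) ?_ (Eventually.of_forall hsub)
        exact Eventually.of_forall fun w => pow_nonneg (norm_nonneg _) _
    _ = mu n p := rfl

lemma mu_pos (n p : ℕ) : 0 < mu n p := by
  have h1 := mu_lower (n := n) p (δ := 1) one_pos le_rfl
  have h2 : 0 < volume.real (closedBall (0 : V n) (1 ^ 2 / 8)) := by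
    unfold Measure.real
    exact ENNReal.toReal_pos (measure_closedBall_pos volume (0 : V n) (by norm_num)).ne'
      (isCompact_closedBall _ _).measure_lt_top.ne
  have h3 : 0 < (1 - (1:ℝ) ^ 2 / 2) ^ (p + 1) * volume.real (closedBall (0 : V n) (1 ^ 2 / 8)) := by
    have : (0:ℝ) < (1 - (1:ℝ) ^ 2 / 2) ^ (p + 1) := by
      apply pow_pos; norm_num
    exact mul_pos this h2
  linarith

lemma ker_split (p : ℕ) (w v : V n) :
    ker p w v = ((‖(inner ℂ w v : ℂ)‖ ^ (2 * p) : ℝ) : ℂ) * inner ℂ w v := by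
  unfold ker
  have h1 : (inner ℂ v w : ℂ) = (starRingEnd ℂ) (inner ℂ w v) := (inner_conj_symm v w).symm
  rw [h1, pow_succ, mul_right_comm, ← mul_pow, Complex.mul_conj, Complex.normSq_eq_norm_sq,
    ← Complex.ofReal_pow, ← pow_mul]

/-- **uniform convergence of the kernels** -/
theorem TT_close {F : V n → V n} (hc : Continuous F) (hhom : ∀ (c : ℂ) v, F (c • v) = c • F v)
    {ε : ℝ} (hε : 0 < ε) : ∃ p₀ : ℕ, ∀ p, p₀ ≤ p → ∀ v, ‖v‖ = 1 →
      ‖(mu n p)⁻¹ • TT p F v - F v‖ ≤ ε := by
  obtain ⟨M, hM⟩ := (isCompact_closedBall (0 : V n) 1).exists_bound_of_continuousOn hc.continuousOn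
  have hM0 : 0 ≤ M := (norm_nonneg _).trans (hM 0 (by simp))
  have huc := (isCompact_closedBall (0 : V n) 1).uniformContinuousOn_of_continuous hc.continuousOn
  rw [Metric.uniformContinuousOn_iff] at huc
  obtain ⟨δ', hδ', huc⟩ := huc (ε / 8) (by linarith)
  set δ : ℝ := min (1 / 2) (δ' / 2) with hδ
  have hδ0 : 0 < δ := lt_min (by norm_num) (by linarith)
  have hδ1 : δ ≤ 1 / 2 := min_le_left _ _
  have hδ2 : δ < δ' := (min_le_right _ _).trans_lt (by linarith)
  set q : ℝ := 1 - δ ^ 2 with hq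
  set q' : ℝ := 1 - δ ^ 2 / 2 with hq'
  have hq0 : 0 < q := by rw [hq]; nlinarith
  have hqq : q < q' := by rw [hq, hq']; nlinarith
  have hq'0 : 0 < q' := hq0.trans hqq
  have hq'1 : q' ≤ 1 := by rw [hq']; nlinarith
  set vB : ℝ := volume.real (Bl n) with hvB
  have hvB0 : 0 ≤ vB := ENNReal.toReal_nonneg
  set vη : ℝ := volume.real (closedBall (0 : V n) (δ ^ 2 / 8)) with hvη
  have hvη0 : 0 < vη := by
    rw [hvη]
    unfold Measure.real
    exact ENNReal.toReal_pos (measure_closedBall_pos volume (0 : V n) (by positivity)).ne'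
      (isCompact_closedBall _ _).measure_lt_top.ne
  set C : ℝ := 2 * M * vB / (q' * vη) with hC
  have hC0 : 0 ≤ C := by positivity
  obtain ⟨p₀, hp₀⟩ := exists_pow_lt_of_lt_one (show 0 < ε / (2 * (C + 1)) by positivity)
    (show q / q' < 1 by rw [div_lt_one hq'0]; exact hqq)
  refine ⟨p₀, fun p hp v hv => ?_⟩
  have hmu := mu_pos n p
  -- pointwise estimate
  have hpt : ∀ w ∈ Bl n, ‖ker p w v • F w - (‖(inner ℂ w v : ℂ)‖ ^ (2 * p + 2)) • F v‖ ≤
      ε / 4 * ‖(inner ℂ w v : ℂ)‖ ^ (2 * p + 2) + 2 * M * q ^ p := by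
    intro w hw
    have hw1 : ‖w‖ ≤ 1 := by rwa [mem_closedBall_zero_iff] at hw
    set r : ℝ := ‖(inner ℂ w v : ℂ)‖ with hr
    have hr0 : 0 ≤ r := norm_nonneg _
    have hr1 : r ≤ 1 := by
      have := norm_inner_le_norm (𝕜 := ℂ) w v
      rw [hv, mul_one] at this
      exact this.trans hw1
    set w' : V n := (inner ℂ v w : ℂ) • v with hw'
    have hrs : ‖(inner ℂ v w : ℂ)‖ = r := norm_inner_symm _ _
    have hw'1 : ‖w'‖ = r := by rw [hw', norm_smul, hv, mul_one, hrs]
    have e1 : ker p w v • F w - (r ^ (2 * p + 2)) • F v =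
        (((r ^ (2 * p) : ℝ) : ℂ) * inner ℂ w v) • (F w - F w') := by
      rw [ker_split, smul_sub, ← hr]
      congr 1
      rw [hw', hhom, smul_smul]
      have h2 : ((r ^ (2 * p) : ℝ) : ℂ) * (inner ℂ w v : ℂ) * (inner ℂ v w : ℂ) =
          ((r ^ (2 * p + 2) : ℝ) : ℂ) := by
        have h3 : (inner ℂ v w : ℂ) = (starRingEnd ℂ) (inner ℂ w v) := (inner_conj_symm v w).symm
        rw [h3, mul_assoc, Complex.mul_conj, Complex.normSq_eq_norm_sq, ← hr,
          ← Complex.ofReal_mul, ← pow_add]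
      rw [h2]
      exact (Complex.coe_smul _ _).symm
    have e2 : ‖(((r ^ (2 * p) : ℝ) : ℂ) * inner ℂ w v) • (F w - F w')‖ =
        r ^ (2 * p + 1) * ‖F w - F w'‖ := by
      rw [norm_smul, norm_mul, Complex.norm_real, Real.norm_of_nonneg (pow_nonneg hr0 _), ← hr,
        ← pow_succ]
    rw [e1, e2]
    have hw'B : w' ∈ Bl n := by rw [mem_closedBall_zero_iff, hw'1]; exact hr1
    rcases le_or_gt q (r ^ 2) with h | h
    · have hdist : dist w w' < δ' := by
        rw [dist_eq_norm]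
        have h3 : ‖w - w'‖ ^ 2 ≤ δ ^ 2 := by
          have h4 := Pool.Agent.H13.Wig.norm_sub_pr hv w
          have h5 : Pool.Agent.H13.Wig.pr v w = w' := rfl
          rw [h5, hrs] at h4
          rw [h4]
          have h6 : ‖w‖ ^ 2 ≤ 1 := by nlinarith [norm_nonneg w]
          rw [hq] at h
          linarith
        have h7 : ‖w - w'‖ ≤ δ := (pow_le_pow_iff_left₀ (norm_nonneg _) hδ0.le two_ne_zero).1 h3
        linarith
      have h8 := huc w hw w' hw'B hdist
      rw [dist_eq_norm] at h8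
      have hr2 : 1 / 2 ≤ r := by
        by_contra h9
        push Not at h9
        rw [hq] at h
        nlinarith
      have h9 : r ^ (2 * p + 1) ≤ 2 * r ^ (2 * p + 2) := by
        rw [pow_succ r (2 * p + 1)]
        have := pow_nonneg hr0 (2 * p + 1)
        nlinarith
      calc r ^ (2 * p + 1) * ‖F w - F w'‖ ≤ (2 * r ^ (2 * p + 2)) * (ε / 8) :=
            mul_le_mul h9 h8.le (norm_nonneg _) (by positivity)
        _ ≤ ε / 4 * r ^ (2 * p + 2) + 2 * M * q ^ p := by
            have : 0 ≤ 2 * M * q ^ p := by positivity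
            linarith
    · have h3 : r ^ (2 * p + 1) ≤ q ^ p := by
        rw [pow_succ, pow_mul]
        have h4 : (r ^ 2) ^ p ≤ q ^ p := pow_le_pow_left₀ (sq_nonneg _) h.le p
        have h5 : 0 ≤ (r ^ 2) ^ p := by positivity
        nlinarith
      have h4 : ‖F w - F w'‖ ≤ 2 * M := by
        have := norm_sub_le (F w) (F w')
        have h5 := hM w hw
        have h6 := hM w' hw'B
        linarith
      calc r ^ (2 * p + 1) * ‖F w - F w'‖ ≤ q ^ p * (2 * M) :=
            mul_le_mul h3 h4 (norm_nonneg _) (by positivity)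
        _ ≤ ε / 4 * r ^ (2 * p + 2) + 2 * M * q ^ p := by
            have : 0 ≤ ε / 4 * r ^ (2 * p + 2) := by positivity
            linarith
  -- integrate
  have hcont1 : Continuous fun w : V n => ker p w v • F w := by
    unfold ker
    have a1 : Continuous fun w : V n => (inner ℂ w v : ℂ) := continuous_id.inner continuous_const
    have a2 : Continuous fun w : V n => (inner ℂ v w : ℂ) := continuous_const.inner continuous_id
    exact ((a1.pow _).mul (a2.pow _)).smul hc
  have hi1 : IntegrableOn (fun w : V n => ker p w v • F w) (Bl n) :=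
    ContinuousOn.integrableOn_compact (isCompact_closedBall _ _) hcont1.continuousOn
  have hi2 : IntegrableOn (fun w : V n => (‖(inner ℂ w v : ℂ)‖ ^ (2 * p + 2)) • F v) (Bl n) :=
    (int_pow (2 * p + 2) v).smul_const _
  have e3 : TT p F v - mu n p • F v =
      ∫ w in Bl n, (ker p w v • F w - (‖(inner ℂ w v : ℂ)‖ ^ (2 * p + 2)) • F v) := by
    rw [integral_sub hi1 hi2, integral_smul_const, mu_eq p hv]
    rfl
  have hfin : volume (Bl n) ≠ ⊤ := (isCompact_closedBall (0 : V n) 1).measure_lt_top.ne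
  have h5 : ‖TT p F v - mu n p • F v‖ ≤ ε / 4 * mu n p + 2 * M * q ^ p * vB := by
    rw [e3]
    calc ‖∫ w in Bl n, (ker p w v • F w - (‖(inner ℂ w v : ℂ)‖ ^ (2 * p + 2)) • F v)‖
        ≤ ∫ w in Bl n, ‖ker p w v • F w - (‖(inner ℂ w v : ℂ)‖ ^ (2 * p + 2)) • F v‖ :=
          norm_integral_le_integral_norm _
      _ ≤ ∫ w in Bl n, (ε / 4 * ‖(inner ℂ w v : ℂ)‖ ^ (2 * p + 2) + 2 * M * q ^ p) := by
          refine setIntegral_mono_on (hi1.sub hi2).norm ?_ measurableSet_closedBall hpt
          exact ((int_pow (2 * p + 2) v).const_mul _).add (integrableOn_const hfin)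
      _ = ε / 4 * mu n p + 2 * M * q ^ p * vB := by
          rw [integral_add ((int_pow (2 * p + 2) v).const_mul _) (integrableOn_const hfin),
            integral_const_mul, mu_eq p hv, setIntegral_const, smul_eq_mul, mul_comm vB]
  have h6 : q' ^ (p + 1) * vη ≤ mu n p := mu_lower p hδ0 (by linarith)
  have h7 : 2 * M * q ^ p * vB ≤ ε / 2 * mu n p := by
    have h8 : (q / q') ^ p ≤ ε / (2 * (C + 1)) := by
      refine (pow_le_pow_of_le_one (by positivity) ?_ hp).trans hp₀.le
      rw [div_le_one hq'0]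
      exact hqq.le
    have h9 : 2 * M * q ^ p * vB = C * (q / q') ^ p * (q' ^ (p + 1) * vη) := by
      rw [hC, div_pow, pow_succ]
      field_simp
    rw [h9]
    have h10 : C * (q / q') ^ p ≤ ε / 2 := by
      calc C * (q / q') ^ p ≤ C * (ε / (2 * (C + 1))) := mul_le_mul_of_nonneg_left h8 hC0
        _ ≤ (C + 1) * (ε / (2 * (C + 1))) := mul_le_mul_of_nonneg_right (by linarith) (by positivity)
        _ = ε / 2 := by field_simp
    exact mul_le_mul h10 h6 (by positivity) (by positivity)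
  have e4 : (mu n p)⁻¹ • TT p F v - F v = (mu n p)⁻¹ • (TT p F v - mu n p • F v) := by
    rw [smul_sub, smul_smul, inv_mul_cancel₀ hmu.ne', one_smul]
  rw [e4, norm_smul, norm_inv, Real.norm_of_nonneg hmu.le, inv_mul_le_iff₀ hmu]
  nlinarith

end Pool.Agent.H13.Pol
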