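import Pool.Agent.H13.Pol.Rat
import Pool.Agent.H13.Wig.Main

/-!
# Lifts of homotopies of the projective space
-/

set_option autoImplicit false

open Set Filter Topology Metric Function MeasureTheory
open scoped ContDiff

noncomputable section

namespace Pool.Agent.H13.Pol

open Pool.Agent.Q196.NP (V Mat CP line col line_mem line_smul col_line col_smooth exists_line
  line_smooth lift_der HD U1)
open Pool.Agent.H13.Gap (hom_continuous hasF euler)
open Pool.Agent.H13.Wig (ap ap_zero ap_smul ap_line nz nz_unit line_nz pr norm_pr inner_pr)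

variable {n : ℕ}

lemma exists_unit_line {P : Mat n} (hP : P ∈ CP n) : ∃ u : V n, ‖u‖ = 1 ∧ P = line u := by
  obtain ⟨u, hu, h⟩ := exists_line hP
  exact ⟨nz u, nz_unit hu, by rw [line_nz hu, h]⟩

lemma ap_idem {P : Mat n} (hP : P ∈ CP n) (x : V n) : ap P (ap P x) = ap P x := by
  obtain ⟨u, hu, rfl⟩ := exists_unit_line hP
  rw [ap_line hu, ap_line hu]
  show (inner ℂ u (pr u x) : ℂ) • u = (inner ℂ u x : ℂ) • u
  rw [inner_pr hu]

lemma ap_norm_le {P : Mat n} (hP : P ∈ CP n) (x : V n) : ‖ap P x‖ ≤ ‖x‖ := by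
  obtain ⟨u, hu, rfl⟩ := exists_unit_line hP
  rw [ap_line hu, norm_pr hu]
  have := norm_inner_le_norm (𝕜 := ℂ) u x
  rwa [hu, one_mul] at this

lemma line_of_fix {P : Mat n} (hP : P ∈ CP n) {x : V n} (hx : x ≠ 0) (h : ap P x = x) :
    line x = P := by
  obtain ⟨u, hu, rfl⟩ := exists_unit_line hP
  rw [ap_line hu] at h
  have h0 : (inner ℂ u x : ℂ) ≠ 0 := by
    intro h0
    apply hx
    rw [← h]
    show (inner ℂ u x : ℂ) • u = 0
    rw [h0, zero_smul]
  rw [← h]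
  exact line_smul u h0

lemma ap_sub_left (M M' : Mat n) (x : V n) : ap M x - ap M' x = ap (M - M') x := by
  unfold ap
  rw [← Finset.sum_sub_distrib]
  refine Finset.sum_congr rfl fun j _ => ?_
  rw [← smul_sub]
  rfl

lemma ap_sub_right (M : Mat n) (x y : V n) : ap M x - ap M y = ap M (x - y) := by
  unfold ap
  rw [← Finset.sum_sub_distrib]
  refine Finset.sum_congr rfl fun j _ => ?_
  rw [← sub_smul]
  rfl

lemma ap_bound (M : Mat n) (x : V n) : ‖ap M x‖ ≤ ((n + 1 : ℕ) : ℝ) ^ 2 * ‖M‖ * ‖x‖ := by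
  have h1 : ∀ j, ‖col j M‖ ≤ ((n + 1 : ℕ) : ℝ) * ‖M‖ := by
    intro j
    refine (norm_le_sum _).trans ?_
    have h2 : ∀ i ∈ (Finset.univ : Finset (Fin (n + 1))), ‖(col j M : V n) i‖ ≤ ‖M‖ := by
      intro i _
      exact (norm_le_pi_norm (M i) j).trans (norm_le_pi_norm M i)
    refine (Finset.sum_le_sum h2).trans (le_of_eq ?_)
    rw [Finset.sum_const, Finset.card_univ, Fintype.card_fin, nsmul_eq_mul]
  unfold ap
  refine (norm_sum_le _ _).trans ?_
  have h3 : ∀ j ∈ (Finset.univ : Finset (Fin (n + 1))), ‖x j • col j M‖ ≤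
      ‖x‖ * (((n + 1 : ℕ) : ℝ) * ‖M‖) := by
    intro j _
    rw [norm_smul]
    exact mul_le_mul (PiLp.norm_apply_le x j) (h1 j) (norm_nonneg _) (norm_nonneg _)
  refine (Finset.sum_le_sum h3).trans (le_of_eq ?_)
  rw [Finset.sum_const, Finset.card_univ, Fintype.card_fin, nsmul_eq_mul]
  ring

lemma line_contOn : ContinuousOn (line : V n → Mat n) {0}ᶜ :=
  fun _ hv => (line_smooth hv).continuousAt.continuousWithinAt

lemma CP_compact : IsCompact (CP n) := by
  have h1 : CP n = line '' sphere (0 : V n) 1 := by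
    ext P
    constructor
    · intro hP
      obtain ⟨u, hu, h⟩ := exists_unit_line hP
      exact ⟨u, by rwa [mem_sphere_zero_iff_norm], h.symm⟩
    · rintro ⟨u, hu, rfl⟩
      rw [mem_sphere_zero_iff_norm] at hu
      exact line_mem (unit_ne hu)
  rw [h1]
  refine (isCompact_sphere _ _).image_of_continuousOn (line_contOn.mono fun v hv h0 => ?_)
  rw [mem_sphere_zero_iff_norm] at hv
  exact unit_ne hv h0

/-- a partition of the interval for which consecutive projections are not orthogonal -/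
lemma exists_partition {H : ℝ × Mat n → Mat n} (hH : ContinuousOn H (Icc (0 : ℝ) 1 ×ˢ CP n)) :
    ∃ N : ℕ, 0 < N ∧ ∀ s ∈ Icc (0 : ℝ) 1, ∀ t ∈ Icc (0 : ℝ) 1, |s - t| ≤ 1 / N → ∀ P ∈ CP n,
      ∀ x : V n, x ≠ 0 → ap (H (s, P)) x = x → ap (H (t, P)) x ≠ 0 := by
  have huc := (isCompact_Icc.prod CP_compact).uniformContinuousOn_of_continuous hH
  rw [Metric.uniformContinuousOn_iff] at huc
  set C : ℝ := ((n + 1 : ℕ) : ℝ) ^ 2 with hC
  have hC0 : 0 < C := by positivity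
  obtain ⟨δ, hδ, huc⟩ := huc (1 / (2 * C)) (by positivity)
  obtain ⟨N, hN⟩ := exists_nat_gt (1 / δ)
  have hNp : (0 : ℝ) < N := (by positivity : (0:ℝ) < 1 / δ).trans hN
  refine ⟨N, by exact_mod_cast hNp, fun s hs t ht hst P hP x hx hsx htx => ?_⟩
  have h1 : dist ((t, P) : ℝ × Mat n) (s, P) < δ := by
    have h2 : dist ((t, P) : ℝ × Mat n) (s, P) = dist t s := by
      rw [Prod.dist_eq]
      exact max_eq_left (by rw [dist_self]; exact dist_nonneg)
    rw [h2, Real.dist_eq, abs_sub_comm]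
    refine hst.trans_lt ?_
    rw [div_lt_iff₀ hNp]
    rw [div_lt_iff₀ hδ] at hN
    linarith
  have h3 := huc (t, P) ⟨ht, hP⟩ (s, P) ⟨hs, hP⟩ h1
  rw [dist_eq_norm] at h3
  have h4 := ap_bound (H (t, P) - H (s, P)) x
  rw [← ap_sub_left, hsx, htx, zero_sub, norm_neg, ← hC] at h4
  have hxp : 0 < ‖x‖ := norm_pos_iff.2 hx
  have h5 : C * ‖H (t, P) - H (s, P)‖ < 1 / 2 := by
    calc C * ‖H (t, P) - H (s, P)‖ < C * (1 / (2 * C)) := mul_lt_mul_of_pos_left h3 hC0
      _ = 1 / 2 := by field_simp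
  nlinarith

/-- the successive projections -/
def gs (T : ℕ → Mat n → Mat n) : ℕ → V n → V n
  | 0 => fun v => v
  | j + 1 => fun v => ap (T (j + 1) (line v)) (gs T j v)

lemma gs_hom (T : ℕ → Mat n → Mat n) (j : ℕ) (c : ℂ) (v : V n) :
    gs T j (c • v) = c • gs T j v := by
  by_cases hc : c = 0
  · have h0 : ∀ j, gs T j (0 : V n) = 0 := by
      intro j
      induction j with
      | zero => rfl
      | succ j ih =>
        show ap _ (gs T j 0) = 0
        rw [ih, ap_zero]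
    rw [hc, zero_smul, zero_smul, h0]
  · induction j with
    | zero => rfl
    | succ j ih =>
      show ap (T (j + 1) (line (c • v))) (gs T j (c • v)) = c • ap (T (j + 1) (line v)) (gs T j v)
      rw [line_smul v hc, ih, ap_smul]

lemma ap_line_self {v : V n} (hv : v ≠ 0) : ap (line v) v = v := by
  rw [← line_nz hv, ap_line (nz_unit hv)]
  have := Pool.Agent.H13.Wig.pr_nz hv (c := 1) norm_one
  rwa [one_smul] at this

lemma gs_fix {T : ℕ → Mat n → Mat n} (hT : ∀ j, ∀ P ∈ CP n, T j P ∈ CP n)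
    (hT0 : ∀ P ∈ CP n, T 0 P = P) (j : ℕ) {v : V n} (hv : v ≠ 0) :
    ap (T j (line v)) (gs T j v) = gs T j v := by
  rcases j with _ | j
  · rw [hT0 _ (line_mem hv)]
    exact ap_line_self hv
  · exact ap_idem (hT _ _ (line_mem hv)) _

lemma gs_ne {T : ℕ → Mat n → Mat n} (hT : ∀ j, ∀ P ∈ CP n, T j P ∈ CP n)
    (hT0 : ∀ P ∈ CP n, T 0 P = P) {N : ℕ}
    (hN : ∀ j < N, ∀ P ∈ CP n, ∀ x : V n, x ≠ 0 → ap (T j P) x = x → ap (T (j + 1) P) x ≠ 0)
    {j : ℕ} (hj : j ≤ N) {v : V n} (hv : v ≠ 0) : gs T j v ≠ 0 := by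
  induction j with
  | zero => exact hv
  | succ j ih =>
    exact hN j (by omega) _ (line_mem hv) _ (ih (by omega)) (gs_fix hT hT0 j hv)

lemma ap_contOn {X : Type*} [TopologicalSpace X] {M : X → Mat n} {x : X → V n} {S : Set X}
    (hM : ContinuousOn M S) (hx : ContinuousOn x S) : ContinuousOn (fun a => ap (M a) (x a)) S := by
  unfold ap
  refine continuousOn_finsetSum _ fun j _ => ?_
  have h1 : ContinuousOn (fun a => x a j) S := (coord_cont j).comp_continuousOn hx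
  have h2 : ContinuousOn (fun a => col j (M a)) S := (col_smooth j).continuous.comp_continuousOn hM
  exact h1.smul h2

lemma ap_smooth {E : Type*} [NormedAddCommGroup E] [NormedSpace ℝ E] {M : E → Mat n} {x : E → V n}
    {S : Set E} (hM : ContDiffOn ℝ ∞ M S) (hx : ContDiffOn ℝ ∞ x S) :
    ContDiffOn ℝ ∞ (fun a => ap (M a) (x a)) S := by
  unfold ap
  refine ContDiffOn.sum fun j _ => ?_
  have h1 : ContDiffOn ℝ ∞ (fun a => x a j) S := (coord_smooth j).comp_contDiffOn hx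
  have h2 : ContDiffOn ℝ ∞ (fun a => col j (M a)) S := (col_smooth j).comp_contDiffOn hM
  exact h1.smul h2

lemma gs_cont {T : ℕ → Mat n → Mat n} (hTc : ∀ j, ContinuousOn (T j) (CP n)) (j : ℕ) :
    ContinuousOn (gs T j) {0}ᶜ := by
  induction j with
  | zero => exact continuousOn_id
  | succ j ih =>
    exact ap_contOn ((hTc (j + 1)).comp line_contOn fun v hv => line_mem hv) ih

lemma line_smoothOn : ContDiffOn ℝ ∞ (line : V n → Mat n) {0}ᶜ :=
  fun _ hv => (line_smooth hv).contDiffWithinAt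

lemma gs_smooth {T : ℕ → Mat n → Mat n} (hTs : ∀ j, ContDiff ℝ ∞ (T j)) (j : ℕ) :
    ContDiffOn ℝ ∞ (gs T j) {0}ᶜ := by
  induction j with
  | zero => exact contDiffOn_id
  | succ j ih => exact ap_smooth ((hTs (j + 1)).comp_contDiffOn line_smoothOn) ih

/-- **smooth lifts**: a smooth map homotopic to the identity has a smooth homogeneous lift -/
theorem exists_lift {φ : Mat n → Mat n} (hφs : ContDiff ℝ ∞ φ) {H : ℝ × Mat n → Mat n}
    (hH : ContinuousOn H (Icc (0 : ℝ) 1 ×ˢ CP n))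
    (hHm : ∀ t ∈ Icc (0 : ℝ) 1, ∀ P ∈ CP n, H (t, P) ∈ CP n) (h0 : ∀ P ∈ CP n, H (0, P) = P)
    (h1 : ∀ P ∈ CP n, H (1, P) = φ P) (hφ : ∀ P ∈ CP n, φ P ∈ CP n) :
    ∃ F : V n → V n, Hm F ∧ (∀ v, v ≠ 0 → F v ≠ 0) ∧ ∀ v, v ≠ 0 → φ (line v) = line (F v) := by
  obtain ⟨N, hN0, hN⟩ := exists_partition hH
  have hNp : (0 : ℝ) < N := by exact_mod_cast hN0
  set T : ℕ → Mat n → Mat n := fun j P => H (min ((j : ℝ) / N) 1, P) with hT
  have hmem : ∀ j : ℕ, min ((j : ℝ) / N) 1 ∈ Icc (0 : ℝ) 1 := fun j =>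
    ⟨le_min (by positivity) zero_le_one, min_le_right _ _⟩
  have hTm : ∀ j, ∀ P ∈ CP n, T j P ∈ CP n := fun j P hP => hHm _ (hmem j) P hP
  have hT0 : ∀ P ∈ CP n, T 0 P = P := by
    intro P hP
    show H (min (((0 : ℕ) : ℝ) / N) 1, P) = P
    rw [Nat.cast_zero, zero_div, min_eq_left zero_le_one, h0 P hP]
  have hTN : ∀ P ∈ CP n, T N P = φ P := by
    intro P hP
    show H (min ((N : ℝ) / N) 1, P) = φ P
    rw [div_self hNp.ne', min_self, h1 P hP]
  have hstep : ∀ j < N, ∀ P ∈ CP n, ∀ x : V n, x ≠ 0 → ap (T j P) x = x →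
      ap (T (j + 1) P) x ≠ 0 := by
    intro j hj P hP
    refine hN _ (hmem j) _ (hmem (j + 1)) ?_ P hP
    have hj1 : ((j : ℝ)) / N ≤ 1 := by
      rw [div_le_one hNp]
      exact_mod_cast hj.le
    have hj2 : (((j + 1 : ℕ)) : ℝ) / N ≤ 1 := by
      rw [div_le_one hNp]
      exact_mod_cast hj
    rw [min_eq_left hj1, min_eq_left hj2]
    have : (j : ℝ) / N - ((j + 1 : ℕ) : ℝ) / N = -(1 / N) := by
      push_cast
      ring
    rw [this, abs_neg, abs_of_pos (by positivity)]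
  have hTc : ∀ j, ContinuousOn (T j) (CP n) := by
    intro j
    exact hH.comp (continuous_const.prodMk continuous_id).continuousOn fun P hP => ⟨hmem j, hP⟩
  set G : V n → V n := gs T N with hG
  have hGhom : ∀ (c : ℂ) v, G (c • v) = c • G v := gs_hom T N
  have hGne : ∀ v, v ≠ 0 → G v ≠ 0 := fun v hv => gs_ne hTm hT0 hstep le_rfl hv
  have hGfix : ∀ v, v ≠ 0 → ap (φ (line v)) (G v) = G v := by
    intro v hv
    rw [← hTN _ (line_mem hv)]
    exact gs_fix hTm hT0 N hv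
  have hr : ∀ (r : ℝ) (v : V n), r • v = ((r : ℂ)) • v := fun r v => (Complex.coe_smul r v).symm
  have hGc : Continuous G := hom_continuous (gs_cont hTc N) fun r _ v => by rw [hr, hr, hGhom]
  -- the minimum of the norm
  obtain ⟨v₀, hv₀⟩ := exists_unit n
  obtain ⟨x₀, hx₀, hmin⟩ := (isCompact_sphere (0 : V n) 1).exists_isMinOn
    ⟨v₀, by rwa [mem_sphere_zero_iff_norm]⟩ hGc.norm.continuousOn
  rw [mem_sphere_zero_iff_norm] at hx₀
  have hm0 : 0 < ‖G x₀‖ := norm_pos_iff.2 (hGne _ (unit_ne hx₀))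
  have hm : ∀ v, ‖v‖ = 1 → ‖G x₀‖ ≤ ‖G v‖ := fun v hv =>
    isMinOn_iff.1 hmin v (by rwa [mem_sphere_zero_iff_norm])
  obtain ⟨p, hp⟩ := TT_close hGc hGhom (ε := ‖G x₀‖ / 2) (by linarith)
  set c : Coef n p := (mu n p)⁻¹ • ct p G with hc
  set Q : V n → V n := nrm p (pm c) with hQ
  have hQH : Hm Q := nrm_pm_hm c
  have hQv : ∀ v, ‖v‖ = 1 → ‖Q v - G v‖ ≤ ‖G x₀‖ / 2 := by
    intro v hv
    have h2 := hp p le_rfl v hv
    have h3 : Q v = (mu n p)⁻¹ • TT p G v := by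
      rw [hQ]
      unfold nrm
      rw [hv, one_pow, inv_one, one_smul, hc, TT_eq_pm p hGc, pm_smul]
    rwa [h3]
  set F : V n → V n := fun v => ap (φ (line v)) (Q v) with hF
  have hFhom : ∀ (c : ℂ) v, F (c • v) = c • F v := by
    intro c v
    by_cases hc : c = 0
    · rw [hc, zero_smul, zero_smul]
      show ap _ (Q 0) = 0
      rw [hQH.zero, ap_zero]
    · show ap (φ (line (c • v))) (Q (c • v)) = c • ap (φ (line v)) (Q v)
      rw [line_smul v hc, hQH.hom, ap_smul]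
  have hFs : ContDiffOn ℝ ∞ F {0}ᶜ := ap_smooth (hφs.comp_contDiffOn line_smoothOn) hQH.smooth
  have hFunit : ∀ v, ‖v‖ = 1 → F v ≠ 0 := by
    intro v hv h2
    have hv0 := unit_ne hv
    have h3 : ‖F v - G v‖ ≤ ‖G x₀‖ / 2 := by
      have h4 : F v - G v = ap (φ (line v)) (Q v - G v) := by
        rw [← ap_sub_right, hGfix v hv0]
      rw [h4]
      exact (ap_norm_le (hφ _ (line_mem hv0)) _).trans (hQv v hv)
    rw [h2, zero_sub, norm_neg] at h3
    have := hm v hv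
    linarith
  have hFne : ∀ v, v ≠ 0 → F v ≠ 0 := by
    intro v hv h2
    apply hFunit (nz v) (nz_unit hv)
    show F (((‖v‖⁻¹ : ℝ) : ℂ) • v) = 0
    rw [hFhom, h2, smul_zero]
  refine ⟨F, ⟨hFs, hFhom⟩, hFne, fun v hv => ?_⟩
  exact (line_of_fix (hφ _ (line_mem hv)) (hFne v hv) (ap_idem (hφ _ (line_mem hv)) _)).symm

end Pool.Agent.H13.Pol
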