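import Pool.Agent.H13.Pol.Path

/-!
# Logarithms of functions on the projective space
-/

set_option autoImplicit false

open Set Filter Topology Metric Function MeasureTheory
open scoped ContDiff

noncomputable section

namespace Pool.Agent.H13.Pol

open Pool.Agent.Q196.NP (V Mat CP line col line_mem line_smul col_line col_smooth exists_line
  line_smooth lift_der HD U1)
open Pool.Agent.H13.Gap (hom_continuous hasF euler)
open Pool.Agent.H13.Wig (ap ap_zero ap_smul ap_line nz nz_unit line_nz pr norm_pr inner_pr)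

variable {n : ℕ}

/-- the base vector -/
def e0 (n : ℕ) : V n := EuclideanSpace.single 0 1

/-- the remainder after projection to the base vector -/
def rm (v : V n) : V n := v - (v 0) • e0 n

lemma e0_zero : (e0 n) 0 = 1 := by simp [e0]

lemma rm_cont : Continuous (rm : V n → V n) :=
  continuous_id.sub ((coord_cont 0).smul continuous_const)

lemma rm_smul (c : ℂ) (v : V n) : rm (c • v) = c • rm v := by
  unfold rm
  have : (c • v) 0 = c * v 0 := rfl
  rw [this, smul_sub, smul_smul]

/-- the complement of the negative ray -/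
def SS (n : ℕ) : Set (V n) := {v | rm v ≠ 0} ∪ {v | v 0 ∈ Complex.slitPlane}

lemma SS_open : IsOpen (SS n) :=
  (isOpen_ne_fun rm_cont continuous_const).union
    (Complex.isOpen_slitPlane.preimage (coord_cont 0))

lemma SS_ne {v : V n} (hv : v ∈ SS n) : v ≠ 0 := by
  rintro rfl
  rcases hv with h | h
  · apply h
    have := rm_smul 0 (0 : V n)
    rwa [zero_smul, zero_smul] at this
  · exact Complex.slitPlane_ne_zero h rfl

lemma SS_star : StarConvex ℝ (e0 n) (SS n) := by
  intro v hv a b ha hb hab
  have h1 : (a • e0 n + b • v) 0 = a • (1 : ℂ) + b • v 0 := by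
    show a • (e0 n) 0 + b • v 0 = _
    rw [e0_zero]
  have h2 : rm (a • e0 n + b • v) = b • rm v := by
    unfold rm
    rw [h1]
    have e1 : (a • (1 : ℂ) + b • v 0) • e0 n = a • e0 n + b • (v 0 • e0 n) := by
      rw [add_smul, smul_assoc, smul_assoc, one_smul]
    rw [e1, smul_sub]
    abel
  rcases hb.eq_or_lt with h0 | hb'
  · right
    show (a • e0 n + b • v) 0 ∈ Complex.slitPlane
    have ha1 : a = 1 := by linarith
    rw [h1, ← h0, ha1, one_smul, zero_smul, add_zero]
    exact Complex.one_mem_slitPlane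
  rcases hv with h | h
  · left
    show rm (a • e0 n + b • v) ≠ 0
    rw [h2]
    exact smul_ne_zero hb'.ne' h
  · right
    show (a • e0 n + b • v) 0 ∈ Complex.slitPlane
    rw [h1]
    exact Complex.starConvex_one_slitPlane h ha hb hab

lemma e0_mem : e0 n ∈ SS n := by
  right
  show (e0 n) 0 ∈ Complex.slitPlane
  rw [e0_zero]
  exact Complex.one_mem_slitPlane

lemma exists_log_SS {h : V n → ℂ} (hh : ContinuousOn h (SS n)) (h0 : ∀ v ∈ SS n, h v ≠ 0) :
    ∃ ℓ : V n → ℂ, ContinuousOn ℓ (SS n) ∧ ∀ v ∈ SS n, Complex.exp (ℓ v) = h v := by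
  have : ContractibleSpace (SS n) := SS_star.contractibleSpace ⟨_, e0_mem⟩
  have : LocallyPathConnectedSpace (SS n) := SS_open.locallyPathConnectedSpace
  let f : C(SS n, {z : ℂ // z ≠ 0}) := ⟨fun v => ⟨h v, h0 v v.2⟩, by
    exact Continuous.subtype_mk (continuousOn_iff_continuous_domRestrict.1 hh) _⟩
  obtain ⟨F, ⟨-, hF⟩, -⟩ := Complex.isCoveringMap_exp.existsUnique_continuousMap_lifts f
    ⟨e0 n, e0_mem⟩ (Complex.log (h (e0 n))) (by
      apply Subtype.ext
      exact Complex.exp_log (h0 _ e0_mem))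
  classical
  refine ⟨fun v => if hv : v ∈ SS n then F ⟨v, hv⟩ else 0, ?_, ?_⟩
  · rw [continuousOn_iff_continuous_domRestrict]
    have : (SS n).domRestrict (fun v => if hv : v ∈ SS n then F ⟨v, hv⟩ else 0) = F := by
      funext v
      show (if hv : (v : V n) ∈ SS n then F ⟨v, hv⟩ else 0) = F v
      rw [dif_pos v.2]
    rw [this]
    exact F.continuous
  · intro v hv
    have h1 := congrFun hF ⟨v, hv⟩
    have h2 := congrArg Subtype.val h1
    simp only [hv, dite_true]
    exact h2

lemma const_of_exp {X : Type*} [TopologicalSpace X] {s : Set X} (hs : IsPreconnected s)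
    {g : X → ℂ} (hg : ContinuousOn g s) {w : ℂ} (hw : ∀ a ∈ s, Complex.exp (g a) = w) {a b : X}
    (ha : a ∈ s) (hb : b ∈ s) : g a = g b := by
  refine Complex.isCoveringMap_exp.constOn_of_comp hs hg ?_ ha hb
  intro x hx y hy
  apply Subtype.ext
  show Complex.exp (g x) = Complex.exp (g y)
  rw [hw x hx, hw y hy]

/-- **logarithms** of non vanishing functions on the projective space -/
theorem exists_log {h : V n → ℂ} (hh : ContDiffOn ℝ ∞ h {0}ᶜ) (h0 : ∀ v, v ≠ 0 → h v ≠ 0)
    (hinv : ∀ (c : ℂ) v, c ≠ 0 → v ≠ 0 → h (c • v) = h v) :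
    ∃ ℓ : V n → ℂ, ContDiffOn ℝ ∞ ℓ {0}ᶜ ∧ (∀ v, v ≠ 0 → Complex.exp (ℓ v) = h v) ∧
      ∀ (c : ℂ) v, c ≠ 0 → v ≠ 0 → ℓ (c • v) = ℓ v := by
  have hsub : SS n ⊆ {0}ᶜ := fun v hv => SS_ne hv
  obtain ⟨k, hkc, hke⟩ := exists_log_SS (hh.continuousOn.mono hsub) fun v hv => h0 v (SS_ne hv)
  -- invariance off the base line
  have hinv1 : ∀ v : V n, rm v ≠ 0 → ∀ c : ℂ, c ≠ 0 → k (c • v) = k v := by
    intro v hv c hc
    have hv0 : v ≠ 0 := SS_ne (Or.inl hv)
    have hm : ∀ a : ℂ, a ∈ ({0}ᶜ : Set ℂ) → a • v ∈ SS n := by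
      intro a ha
      left
      show rm (a • v) ≠ 0
      rw [rm_smul]
      exact smul_ne_zero ha hv
    have hpc : IsPreconnected ({0}ᶜ : Set ℂ) :=
      (isConnected_compl_singleton_of_one_lt_rank (by
        rw [Complex.rank_real_complex]; norm_num) 0).isPreconnected
    have h1 : ContinuousOn (fun a : ℂ => k (a • v)) {0}ᶜ :=
      hkc.comp (continuous_id.smul continuous_const).continuousOn hm
    have h2 := const_of_exp hpc h1 (w := h v) (by
      intro a ha
      show Complex.exp (k (a • v)) = h v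
      rw [hke _ (hm a ha), hinv a v ha hv0]) (a := c) (b := 1) hc one_ne_zero
    simpa using h2
  -- on the base line
  have hinv2 : ∀ a : ℂ, a ∈ Complex.slitPlane → k (a • e0 n) = k (e0 n) := by
    intro a ha
    have hm : ∀ a : ℂ, a ∈ Complex.slitPlane → a • e0 n ∈ SS n := by
      intro a ha
      right
      show a * (e0 n) 0 ∈ Complex.slitPlane
      rwa [e0_zero, mul_one]
    have hpc : IsPreconnected Complex.slitPlane :=
      (Complex.starConvex_one_slitPlane.isPathConnected Complex.one_mem_slitPlane).isConnected.isPreconnected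
    have h1 : ContinuousOn (fun a : ℂ => k (a • e0 n)) Complex.slitPlane :=
      hkc.comp (continuous_id.smul continuous_const).continuousOn hm
    have h2 := const_of_exp hpc h1 (w := h (e0 n)) (by
      intro a ha
      show Complex.exp (k (a • e0 n)) = h (e0 n)
      rw [hke _ (hm a ha), hinv a _ (Complex.slitPlane_ne_zero ha) (SS_ne e0_mem)])
      (a := a) (b := 1) ha Complex.one_mem_slitPlane
    simpa using h2
  classical
  set ℓ : V n → ℂ := fun v => if rm v = 0 then k (e0 n) else k v with hℓ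
  have hform : ∀ v ∈ SS n, ℓ v = k v := by
    intro v hv
    by_cases h1 : rm v = 0
    · have h2 : v = v 0 • e0 n := sub_eq_zero.1 h1
      have h3 : v 0 ∈ Complex.slitPlane := by
        rcases hv with h | h
        · exact absurd h1 h
        · exact h
      have h4 : k v = k (e0 n) := by
        rw [h2]
        exact hinv2 _ h3
      simp only [hℓ, h1, if_true, h4]
    · simp only [hℓ, h1, if_false]
  have hℓinv : ∀ (c : ℂ) v, c ≠ 0 → v ≠ 0 → ℓ (c • v) = ℓ v := by
    intro c v hc hv
    by_cases h1 : rm v = 0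
    · have h2 : rm (c • v) = 0 := by rw [rm_smul, h1, smul_zero]
      simp only [hℓ, h1, h2, if_true]
    · have h2 : rm (c • v) ≠ 0 := by
        rw [rm_smul]
        exact smul_ne_zero hc h1
      simp only [hℓ, h1, h2, if_false]
      exact hinv1 v h1 c hc
  have hcov : ∀ v : V n, v ≠ 0 → v ∈ SS n ∨ -v ∈ SS n := by
    intro v hv
    by_cases h1 : rm v = 0
    · have h2 : v = v 0 • e0 n := sub_eq_zero.1 h1
      have h3 : v 0 ≠ 0 := by
        intro h
        apply hv
        rw [h2, h, zero_smul]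
      by_cases h4 : v 0 ∈ Complex.slitPlane
      · exact Or.inl (Or.inr h4)
      · right
        right
        show -(v 0) ∈ Complex.slitPlane
        rw [Complex.mem_slitPlane_iff] at h4 ⊢
        push Not at h4
        left
        rcases h4.1.lt_or_eq with h5 | h5
        · simpa using h5
        · exact absurd (Complex.ext h5 h4.2) h3
    · exact Or.inl (Or.inl h1)
  have hneg : ∀ v : V n, v ≠ 0 → ℓ (-v) = ℓ v := by
    intro v hv
    have := hℓinv (-1) v (by norm_num) hv
    rwa [neg_one_smul] at this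
  have hexp : ∀ v, v ≠ 0 → Complex.exp (ℓ v) = h v := by
    intro v hv
    rcases hcov v hv with h1 | h1
    · rw [hform v h1, hke v h1]
    · rw [← hneg v hv, hform _ h1, hke _ h1]
      have := hinv (-1) v (by norm_num) hv
      rwa [neg_one_smul] at this
  have hcontSS : ContinuousOn ℓ (SS n) := hkc.congr hform
  have hcont : ∀ v, v ≠ 0 → ContinuousAt ℓ v := by
    intro v hv
    rcases hcov v hv with h1 | h1
    · exact hcontSS.continuousAt (SS_open.mem_nhds h1)
    · have h2 : ContinuousAt ℓ (-v) := hcontSS.continuousAt (SS_open.mem_nhds h1)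
      have h3 : ContinuousAt (fun w => ℓ (-w)) v :=
        ContinuousAt.comp (g := ℓ) (f := fun w : V n => -w) h2 continuous_neg.continuousAt
      refine h3.congr ?_
      filter_upwards [isOpen_compl_singleton.mem_nhds hv] with w hw
      exact hneg w hw
  refine ⟨ℓ, ?_, hexp, hℓinv⟩
  intro v hv
  refine ContDiffAt.contDiffWithinAt ?_
  have hv' : v ≠ 0 := hv
  have h1 : ∀ᶠ w in 𝓝 v, ‖ℓ w - ℓ v‖ < 1 := by
    have := (hcont v hv').sub (continuousAt_const (y := ℓ v))
    have h2 := this.norm
    have h3 : ‖ℓ v - ℓ v‖ < 1 := by simp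
    exact h2.eventually (gt_mem_nhds h3)
  have h2 : ℓ =ᶠ[𝓝 v] fun w => ℓ v + Complex.log (h w / h v) := by
    filter_upwards [h1, isOpen_compl_singleton.mem_nhds hv] with w hw hw0
    have h3 : h w / h v = Complex.exp (ℓ w - ℓ v) := by
      rw [Complex.exp_sub, hexp w hw0, hexp v hv']
    have h4 : |(ℓ w - ℓ v).im| < 1 := (Complex.abs_im_le_norm _).trans_lt hw
    rw [abs_lt] at h4
    rw [h3, Complex.log_exp (by linarith [Real.pi_gt_three]) (by linarith [Real.pi_gt_three])]
    ring
  refine ContDiffAt.congr_of_eventuallyEq ?_ h2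
  have h3 : ContDiffAt ℝ ∞ (fun w => h w / h v) v := by
    have h4 : ContDiffAt ℝ ∞ h v := hh.contDiffAt (isOpen_compl_singleton.mem_nhds hv)
    exact h4.div_const _
  have h5 : ContDiffAt ℝ ∞ Complex.log (h v / h v) := by
    rw [div_self (h0 v hv')]
    exact (Complex.contDiffAt_log Complex.one_mem_slitPlane).restrict_scalars ℝ
  exact contDiffAt_const.add (ContDiffAt.comp (g := Complex.log) (f := fun w => h w / h v) v h5 h3)

end Pool.Agent.H13.Pol
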