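import Pool.Agent.H13.Pol.Lift

/-!
# Lifts of isotopies of the projective space
-/

set_option autoImplicit false

open Set Filter Topology Metric Function MeasureTheory
open scoped ContDiff

noncomputable section

namespace Pool.Agent.H13.Pol

open Pool.Agent.Q196.NP (V Mat CP line col line_mem line_smul col_line col_smooth exists_line
  line_smooth lift_der HD U1)
open Pool.Agent.H13.Gap (hom_continuous hasF euler)
open Pool.Agent.H13.Wig (ap ap_zero ap_smul ap_line nz nz_unit line_nz pr norm_pr inner_pr)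

variable {n : ℕ}

lemma nd_of_lift {φ ψ : Mat n → Mat n} (hψs : ContDiff ℝ ∞ ψ) (hψφ : ∀ P ∈ CP n, ψ (φ P) = P)
    {F : V n → V n} (hF : Hm F) (hF0 : ∀ v, v ≠ 0 → F v ≠ 0)
    (hφF : ∀ v, v ≠ 0 → φ (line v) = line (F v)) : Nd F := by
  intro v hv
  obtain ⟨A, hA⟩ := lift_der hψs hψφ hF.hom hF.smooth hF0 hφF hv
  rw [hA.fderiv]
  exact A.injective

/-- **the lift of an isotopy** -/
theorem iso_lift {K : ℝ × Mat n → Mat n} (hK : ContDiff ℝ ∞ K)
    (hKm : ∀ t : ℝ, ∀ P ∈ CP n, K (t, P) ∈ CP n) (h0 : ∀ P ∈ CP n, K (0, P) = P)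
    (hKi : ∀ t : ℝ, ∃ L : Mat n → Mat n, ContDiff ℝ ∞ L ∧
      ∀ P ∈ CP n, L P ∈ CP n ∧ L (K (t, P)) = P ∧ K (t, L P) = P) :
    ∃ G : V n → V n, Hm G ∧ (∀ v, v ≠ 0 → G v ≠ 0) ∧ (∀ v, v ≠ 0 → K (1, line v) = line (G v)) ∧
      Relation.ReflTransGen Sg (fun v => v) G := by
  obtain ⟨N, hN0, hN⟩ := exists_partition (n := n) hK.continuous.continuousOn
  have hNp : (0 : ℝ) < N := by exact_mod_cast hN0
  set T : ℕ → Mat n → Mat n := fun j P => K ((j : ℝ) / N, P) with hT
  have hTm : ∀ j, ∀ P ∈ CP n, T j P ∈ CP n := fun j P hP => hKm _ P hP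
  have hT0 : ∀ P ∈ CP n, T 0 P = P := by
    intro P hP
    show K (((0 : ℕ) : ℝ) / N, P) = P
    rw [Nat.cast_zero, zero_div, h0 P hP]
  have hmem : ∀ j : ℕ, j ≤ N → (j : ℝ) / N ∈ Icc (0 : ℝ) 1 := by
    intro j hj
    refine ⟨by positivity, ?_⟩
    rw [div_le_one hNp]
    exact_mod_cast hj
  have hlen : ∀ j : ℕ, ((j + 1 : ℕ) : ℝ) / N - (j : ℝ) / N = 1 / N := by
    intro j
    push_cast
    ring
  have hstep : ∀ j < N, ∀ P ∈ CP n, ∀ x : V n, x ≠ 0 → ap (T j P) x = x →
      ap (T (j + 1) P) x ≠ 0 := by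
    intro j hj P hP
    refine hN _ (hmem j hj.le) _ (hmem (j + 1) hj) ?_ P hP
    rw [abs_sub_comm, hlen, abs_of_pos (by positivity)]
  have hTs : ∀ j, ContDiff ℝ ∞ (T j) := fun j =>
    hK.comp (contDiff_const.prodMk contDiff_id)
  have hz : ∀ j, gs T j (0 : V n) = 0 := by
    intro j
    have := gs_hom T j 0 (0 : V n)
    rwa [zero_smul, zero_smul] at this
  have hHm : ∀ j, Hm (gs T j) := fun j => ⟨gs_smooth hTs j, gs_hom T j⟩
  have hne : ∀ j ≤ N, ∀ v, v ≠ 0 → gs T j v ≠ 0 := fun j hj v hv => gs_ne hTm hT0 hstep hj hv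
  have hseg : ∀ j < N, Relation.ReflTransGen Sg (gs T j) (gs T (j + 1)) := by
    intro j hj
    set L : ℝ → V n → V n := fun t v => ap (K (t, line v)) (gs T j v) with hL
    have hLs : ContDiffOn ℝ ∞ (uncurry L) (univ ×ˢ {0}ᶜ) := by
      have a1 : ContDiffOn ℝ ∞ (fun p : ℝ × V n => line p.2) (univ ×ˢ {0}ᶜ) :=
        line_smoothOn.comp contDiff_snd.contDiffOn fun p hp => hp.2
      have a2 : ContDiffOn ℝ ∞ (fun p : ℝ × V n => K (p.1, line p.2)) (univ ×ˢ {0}ᶜ) :=
        hK.comp_contDiffOn (contDiff_fst.contDiffOn.prodMk a1)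
      have a3 : ContDiffOn ℝ ∞ (fun p : ℝ × V n => gs T j p.2) (univ ×ˢ {0}ᶜ) :=
        (hHm j).smooth.comp contDiff_snd.contDiffOn fun p hp => hp.2
      exact ap_smooth a2 a3
    have hLhom : ∀ t (c : ℂ) v, L t (c • v) = c • L t v := by
      intro t c v
      by_cases hc : c = 0
      · rw [hc, zero_smul, zero_smul]
        show ap _ (gs T j 0) = 0
        rw [hz, ap_zero]
      · show ap (K (t, line (c • v))) (gs T j (c • v)) = c • ap (K (t, line v)) (gs T j v)
        rw [line_smul v hc, gs_hom, ap_smul]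
    have hLH : ∀ t, Hm (L t) := by
      intro t
      refine ⟨?_, hLhom t⟩
      have h2 : ContDiffOn ℝ ∞ (fun x : V n => uncurry L (t, x)) {0}ᶜ :=
        hLs.comp (contDiff_const.prodMk contDiff_id).contDiffOn fun x hx => ⟨mem_univ _, hx⟩
      exact h2
    have hab : (j : ℝ) / N ≤ ((j + 1 : ℕ) : ℝ) / N := by
      have := hlen j
      have h3 : (0:ℝ) < 1 / N := by positivity
      linarith
    have hN' : ∀ t ∈ Icc ((j : ℝ) / N) (((j + 1 : ℕ) : ℝ) / N), Nd (L t) := by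
      intro t ht
      have ht1 : t ∈ Icc (0 : ℝ) 1 := ⟨(hmem j hj.le).1.trans ht.1, ht.2.trans (hmem (j + 1) hj).2⟩
      obtain ⟨ψ, hψs, hψ⟩ := hKi t
      have hLne : ∀ v, v ≠ 0 → L t v ≠ 0 := by
        intro v hv
        refine hN _ (hmem j hj.le) t ht1 ?_ _ (line_mem hv) _ (hne j hj.le v hv)
          (gs_fix hTm hT0 j hv)
        rw [abs_sub_comm, abs_of_nonneg (by linarith [ht.1])]
        have := hlen j
        linarith [ht.2]
      refine nd_of_lift (φ := fun P => K (t, P)) hψs (fun P hP => (hψ P hP).2.1) (hLH t) hLne ?_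
      intro v hv
      exact (line_of_fix (hKm _ _ (line_mem hv)) (hLne v hv) (ap_idem (hKm _ _ (line_mem hv)) _)).symm
    have hp := polygon_of_path hLs hLhom hab hN'
    have e1 : L ((j : ℝ) / N) = gs T j := by
      funext v
      by_cases hv : v = 0
      · rw [hv, hz]
        show ap _ (gs T j 0) = 0
        rw [hz, ap_zero]
      · exact gs_fix hTm hT0 j hv
    have e2 : L (((j + 1 : ℕ) : ℝ) / N) = gs T (j + 1) := rfl
    rwa [e1, e2] at hp
  have hchain : ∀ j ≤ N, Relation.ReflTransGen Sg (fun v => v) (gs T j) := by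
    intro j
    induction j with
    | zero => intro _; exact Relation.ReflTransGen.refl
    | succ j ih =>
      intro hj
      exact (ih (by omega)).trans (hseg j (by omega))
  refine ⟨gs T N, hHm N, hne N le_rfl, fun v hv => ?_, hchain N le_rfl⟩
  have h1 : K (1, line v) = T N (line v) := by
    show K (1, line v) = K ((N : ℝ) / N, line v)
    rw [div_self hNp.ne']
  rw [h1]
  exact (line_of_fix (hTm _ _ (line_mem hv)) (hne N le_rfl v hv) (gs_fix hTm hT0 N hv)).symm

end Pool.Agent.H13.Pol
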