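import Pool.Agent.H13.Gap.Close

/-!
# Polynomial maps of `ℂ^(n+1)`, homogeneous of bidegree `(D + 1, D)`
-/

set_option autoImplicit false

open Set Filter Topology Metric Function MeasureTheory
open scoped ContDiff

noncomputable section

namespace Pool.Agent.H13.Pol

open Pool.Agent.Q196.NP (V)

variable {n : ℕ}

/-- coefficients of polynomial maps of bidegree `(D + 1, D)` -/
abbrev Coef (n D : ℕ) : Type := (Fin (D + 1) → Fin (n + 1)) → (Fin D → Fin (n + 1)) → V n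

/-- the monomials -/
def mon {D : ℕ} (s : Fin (D + 1) → Fin (n + 1)) (t : Fin D → Fin (n + 1)) (v : V n) : ℂ :=
  (∏ k, v (s k)) * ∏ k, star (v (t k))

/-- the polynomial map with the given coefficients -/
def pm {D : ℕ} (c : Coef n D) (v : V n) : V n := ∑ s, ∑ t, mon s t v • c s t

lemma coord_smooth (i : Fin (n + 1)) : ContDiff ℝ ∞ fun v : V n => v i :=
  Pool.Agent.Q196.NP.coord_smooth i

lemma mon_smooth {D : ℕ} (s : Fin (D + 1) → Fin (n + 1)) (t : Fin D → Fin (n + 1)) :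
    ContDiff ℝ ∞ (mon s t : V n → ℂ) := by
  unfold mon
  refine ContDiff.mul ?_ ?_
  · exact contDiff_prod fun k _ => coord_smooth _
  · exact contDiff_prod fun k _ => Complex.conjCLE.contDiff.comp (coord_smooth _)

lemma pm_smooth {D : ℕ} (c : Coef n D) : ContDiff ℝ ∞ (pm c) :=
  ContDiff.sum fun s _ => ContDiff.sum fun t _ => (mon_smooth s t).smul contDiff_const

lemma mon_hom {D : ℕ} (s : Fin (D + 1) → Fin (n + 1)) (t : Fin D → Fin (n + 1)) (a : ℂ) (v : V n) :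
    mon s t (a • v) = ((‖a‖ ^ (2 * D) : ℝ) : ℂ) * a * mon s t v := by
  unfold mon
  have h1 : ∀ k, (a • v) (s k) = a * v (s k) := fun k => rfl
  have h2 : ∀ k, star ((a • v) (t k)) = star a * star (v (t k)) := fun k => by
    show star (a * v (t k)) = _
    rw [star_mul, mul_comm]
  simp only [h1, h2, Finset.prod_mul_distrib, Finset.prod_const, Finset.card_univ, Fintype.card_fin]
  have h3 : ((‖a‖ ^ (2 * D) : ℝ) : ℂ) = (a * star a) ^ D := by
    have h4 : a * star a = ((‖a‖ ^ 2 : ℝ) : ℂ) := by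
      have h : star a = (starRingEnd ℂ) a := rfl
      rw [h, Complex.mul_conj, Complex.normSq_eq_norm_sq]
    rw [h4, ← Complex.ofReal_pow, ← pow_mul]
  rw [h3, mul_pow]
  ring

lemma pm_hom {D : ℕ} (c : Coef n D) (a : ℂ) (v : V n) :
    pm c (a • v) = (((‖a‖ ^ (2 * D) : ℝ) : ℂ) * a) • pm c v := by
  unfold pm
  rw [Finset.smul_sum]
  refine Finset.sum_congr rfl fun s _ => ?_
  rw [Finset.smul_sum]
  refine Finset.sum_congr rfl fun t _ => ?_
  rw [mon_hom, smul_smul]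

lemma pm_add {D : ℕ} (c d : Coef n D) (v : V n) : pm (c + d) v = pm c v + pm d v := by
  unfold pm
  rw [← Finset.sum_add_distrib]
  refine Finset.sum_congr rfl fun s _ => ?_
  rw [← Finset.sum_add_distrib]
  refine Finset.sum_congr rfl fun t _ => ?_
  rw [← smul_add]
  rfl

lemma pm_smul {D : ℕ} (r : ℝ) (c : Coef n D) (v : V n) : pm (r • c) v = r • pm c v := by
  unfold pm
  rw [Finset.smul_sum]
  refine Finset.sum_congr rfl fun s _ => ?_
  rw [Finset.smul_sum]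
  refine Finset.sum_congr rfl fun t _ => ?_
  show mon s t v • (r • c s t) = r • (mon s t v • c s t)
  rw [smul_comm]

/-- the normalized polynomial map, homogeneous of degree one -/
def nrm (D : ℕ) (G : V n → V n) (v : V n) : V n := (‖v‖ ^ (2 * D))⁻¹ • G v

/-- smooth off the origin and homogeneous -/
structure Hm (F : V n → V n) : Prop where
  smooth : ContDiffOn ℝ ∞ F {0}ᶜ
  hom : ∀ (c : ℂ) v, F (c • v) = c • F v

lemma normpow_smooth (k : ℕ) : ContDiffOn ℝ ∞ (fun v : V n => ‖v‖ ^ k) {0}ᶜ := by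
  intro v hv
  exact ((contDiffAt_norm ℝ (by exact hv)).pow k).contDiffWithinAt

lemma nrm_smooth (D : ℕ) {G : V n → V n} (hG : ContDiffOn ℝ ∞ G {0}ᶜ) :
    ContDiffOn ℝ ∞ (nrm D G) {0}ᶜ := by
  have h1 : ContDiffOn ℝ ∞ (fun v : V n => (‖v‖ ^ (2 * D))⁻¹) {0}ᶜ :=
    (normpow_smooth (2 * D)).inv fun v hv => pow_ne_zero _ (norm_ne_zero_iff.2 hv)
  exact h1.smul hG

lemma nrm_pm_hm {D : ℕ} (c : Coef n D) : Hm (nrm D (pm c)) := by
  refine ⟨nrm_smooth D (pm_smooth c).contDiffOn, fun a v => ?_⟩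
  unfold nrm
  rw [pm_hom, norm_smul, mul_pow]
  by_cases ha : a = 0
  · rw [ha, mul_zero, zero_smul, smul_zero, zero_smul]
  have h1 : (‖a‖ ^ (2 * D) : ℝ) ≠ 0 := pow_ne_zero _ (norm_ne_zero_iff.2 ha)
  have hr : ∀ (r : ℝ) (x : V n), r • x = (r : ℂ) • x := fun r x => (Complex.coe_smul r x).symm
  rw [hr, hr, smul_smul, smul_smul]
  congr 1
  have h2 : ((‖a‖ ^ (2 * D) : ℝ) : ℂ) ≠ 0 := by exact_mod_cast h1
  rw [mul_inv]
  push_cast at h2 ⊢
  field_simp

/-- the differential is injective off the origin -/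
def Nd (F : V n → V n) : Prop := ∀ v, v ≠ 0 → Injective (fderiv ℝ F v)

/-- multiplication by a power of the norm does not change the nondegeneracy -/
lemma nd_normpow {F : V n → V n} (hF : ContDiffOn ℝ ∞ F {0}ᶜ) {m : ℕ} (hm : 0 < m)
    (hom : ∀ r : ℝ, 0 < r → ∀ v, F (r • v) = r ^ m • F v) {g : V n → ℝ} {k : ℝ}
    (hk : (m : ℝ) + k ≠ 0)
    (hg : ∀ v, v ≠ 0 → g v ≠ 0 ∧ ∃ L : V n →L[ℝ] ℝ, HasFDerivAt g L v ∧
      ∀ h, L h = k * g v * (inner ℝ v h : ℝ) / ‖v‖ ^ 2) (hN : Nd F) :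
    Nd (fun v => g v • F v) := by
  intro v hv
  have hFd : HasFDerivAt F (fderiv ℝ F v) v :=
    ((hF.contDiffAt (isOpen_compl_singleton.mem_nhds hv)).differentiableAt (by simp)).hasFDerivAt
  obtain ⟨hg0, L, hL, hLv⟩ := hg v hv
  have hd := hL.smul hFd
  have hFd' : HasFDerivAt (fun v => g v • F v) (g v • fderiv ℝ F v + L.smulRight (F v)) v := hd
  rw [hFd'.fderiv, injective_iff_map_eq_zero]
  intro h hh
  -- Euler
  have heul : (m : ℝ) • F v = fderiv ℝ F v v := by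
    have h1 : HasDerivAt (fun r : ℝ => r • v) v 1 := by
      have := (hasDerivAt_id (1:ℝ)).smul_const v
      simpa using this
    have h2 : HasDerivAt (fun r : ℝ => F (r • v)) (fderiv ℝ F v v) 1 := by
      have h3 : HasFDerivAt F (fderiv ℝ F v) ((1:ℝ) • v) := by rwa [one_smul]
      exact h3.comp_hasDerivAt (1:ℝ) h1
    have h4 : HasDerivAt (fun r : ℝ => r ^ m • F v) ((m : ℝ) • F v) 1 := by
      have := (hasDerivAt_pow m (1:ℝ)).smul_const (F v)
      simpa using this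
    have h5 : (fun r : ℝ => F (r • v)) =ᶠ[𝓝 1] fun r : ℝ => r ^ m • F v := by
      filter_upwards [lt_mem_nhds (zero_lt_one' ℝ)] with r hr
      exact hom r hr v
    exact (h4.congr_of_eventuallyEq h5).unique h2
  have hv2 : ‖v‖ ^ 2 ≠ 0 := pow_ne_zero 2 (norm_ne_zero_iff.2 hv)
  have hm0 : (m : ℝ) ≠ 0 := by exact_mod_cast hm.ne'
  have hh' : g v • fderiv ℝ F v h + L h • F v = 0 := hh
  have hFv : F v = (m : ℝ)⁻¹ • fderiv ℝ F v v := by
    rw [← heul, smul_smul, inv_mul_cancel₀ hm0, one_smul]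
  rw [hFv, ← map_smul, ← map_smul, ← map_smul, ← map_add] at hh'
  have h0 := (injective_iff_map_eq_zero _).1 (hN v hv) _ hh'
  -- `h` is a multiple of `v`
  obtain ⟨α, hα⟩ : ∃ α : ℝ, h = α • v := by
    refine ⟨-((g v)⁻¹ * (L h * (m : ℝ)⁻¹)), ?_⟩
    have h1 : g v • h = -((L h * (m:ℝ)⁻¹) • v) := by
      rw [smul_smul] at h0
      exact eq_neg_of_add_eq_zero_left h0
    calc h = (g v)⁻¹ • (g v • h) := by rw [smul_smul, inv_mul_cancel₀ hg0, one_smul]
      _ = (g v)⁻¹ • -((L h * (m:ℝ)⁻¹) • v) := congrArg _ h1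
      _ = _ := by rw [smul_neg, smul_smul, neg_smul]
  have hLh : L h = k * g v * α := by
    rw [hLv, hα, inner_smul_right, real_inner_self_eq_norm_sq]
    field_simp
  rw [hLh, hα, smul_smul, smul_smul, ← add_smul] at h0
  rcases smul_eq_zero.1 h0 with h1 | h1
  · have h2 : g v * α * ((m : ℝ) + k) = 0 := by
      field_simp at h1
      linarith
    have h3 : α = 0 := by
      rcases mul_eq_zero.1 h2 with h3 | h3
      · rcases mul_eq_zero.1 h3 with h4 | h4
        · exact absurd h4 hg0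
        · exact h4
      · exact absurd h3 hk
    rw [hα, h3, zero_smul]
  · exact absurd h1 hv

lemma normpow_deriv (k : ℕ) {v : V n} (hv : v ≠ 0) : ∃ L : V n →L[ℝ] ℝ,
    HasFDerivAt (fun v : V n => ‖v‖ ^ (2 * k)) L v ∧
      ∀ h, L h = ((2 * k : ℕ) : ℝ) * ‖v‖ ^ (2 * k) * (inner ℝ v h : ℝ) / ‖v‖ ^ 2 := by
  have h1 : HasFDerivAt (fun x : V n => ‖x‖ ^ 2) (2 • (innerSL ℝ v)) v :=
    (hasStrictFDerivAt_norm_sq v).hasFDerivAt
  have h2 := h1.pow k
  refine ⟨_, (h2.congr_of_eventuallyEq (Eventually.of_forall fun x => ?_)), fun h => ?_⟩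
  · show ‖x‖ ^ (2 * k) = (‖x‖ ^ 2) ^ k
    rw [pow_mul]
  · show (k • (‖v‖ ^ 2) ^ (k - 1)) • (2 • (inner ℝ v h : ℝ)) = _
    have hv2 : ‖v‖ ^ 2 ≠ 0 := pow_ne_zero 2 (norm_ne_zero_iff.2 hv)
    rcases k with _ | k
    · simp
    · rw [pow_mul, Nat.add_sub_cancel, pow_succ]
      simp only [smul_eq_mul, nsmul_eq_mul]
      push_cast
      field_simp
      ring

end Pool.Agent.H13.Pol
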