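import Pool.Agent.H13.Pol.Approx

/-!
# Segments and polygons of homogeneous maps
-/

set_option autoImplicit false

open Set Filter Topology Metric Function MeasureTheory
open scoped ContDiff

noncomputable section

namespace Pool.Agent.H13.Pol

open Pool.Agent.Q196.NP (V)
open Pool.Agent.H13.Gap (hom_continuous hasF euler)

variable {n : ℕ}

/-- the segment between two maps -/
def sg (F G : V n → V n) (τ : ℝ) (v : V n) : V n := (1 - τ) • F v + τ • G v

lemma sg_hm {F G : V n → V n} (hF : Hm F) (hG : Hm G) (τ : ℝ) : Hm (sg F G τ) := by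
  have h1 : ContDiffOn ℝ ∞ (fun v => (1 - τ) • F v) {0}ᶜ := hF.smooth.const_smul (1 - τ)
  have h2 : ContDiffOn ℝ ∞ (fun v => τ • G v) {0}ᶜ := hG.smooth.const_smul τ
  refine ⟨h1.add h2, fun c v => ?_⟩
  show (1 - τ) • F (c • v) + τ • G (c • v) = c • ((1 - τ) • F v + τ • G v)
  rw [hF.hom, hG.hom, smul_add, smul_comm (1 - τ) c, smul_comm τ c]

lemma sg_fderiv {F G : V n → V n} (hF : Hm F) (hG : Hm G) (τ : ℝ) {v : V n} (hv : v ≠ 0)
    (h : V n) : fderiv ℝ (sg F G τ) v h = (1 - τ) • fderiv ℝ F v h + τ • fderiv ℝ G v h := by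
  have h1 := ((hasF hF.smooth hv).const_smul (1 - τ)).add ((hasF hG.smooth hv).const_smul τ)
  have h2 : HasFDerivAt (sg F G τ) ((1 - τ) • fderiv ℝ F v + τ • fderiv ℝ G v) v := h1
  rw [h2.fderiv]
  rfl

/-- all the maps of the segment are nondegenerate -/
def Seg (F G : V n → V n) : Prop := ∀ τ ∈ Icc (0 : ℝ) 1, Nd (sg F G τ)

/-- a lower bound for the differentials of the segment -/
def SegLow (m : ℝ) (F G : V n → V n) : Prop := ∀ τ ∈ Icc (0 : ℝ) 1, ∀ v, ‖v‖ = 1 → ∀ h,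
  m * ‖h‖ ≤ ‖(1 - τ) • fderiv ℝ F v h + τ • fderiv ℝ G v h‖

lemma unit_ne {v : V n} (hv : ‖v‖ = 1) : v ≠ 0 := by
  intro h0
  rw [h0, norm_zero] at hv
  exact zero_ne_one hv

lemma exists_unit (n : ℕ) : ∃ v : V n, ‖v‖ = 1 := ⟨EuclideanSpace.single 0 1, by simp⟩

lemma fderiv_contOn {F : V n → V n} (hF : Hm F) : ContinuousOn (fderiv ℝ F) {0}ᶜ :=
  hF.smooth.continuousOn_fderiv_of_isOpen isOpen_compl_singleton (by simp)

lemma nd_of_low {F : V n → V n} (hF : Hm F) {m : ℝ} (hm : 0 < m)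
    (h : ∀ v, ‖v‖ = 1 → ∀ h, m * ‖h‖ ≤ ‖fderiv ℝ F v h‖) : Nd F := by
  intro v hv
  rw [injective_iff_map_eq_zero]
  intro u hu
  have hvp : 0 < ‖v‖ := norm_pos_iff.2 hv
  set c : ℂ := ((‖v‖⁻¹ : ℝ) : ℂ) with hc
  have hc0 : c ≠ 0 := by
    rw [hc]
    exact_mod_cast inv_ne_zero hvp.ne'
  have hcn : ‖c‖ = ‖v‖⁻¹ := by
    rw [hc, Complex.norm_real, Real.norm_of_nonneg (inv_pos.2 hvp).le]
  have h1 := hF.fderiv_smul hc0 hv u
  rw [hu, smul_zero] at h1
  have h2 := h (c • v) (by rw [norm_smul, hcn, inv_mul_cancel₀ hvp.ne']) (c • u)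
  rw [h1, norm_zero] at h2
  have h3 : ‖c • u‖ ≤ 0 := by
    by_contra h4
    push Not at h4
    nlinarith
  have h4 := norm_le_zero_iff.1 h3
  rcases smul_eq_zero.1 h4 with h5 | h5
  · exact absurd h5 hc0
  · exact h5

lemma seg_of_low {F G : V n → V n} (hF : Hm F) (hG : Hm G) {m : ℝ} (hm : 0 < m)
    (h : SegLow m F G) : Seg F G := by
  intro τ hτ
  refine nd_of_low (sg_hm hF hG τ) hm fun v hv u => ?_
  rw [sg_fderiv hF hG τ (unit_ne hv)]
  exact h τ hτ v hv u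

lemma low_of_seg {F G : V n → V n} (hF : Hm F) (hG : Hm G) (h : Seg F G) :
    ∃ m : ℝ, 0 < m ∧ SegLow m F G := by
  set K : Set (ℝ × V n × V n) := Icc (0 : ℝ) 1 ×ˢ (sphere (0 : V n) 1 ×ˢ sphere (0 : V n) 1) with hK
  have hKc : IsCompact K := isCompact_Icc.prod ((isCompact_sphere _ _).prod (isCompact_sphere _ _))
  obtain ⟨v₀, hv₀⟩ := exists_unit n
  have hv₀' : v₀ ∈ sphere (0 : V n) 1 := by rwa [mem_sphere_zero_iff_norm]
  have hKn : K.Nonempty := ⟨(0, v₀, v₀), ⟨⟨le_rfl, zero_le_one⟩, hv₀', hv₀'⟩⟩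
  have hcont : ContinuousOn (fun x : ℝ × V n × V n =>
      ‖(1 - x.1) • fderiv ℝ F x.2.1 x.2.2 + x.1 • fderiv ℝ G x.2.1 x.2.2‖) K := by
    have hmap : MapsTo (fun x : ℝ × V n × V n => x.2.1) K {0}ᶜ := by
      rintro ⟨τ, v, u⟩ ⟨-, hv, -⟩ h0
      rw [mem_sphere_zero_iff_norm] at hv
      exact unit_ne hv h0
    have a1 : ContinuousOn (fun x : ℝ × V n × V n => fderiv ℝ F x.2.1 x.2.2) K :=
      ((fderiv_contOn hF).comp (continuous_fst.comp continuous_snd).continuousOn hmap).clm_apply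
        (continuous_snd.comp continuous_snd).continuousOn
    have a2 : ContinuousOn (fun x : ℝ × V n × V n => fderiv ℝ G x.2.1 x.2.2) K :=
      ((fderiv_contOn hG).comp (continuous_fst.comp continuous_snd).continuousOn hmap).clm_apply
        (continuous_snd.comp continuous_snd).continuousOn
    exact (((continuous_const.sub continuous_fst).continuousOn.smul a1).add
      (continuous_fst.continuousOn.smul a2)).norm
  obtain ⟨x₀, hx₀, hmin⟩ := hKc.exists_isMinOn hKn hcont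
  set m := ‖(1 - x₀.1) • fderiv ℝ F x₀.2.1 x₀.2.2 + x₀.1 • fderiv ℝ G x₀.2.1 x₀.2.2‖ with hm
  have hm0 : 0 < m := by
    obtain ⟨hτ, hv, hu⟩ := hx₀
    rw [mem_sphere_zero_iff_norm] at hv hu
    rw [hm, norm_pos_iff, ← sg_fderiv hF hG _ (unit_ne hv)]
    intro h0
    exact unit_ne hu ((injective_iff_map_eq_zero _).1 (h _ hτ _ (unit_ne hv)) _ h0)
  refine ⟨m, hm0, fun τ hτ v hv u => ?_⟩
  by_cases hu : u = 0
  · rw [hu, norm_zero, mul_zero]
    exact norm_nonneg _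
  have hup : 0 < ‖u‖ := norm_pos_iff.2 hu
  have h1 : ((τ, v, ‖u‖⁻¹ • u) : ℝ × V n × V n) ∈ K := by
    refine ⟨hτ, ?_, ?_⟩
    · rwa [mem_sphere_zero_iff_norm]
    · rw [mem_sphere_zero_iff_norm, norm_smul, norm_inv, norm_norm, inv_mul_cancel₀ hup.ne']
  have h2 := hmin h1
  have h3 : m ≤ ‖(1 - τ) • fderiv ℝ F v (‖u‖⁻¹ • u) + τ • fderiv ℝ G v (‖u‖⁻¹ • u)‖ := h2
  rw [map_smul, map_smul, smul_comm (1 - τ), smul_comm τ, ← smul_add, norm_smul, norm_inv,
    norm_norm, le_inv_mul_iff₀ hup] at h3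
  linarith

lemma low_stable {F G F' G' : V n → V n} {m : ℝ} (h : SegLow m F G)
    (h1 : ∀ v, ‖v‖ = 1 → ∀ h, ‖fderiv ℝ F' v h - fderiv ℝ F v h‖ ≤ m / 2 * ‖h‖)
    (h2 : ∀ v, ‖v‖ = 1 → ∀ h, ‖fderiv ℝ G' v h - fderiv ℝ G v h‖ ≤ m / 2 * ‖h‖) :
    SegLow (m / 2) F' G' := by
  intro τ hτ v hv u
  have e1 := h τ hτ v hv u
  have e2 := h1 v hv u
  have e3 := h2 v hv u
  have e4 : (1 - τ) • fderiv ℝ F v u + τ • fderiv ℝ G v u =
      ((1 - τ) • fderiv ℝ F' v u + τ • fderiv ℝ G' v u) -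
      ((1 - τ) • (fderiv ℝ F' v u - fderiv ℝ F v u) + τ • (fderiv ℝ G' v u - fderiv ℝ G v u)) := by
    module
  have e5 : ‖(1 - τ) • (fderiv ℝ F' v u - fderiv ℝ F v u) +
      τ • (fderiv ℝ G' v u - fderiv ℝ G v u)‖ ≤ m / 2 * ‖u‖ := by
    refine (norm_add_le _ _).trans ?_
    rw [norm_smul, norm_smul, Real.norm_of_nonneg (by linarith [hτ.2]), Real.norm_of_nonneg hτ.1]
    have f1 := mul_le_mul_of_nonneg_left e2 (by linarith [hτ.2] : 0 ≤ 1 - τ)
    have f2 := mul_le_mul_of_nonneg_left e3 hτ.1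
    linarith
  have e6 := norm_sub_le ((1 - τ) • fderiv ℝ F' v u + τ • fderiv ℝ G' v u)
    ((1 - τ) • (fderiv ℝ F' v u - fderiv ℝ F v u) + τ • (fderiv ℝ G' v u - fderiv ℝ G v u))
  rw [← e4] at e6
  linarith

/-- the relation which generates the polygons -/
def Sg (F G : V n → V n) : Prop := Hm F ∧ Hm G ∧ Seg F G

lemma exists_seq {α : Type*} {R : α → α → Prop} {a b : α} (h : Relation.ReflTransGen R a b) :
    ∃ (m : ℕ) (f : ℕ → α), f 0 = a ∧ f m = b ∧ ∀ j < m, R (f j) (f (j + 1)) := by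
  induction h with
  | refl => exact ⟨0, fun _ => a, rfl, rfl, fun j hj => absurd hj (Nat.not_lt_zero j)⟩
  | @tail b c _ hbc ih =>
    obtain ⟨m, f, h0, hm, hf⟩ := ih
    refine ⟨m + 1, fun j => if j ≤ m then f j else c, ?_, ?_, ?_⟩
    · simp [h0]
    · simp
    · intro j hj
      by_cases hjm : j = m
      · subst hjm
        simp [hm, hbc]
      · have h1 : j < m := by omega
        have h2 : j + 1 ≤ m := h1
        simp only [h1.le, h2, if_true]
        exact hf j h1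

/-- **a smooth path of nondegenerate maps can be replaced by a polygon** -/
theorem polygon_of_path {L : ℝ → V n → V n} (hL : ContDiffOn ℝ ∞ (uncurry L) (univ ×ˢ {0}ᶜ))
    (hhom : ∀ t (c : ℂ) v, L t (c • v) = c • L t v) {a b : ℝ} (hab : a ≤ b)
    (hN : ∀ t ∈ Icc a b, Nd (L t)) : Relation.ReflTransGen Sg (L a) (L b) := by
  have hopen : IsOpen (univ ×ˢ {0}ᶜ : Set (ℝ × V n)) := isOpen_univ.prod isOpen_compl_singleton
  have hHm : ∀ t, Hm (L t) := by
    intro t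
    refine ⟨?_, hhom t⟩
    have h2 : ContDiffOn ℝ ∞ (fun x : V n => uncurry L (t, x)) {0}ᶜ :=
      hL.comp (contDiff_const.prodMk contDiff_id).contDiffOn fun x hx => ⟨mem_univ _, hx⟩
    exact h2
  have hd : ∀ t, ∀ v : V n, v ≠ 0 → fderiv ℝ (L t) v =
      (fderiv ℝ (uncurry L) (t, v)).comp (ContinuousLinearMap.inr ℝ ℝ (V n)) := by
    intro t v hv
    have h1 : HasFDerivAt (uncurry L) (fderiv ℝ (uncurry L) (t, v)) (t, v) :=
      ((hL.contDiffAt (hopen.mem_nhds ⟨mem_univ _, mem_compl_singleton_iff.2 hv⟩)).differentiableAt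
        (by simp)).hasFDerivAt
    have h2 : HasFDerivAt (fun x : V n => ((t, x) : ℝ × V n)) (ContinuousLinearMap.inr ℝ ℝ (V n)) v :=
      hasFDerivAt_prodMk_right t v
    exact (h1.comp v h2).fderiv
  have hdc : ContinuousOn (fun x : ℝ × V n => fderiv ℝ (L x.1) x.2) (univ ×ˢ {0}ᶜ) := by
    have h1 : ContinuousOn (fun x : ℝ × V n =>
        (fderiv ℝ (uncurry L) x).comp (ContinuousLinearMap.inr ℝ ℝ (V n))) (univ ×ˢ {0}ᶜ) :=
      (hL.continuousOn_fderiv_of_isOpen hopen (by simp)).clm_comp continuousOn_const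
    refine h1.congr ?_
    rintro ⟨t, v⟩ ⟨-, hv⟩
    exact hd t v hv
  set K : Set (ℝ × V n) := Icc a b ×ˢ sphere (0 : V n) 1 with hK
  have hKc : IsCompact K := isCompact_Icc.prod (isCompact_sphere _ _)
  have hsub : K ⊆ univ ×ˢ {0}ᶜ := by
    rintro ⟨t, v⟩ ⟨-, hv⟩
    rw [mem_sphere_zero_iff_norm] at hv
    exact ⟨mem_univ _, unit_ne hv⟩
  -- lower bound
  obtain ⟨m, hm0, hm⟩ : ∃ m : ℝ, 0 < m ∧ ∀ t ∈ Icc a b, ∀ v, ‖v‖ = 1 → ∀ u,
      m * ‖u‖ ≤ ‖fderiv ℝ (L t) v u‖ := by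
    set K2 : Set ((ℝ × V n) × V n) := K ×ˢ sphere (0 : V n) 1 with hK2
    have hK2c : IsCompact K2 := hKc.prod (isCompact_sphere _ _)
    obtain ⟨v₀, hv₀⟩ := exists_unit n
    have hv₀' : v₀ ∈ sphere (0 : V n) 1 := by rwa [mem_sphere_zero_iff_norm]
    have hK2n : K2.Nonempty := ⟨((a, v₀), v₀), ⟨⟨⟨le_rfl, hab⟩, hv₀'⟩, hv₀'⟩⟩
    have hc : ContinuousOn (fun x : (ℝ × V n) × V n => ‖fderiv ℝ (L x.1.1) x.1.2 x.2‖) K2 := by
      have h1 : ContinuousOn (fun x : (ℝ × V n) × V n => fderiv ℝ (L x.1.1) x.1.2) K2 :=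
        (hdc.mono hsub).comp continuous_fst.continuousOn fun x hx => hx.1
      exact (h1.clm_apply continuous_snd.continuousOn).norm
    obtain ⟨x₀, hx₀, hmin⟩ := hK2c.exists_isMinOn hK2n hc
    refine ⟨‖fderiv ℝ (L x₀.1.1) x₀.1.2 x₀.2‖, ?_, ?_⟩
    · obtain ⟨⟨ht, hv⟩, hu⟩ := hx₀
      rw [mem_sphere_zero_iff_norm] at hv hu
      rw [norm_pos_iff]
      intro h0
      exact unit_ne hu ((injective_iff_map_eq_zero _).1 (hN _ ht _ (unit_ne hv)) _ h0)
    · intro t ht v hv u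
      by_cases hu : u = 0
      · rw [hu, norm_zero, mul_zero]
        exact norm_nonneg _
      have hup : 0 < ‖u‖ := norm_pos_iff.2 hu
      have h1 : (((t, v), ‖u‖⁻¹ • u) : (ℝ × V n) × V n) ∈ K2 := by
        refine ⟨⟨ht, by rwa [mem_sphere_zero_iff_norm]⟩, ?_⟩
        rw [mem_sphere_zero_iff_norm, norm_smul, norm_inv, norm_norm, inv_mul_cancel₀ hup.ne']
      have h2 := isMinOn_iff.1 hmin _ h1
      dsimp only at h2
      rw [map_smul, norm_smul, norm_inv, norm_norm, le_inv_mul_iff₀ hup] at h2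
      linarith
  -- uniform continuity
  have huc := hKc.uniformContinuousOn_of_continuous (hdc.mono hsub)
  rw [Metric.uniformContinuousOn_iff] at huc
  obtain ⟨δ, hδ, huc⟩ := huc (m / 2) (by linarith)
  have hseg : ∀ s ∈ Icc a b, ∀ t ∈ Icc a b, |s - t| < δ → Sg (L s) (L t) := by
    intro s hs t ht hst
    refine ⟨hHm s, hHm t, seg_of_low (hHm s) (hHm t) (m := m / 2) (by linarith) ?_⟩
    have h0 : SegLow m (L s) (L s) := by
      intro τ _ v hv u
      have : (1 - τ) • fderiv ℝ (L s) v u + τ • fderiv ℝ (L s) v u = fderiv ℝ (L s) v u := by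
        module
      rw [this]
      exact hm s hs v hv u
    refine low_stable h0 (fun v _ u => ?_) fun v hv u => ?_
    · rw [sub_self, norm_zero]
      positivity
    · have hvs : v ∈ sphere (0 : V n) 1 := by rwa [mem_sphere_zero_iff_norm]
      have h0 : dist ((t, v) : ℝ × V n) (s, v) < δ := by
        have h00 : dist ((t, v) : ℝ × V n) (s, v) = dist t s := by
          rw [Prod.dist_eq]
          exact max_eq_left (by rw [dist_self]; exact dist_nonneg)
        rw [h00, Real.dist_eq, abs_sub_comm]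
        exact hst
      have h1 : dist (fderiv ℝ (L t) v) (fderiv ℝ (L s) v) < m / 2 := huc (t, v) ⟨ht, hvs⟩ (s, v)
        ⟨hs, hvs⟩ h0
      rw [dist_eq_norm] at h1
      have h2 := (fderiv ℝ (L t) v - fderiv ℝ (L s) v).le_opNorm u
      exact h2.trans (mul_le_mul_of_nonneg_right h1.le (norm_nonneg _))
  -- the partition
  obtain ⟨N, hN'⟩ := exists_nat_gt ((b - a) / δ)
  have hba : 0 ≤ (b - a) / δ := div_nonneg (by linarith) hδ.le
  have hNp : (0 : ℝ) < N := hba.trans_lt hN'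
  have hstep : (b - a) / N < δ := by
    rw [div_lt_iff₀ hNp]
    rw [div_lt_iff₀ hδ] at hN'
    linarith
  have hstep0 : 0 ≤ (b - a) / N := div_nonneg (by linarith) hNp.le
  have hchain : ∀ k : ℕ, k ≤ N → Relation.ReflTransGen Sg (L a) (L (a + k * ((b - a) / N))) := by
    intro k
    induction k with
    | zero =>
      intro _
      rw [Nat.cast_zero, zero_mul, add_zero]
    | succ k ih =>
      intro hk
      refine (ih (by omega)).tail ?_
      have hk1 : (k : ℝ) ≤ N := by exact_mod_cast (by omega : k ≤ N)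
      have hk2 : ((k + 1 : ℕ) : ℝ) ≤ N := by exact_mod_cast hk
      have hmem : ∀ x : ℝ, 0 ≤ x → x ≤ N → a + x * ((b - a) / N) ∈ Icc a b := by
        intro x hx0 hx1
        constructor
        · have := mul_nonneg hx0 hstep0
          linarith
        · have h1 : x * ((b - a) / N) ≤ N * ((b - a) / N) := mul_le_mul_of_nonneg_right hx1 hstep0
          have h2 : (N : ℝ) * ((b - a) / N) = b - a := by field_simp
          linarith
      refine hseg _ (hmem _ (Nat.cast_nonneg k) hk1) _ (hmem _ (Nat.cast_nonneg _) hk2) ?_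
      have h3 : a + (k : ℝ) * ((b - a) / N) - (a + ((k + 1 : ℕ) : ℝ) * ((b - a) / N)) =
          -((b - a) / N) := by
        push_cast
        ring
      rw [h3, abs_neg, abs_of_nonneg hstep0]
      exact hstep
  have hfin := hchain N le_rfl
  have h4 : a + (N : ℝ) * ((b - a) / N) = b := by field_simp; ring
  rwa [h4] at hfin

end Pool.Agent.H13.Pol
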